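import Mathlib

/-!
# Minors of grids
-/

namespace Pool.Agent.MP_fd1949_P

/-- The grid with `k * k` vertices. -/
abbrev grid (k : ℕ) : SimpleGraph (Fin k × Fin k) :=
  SimpleGraph.boxProd (SimpleGraph.pathGraph k) (SimpleGraph.pathGraph k)

/-- `H` is a minor of a `k × k` grid: there are pairwise disjoint connected branch sets `β v`, and
an edge of the grid between `β u` and `β v` for every edge `uv` of `H`. The finite graphs with this
property are exactly the finite planar graphs. -/
def GridMinor {W : Type} (H : SimpleGraph W) : Prop :=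
  ∃ (k : ℕ) (β : W → Set (Fin k × Fin k)), (∀ v, ((grid k).induce (β v)).Connected) ∧
    (∀ u v, u ≠ v → Disjoint (β u) (β v)) ∧
    ∀ u v, H.Adj u v → ∃ x ∈ β u, ∃ y ∈ β v, (grid k).Adj x y

end Pool.Agent.MP_fd1949_P
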