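import Mathlib
import Pool.Agent.Lib.MP_fd1949_co.Defs
import Pool.Agent.Lib.MP_fd1949_P.GridDef

/-!
# Walk distances in graphs with natural numbers

`NearN G n x y` : the distance of `x` and `y` is at most `n`. `Far G n X Y` (from the earlier
library): all walks from `X` to `Y` have length at least `n`. `Conn G A` : the set `A` is connected
in `G` (or empty).
-/

namespace Pool.Agent.MP_fd1949_P

open Pool.Agent.MP_fd1949_co

/-- The distance of `x` and `y` in `G` is at most `n`. -/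
def NearN {V : Type} (G : SimpleGraph V) (n : ℕ) (x y : V) : Prop :=
  ∃ w : G.Walk x y, w.length ≤ n

/-- The closed ball of radius `n` around `x`. -/
def ball {V : Type} (G : SimpleGraph V) (x : V) (n : ℕ) : Set V := {z | NearN G n x z}

/-- The closed neighbourhood of radius `n` of the set `A`. -/
def nbhd {V : Type} (G : SimpleGraph V) (n : ℕ) (A : Set V) : Set V := {z | ∃ x ∈ A, NearN G n x z}

/-- The set `A` is connected in `G` (or empty): any two points of `A` are joined by a walk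
inside `A`. -/
def Conn {V : Type} (G : SimpleGraph V) (A : Set V) : Prop :=
  ∀ x ∈ A, ∀ y ∈ A, ∃ w : G.Walk x y, ∀ z ∈ w.support, z ∈ A

variable {V : Type} {G : SimpleGraph V}

lemma NearN.refl (n : ℕ) (x : V) : NearN G n x x := ⟨.nil, by simp⟩

lemma NearN.symm {n : ℕ} {x y : V} : NearN G n x y → NearN G n y x :=
  fun ⟨w, h⟩ => ⟨w.reverse, by simpa⟩

lemma NearN.trans {a b : ℕ} {x y z : V} :
    NearN G a x y → NearN G b y z → NearN G (a + b) x z := by
  rintro ⟨w, h⟩ ⟨w', h'⟩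
  exact ⟨w.append w', by rw [SimpleGraph.Walk.length_append]; omega⟩

lemma NearN.mono {a b : ℕ} {x y : V} (hab : a ≤ b) : NearN G a x y → NearN G b x y :=
  fun ⟨w, h⟩ => ⟨w, h.trans hab⟩

lemma NearN.reachable {n : ℕ} {x y : V} : NearN G n x y → G.Reachable x y := fun ⟨w, _⟩ => ⟨w⟩

lemma NearN.of_adj {x y : V} (h : G.Adj x y) : NearN G 1 x y := ⟨h.toWalk, by simp⟩

lemma nearN_iff {n : ℕ} {x y : V} : NearN G n x y ↔ G.Reachable x y ∧ G.dist x y ≤ n := by
  constructor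
  · rintro ⟨w, h⟩
    exact ⟨⟨w⟩, (SimpleGraph.dist_le w).trans h⟩
  · rintro ⟨hr, h⟩
    obtain ⟨w, hw⟩ := hr.exists_walk_length_eq_dist
    exact ⟨w, by rw [hw]; exact h⟩

/-- The real valued notion of the earlier library. -/
lemma nearN_of_near {n : ℕ} {x y : V} (h : Near G (n : ℝ) x y) : NearN G n x y := by
  obtain ⟨w, hw⟩ := h
  exact ⟨w, by exact_mod_cast hw⟩

lemma near_of_nearN {n : ℕ} {x y : V} (h : NearN G n x y) : Near G (n : ℝ) x y := by
  obtain ⟨w, hw⟩ := h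
  exact ⟨w, by exact_mod_cast hw⟩

/-- A short walk stays close to both of its ends. -/
lemma NearN.exists_walk {n : ℕ} {x y : V} (h : NearN G n x y) :
    ∃ w : G.Walk x y, w.length ≤ n ∧ ∀ z ∈ w.support, NearN G n x z ∧ NearN G n z y := by
  classical
  obtain ⟨w, hw⟩ := h
  refine ⟨w, hw, fun z hz => ⟨⟨w.takeUntil z hz, ?_⟩, ⟨w.dropUntil z hz, ?_⟩⟩⟩
  · exact (w.length_takeUntil_le_length hz).trans hw
  · exact (w.length_dropUntil_le_length hz).trans hw

lemma _root_.Pool.Agent.MP_fd1949_co.Far.symm {n : ℕ} {X Y : Set V} (h : Far G n X Y) : Far G n Y X := by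
  intro y hy x hx w
  have := h x hx y hy w.reverse
  rwa [SimpleGraph.Walk.length_reverse] at this

lemma _root_.Pool.Agent.MP_fd1949_co.Far.mono {n m : ℕ} {X Y X' Y' : Set V} (h : Far G n X Y) (hm : m ≤ n) (hX : X' ⊆ X)
    (hY : Y' ⊆ Y) : Far G m X' Y' :=
  fun x hx y hy w => hm.trans (h x (hX hx) y (hY hy) w)

lemma far_succ_iff {n : ℕ} {X Y : Set V} :
    Far G (n + 1) X Y ↔ ∀ x ∈ X, ∀ y ∈ Y, ¬ NearN G n x y := by
  constructor
  · rintro h x hx y hy ⟨w, hw⟩
    have := h x hx y hy w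
    omega
  · intro h x hx y hy w
    by_contra hlt
    exact h x hx y hy ⟨w, by omega⟩

/-- To show `Far`, suppose there is a walk which is too short. -/
lemma far_of {n : ℕ} {X Y : Set V} (h : ∀ x ∈ X, ∀ y ∈ Y, ∀ m, m < n → ¬ NearN G m x y) :
    Far G n X Y := by
  intro x hx y hy w
  by_contra hlt
  exact h x hx y hy w.length (by omega) ⟨w, le_rfl⟩

lemma _root_.Pool.Agent.MP_fd1949_co.Far.not_near {n m : ℕ} {X Y : Set V} (h : Far G n X Y)
    (hm : m < n) {x y : V} (hx : x ∈ X)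
    (hy : y ∈ Y) : ¬ NearN G m x y := by
  rintro ⟨w, hw⟩
  have := h x hx y hy w
  omega

/-- Neighbourhoods of far sets are far. -/
lemma _root_.Pool.Agent.MP_fd1949_co.Far.nbhd {n a b : ℕ} {X Y : Set V} (h : Far G (n + a + b) X Y) :
    Far G n (nbhd G a X) (nbhd G b Y) := by
  refine far_of ?_
  rintro z ⟨x, hx, hxz⟩ z' ⟨y, hy, hyz⟩ m hm hn
  exact h.not_near (m := a + m + b) (by omega) hx hy ((hxz.trans hn).trans hyz.symm)

lemma subset_nbhd (n : ℕ) (A : Set V) : A ⊆ nbhd G n A := fun x hx => ⟨x, hx, NearN.refl n x⟩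

lemma nbhd_mono {a b : ℕ} {A B : Set V} (hab : a ≤ b) (h : A ⊆ B) : nbhd G a A ⊆ nbhd G b B :=
  fun _ ⟨x, hx, hn⟩ => ⟨x, h hx, hn.mono hab⟩

lemma nbhd_nbhd (a b : ℕ) (A : Set V) : nbhd G b (nbhd G a A) ⊆ nbhd G (a + b) A := by
  rintro z ⟨y, ⟨x, hx, hxy⟩, hyz⟩
  exact ⟨x, hx, hxy.trans hyz⟩

lemma mem_ball_self (x : V) (n : ℕ) : x ∈ ball G x n := NearN.refl n x

lemma conn_singleton (x : V) : Conn G {x} := by
  rintro a ha b hb
  rw [Set.mem_singleton_iff] at ha hb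
  subst ha
  subst hb
  exact ⟨.nil, by simp⟩

/-- A set in which every point is joined to a fixed one inside the set is connected. -/
lemma conn_of_root {A : Set V} (x₀ : V)
    (h : ∀ x ∈ A, ∃ w : G.Walk x₀ x, ∀ u ∈ w.support, u ∈ A) : Conn G A := by
  intro x hx y hy
  obtain ⟨w, hw⟩ := h x hx
  obtain ⟨w', hw'⟩ := h y hy
  refine ⟨w.reverse.append w', fun z hz => ?_⟩
  rcases (SimpleGraph.Walk.mem_support_append_iff _ _).1 hz with hz | hz
  · rw [SimpleGraph.Walk.support_reverse, List.mem_reverse] at hz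
    exact hw z hz
  · exact hw' z hz

lemma conn_ball (x : V) (n : ℕ) : Conn G (ball G x n) := by
  refine conn_of_root x fun y hy => ?_
  obtain ⟨w, -, hw⟩ := NearN.exists_walk hy
  exact ⟨w, fun z hz => (hw z hz).1⟩

lemma conn_support {x y : V} (w : G.Walk x y) : Conn G {z | z ∈ w.support} := by
  classical
  refine conn_of_root x fun z hz => ⟨w.takeUntil z hz, fun u hu => ?_⟩
  exact w.support_takeUntil_subset_support hz hu

lemma Conn.union {A B : Set V} (hA : Conn G A) (hB : Conn G B) {z : V} (hzA : z ∈ A)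
    (hzB : z ∈ B) : Conn G (A ∪ B) := by
  refine conn_of_root z ?_
  rintro x (hx | hx)
  · obtain ⟨w, hw⟩ := hA z hzA x hx
    exact ⟨w, fun u hu => Or.inl (hw u hu)⟩
  · obtain ⟨w, hw⟩ := hB z hzB x hx
    exact ⟨w, fun u hu => Or.inr (hw u hu)⟩

/-- A union of connected sets `Z ∪ A c` with a common nonempty part `Z`. -/
lemma conn_iUnion {ι : Type} {Z : Set V} (hZ : Z.Nonempty) (A : ι → Set V) (I : Set ι)
    (hc : Conn G Z) (h : ∀ c ∈ I, Conn G (Z ∪ A c)) : Conn G (Z ∪ ⋃ c ∈ I, A c) := by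
  obtain ⟨z, hz⟩ := hZ
  refine conn_of_root z ?_
  rintro x (hx | hx)
  · obtain ⟨w, hw⟩ := hc z hz x hx
    exact ⟨w, fun u hu => Or.inl (hw u hu)⟩
  · obtain ⟨c, hc, hx⟩ := Set.mem_iUnion₂.1 hx
    obtain ⟨w, hw⟩ := h c hc z (Or.inl hz) x (Or.inr hx)
    refine ⟨w, fun u hu => ?_⟩
    rcases hw u hu with hu | hu
    · exact Or.inl hu
    · exact Or.inr (Set.mem_iUnion₂.2 ⟨c, hc, hu⟩)

/-- A sequence of adjacent vertices is a walk. -/
lemma seq_walk (g : ℕ → V) {a b : ℕ} (hab : a ≤ b) (h : ∀ n, a ≤ n → n < b → G.Adj (g n) (g (n + 1))) :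
    ∃ w : G.Walk (g a) (g b), w.length = b - a ∧ ∀ z ∈ w.support, ∃ n, a ≤ n ∧ n ≤ b ∧ z = g n := by
  induction b, hab using Nat.le_induction with
  | base => exact ⟨.nil, by simp, fun z hz => ⟨a, le_rfl, le_rfl, by simpa using hz⟩⟩
  | succ b hab ih =>
    obtain ⟨w, hw, hs⟩ := ih fun n hn hn' => h n hn (by omega)
    refine ⟨w.concat (h b hab (by omega)), ?_, fun z hz => ?_⟩
    · rw [SimpleGraph.Walk.length_concat, hw]
      omega
    · rw [SimpleGraph.Walk.support_concat, List.mem_append, List.mem_singleton] at hz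
      rcases hz with hz | hz
      · obtain ⟨n, h1, h2, h3⟩ := hs z hz
        exact ⟨n, h1, by omega, h3⟩
      · exact ⟨b + 1, by omega, le_rfl, hz⟩

lemma conn_seq (g : ℕ → V) {a b : ℕ} (h : ∀ n, a ≤ n → n < b → G.Adj (g n) (g (n + 1))) :
    Conn G {z | ∃ n, a ≤ n ∧ n ≤ b ∧ z = g n} := by
  refine conn_of_root (g a) ?_
  rintro x ⟨n, hn, hnb, rfl⟩
  obtain ⟨w, -, hw⟩ := seq_walk g hn fun m hm hm' => h m hm (by omega)
  refine ⟨w, fun u hu => ?_⟩
  obtain ⟨m, h1, h2, h3⟩ := hw u hu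
  exact ⟨m, h1, by omega, h3⟩

lemma seq_near (g : ℕ → V) {a b : ℕ} (hab : a ≤ b)
    (h : ∀ n, a ≤ n → n < b → G.Adj (g n) (g (n + 1))) : NearN G (b - a) (g a) (g b) := by
  obtain ⟨w, hw, -⟩ := seq_walk g hab h
  exact ⟨w, hw.le⟩

/-- Connected sets in the sense of Mathlib. -/
lemma Conn.induce {A : Set V} (h : Conn G A) (hne : A.Nonempty) : (G.induce A).Connected := by
  obtain ⟨x₀, hx₀⟩ := hne
  have : Nonempty A := ⟨⟨x₀, hx₀⟩⟩
  have key : ∀ x : A, (G.induce A).Reachable ⟨x₀, hx₀⟩ x := by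
    rintro ⟨x, hx⟩
    obtain ⟨w, hw⟩ := h x₀ hx₀ x hx
    exact ⟨w.induce A hw⟩
  exact ⟨fun a b => (key a).symm.trans (key b)⟩

lemma conn_of_induce {A : Set V} (h : (G.induce A).Connected) : Conn G A := by
  have key : ∀ (a b : A) (_ : (G.induce A).Walk a b), ∃ w : G.Walk (a : V) (b : V),
      ∀ z ∈ w.support, z ∈ A := by
    intro a b w
    induction w with
    | nil => exact ⟨.nil, fun z hz => by
        rw [SimpleGraph.Walk.support_nil, List.mem_singleton] at hz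
        subst hz
        exact Subtype.coe_prop _⟩
    | @cons u v w hadj _ ih =>
      obtain ⟨w', hw'⟩ := ih
      refine ⟨.cons (SimpleGraph.induce_adj.1 hadj) w', fun z hz => ?_⟩
      rw [SimpleGraph.Walk.support_cons, List.mem_cons] at hz
      rcases hz with rfl | hz
      · exact u.2
      · exact hw' z hz
  intro x hx y hy
  obtain ⟨w⟩ := h.preconnected ⟨x, hx⟩ ⟨y, hy⟩
  exact key _ _ w

end Pool.Agent.MP_fd1949_P
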