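import Mathlib
import Pool.Agent.Lib.MP_fd1949_P.Base

/-!
# Chains, roots, combs, free and linear rows (structures only)
-/

namespace Pool.Agent.MP_fd1949_P

open Pool.Agent.MP_fd1949_co

/-- `f` is the distance from `o` inside the subgraph induced by `S` (described by its local
properties). -/
structure Lev {V : Type} (G : SimpleGraph V) (S : Set V) (o : V) (f : V → ℕ) : Prop where
  mem : o ∈ S
  zero : f o = 0
  lip : ∀ u ∈ S, ∀ v ∈ S, G.Adj u v → f u ≤ f v + 1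
  down : ∀ v ∈ S, f v ≠ 0 → ∃ u ∈ S, G.Adj v u ∧ f u + 1 = f v
  uniq : ∀ v ∈ S, f v = 0 → v = o

/-- A chain of length `K` (section 1 of the text): `S 0` is a component of `G`, and `S (i + 1)` is a
component of the subgraph induced by the points `v` of `S i` with
`a j - h (i + 1) ≤ f j v ≤ a j + r + h (i + 1)` for all `j ≤ i`. -/
structure Chain {V : Type} (G : SimpleGraph V) (K r : ℕ) (h : ℕ → ℕ) where
  S : ℕ → Set V
  o : ℕ → V
  f : ℕ → V → ℕ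
  a : ℕ → ℕ
  lev : ∀ i < K, Lev G (S i) (o i) (f i)
  top : ∀ u ∈ S 0, ∀ v, G.Adj u v → v ∈ S 0
  sub : ∀ i < K, S (i + 1) ⊆ S i
  slab : ∀ i ≤ K, ∀ v ∈ S i, ∀ j < i, a j ≤ f j v + h i ∧ f j v ≤ a j + r + h i
  closed : ∀ i < K, ∀ u ∈ S (i + 1), ∀ v ∈ S i, G.Adj u v →
    (∀ j < i + 1, a j ≤ f j v + h (i + 1) ∧ f j v ≤ a j + r + h (i + 1)) → v ∈ S (i + 1)
  conn : Conn G (S K)

variable {V : Type} {G : SimpleGraph V} {K r : ℕ} {h : ℕ → ℕ}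

/-- The hub of level `i`. -/
def Chain.T (c : Chain G K r h) (i : ℕ) : Set V := {v | v ∈ c.S i ∧ c.f i v + h i ≤ c.a i}

/-- Locations `y e` in `S K` and geodesics `g i e 0 = y e, g i e 1, ...` to the base points. -/
structure Roots (c : Chain G K r h) (ι : Type) where
  y : ι → V
  g : ℕ → ι → ℕ → V
  mem : ∀ e, y e ∈ c.S K
  start : ∀ i < K, ∀ e, g i e 0 = y e
  inS : ∀ i < K, ∀ e n, g i e n ∈ c.S i
  lev : ∀ i < K, ∀ e n, n ≤ c.f i (y e) → c.f i (g i e n) + n = c.f i (y e)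
  adj : ∀ i < K, ∀ e n, n < c.f i (y e) → G.Adj (g i e n) (g i e (n + 1))
  last : ∀ i < K, ∀ e n, c.f i (y e) ≤ n → g i e n = c.o i

/-- The part of the geodesic of level `m` of the location `d` in the hub of level `m` comes `q₁`-near
to the leg of level `i` of the location `e`. -/
def Roots.Graze {c : Chain G K r h} {ι : Type} (ρ : Roots c ι) (q₁ i m : ℕ) (d e : ι) : Prop :=
  ∃ n n', n ≤ c.f m (ρ.y d) ∧ c.f m (ρ.g m d n) + h m ≤ c.a m ∧ n' ≤ c.f i (ρ.y e) ∧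
    c.a i ≤ c.f i (ρ.g i e n') + h i ∧ NearN G q₁ (ρ.g m d n) (ρ.g i e n')

/-- A comb: `N` far apart geodesics (columns) of length `Θ`, and `k` far apart walks (rows); the
row `m` meets each column near the height `t m`, and only there. -/
structure Comb {V : Type} (G : SimpleGraph V) (k N q₁ ω₀ η Δ Θ : ℕ) where
  col : Fin N → ℕ → V
  t : Fin k → ℕ
  R : Fin k → ℕ → V
  len : Fin k → ℕ
  col_adj : ∀ c n, n < Θ → G.Adj (col c n) (col c (n + 1))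
  col_geo : ∀ c n n', n ≤ n' → n' ≤ Θ → ∀ w : G.Walk (col c n) (col c n'), n' ≤ n + w.length
  col_far : ∀ c c', c ≠ c' → ∀ n n', n ≤ Θ → n' ≤ Θ → ∀ w : G.Walk (col c n) (col c' n'),
    Δ ≤ w.length
  row_adj : ∀ m n, n < len m → G.Adj (R m n) (R m (n + 1))
  row_far : ∀ m m', m ≠ m' → ∀ n n', n ≤ len m → n' ≤ len m' → ∀ w : G.Walk (R m n) (R m' n'),
    η ≤ w.length
  t_le : ∀ m, t m ≤ Θ
  t_gap : ∀ m m', m < m' → t m' + η ≤ t m
  meet : ∀ m c, ∃ n ≤ len m, NearN G (q₁ + ω₀) (R m n) (col c (t m))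
  cp : ∀ m c n n', n ≤ len m → n' ≤ Θ → NearN G q₁ (R m n) (col c n') →
    n' ≤ t m + ω₀ ∧ t m ≤ n' + ω₀

/-- The vertex set of a column. -/
def Comb.Col {k N q₁ ω₀ η Δ Θ : ℕ} (C : Comb G k N q₁ ω₀ η Δ Θ) (c : Fin N) : Set V :=
  {z | ∃ n ≤ Θ, z = C.col c n}

/-- The vertex set of a row. -/
def Comb.Row {k N q₁ ω₀ η Δ Θ : ℕ} (C : Comb G k N q₁ ω₀ η Δ Θ) (m : Fin k) : Set V :=
  {z | ∃ n ≤ C.len m, z = C.R m n}

/-- FREE: a connected core `Z` and sets `A c ∋ x c` attached to it, such that `Z` and `A c'`,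
`c' ≠ c`, are far from the column `Col c`. -/
def Free {V ι : Type} (G : SimpleGraph V) (q : ℕ) (x : ι → V) (Col : ι → Set V) (Nb : Set V)
    (D : Finset ι) : Prop :=
  ∃ (Z : Set V) (A : ι → Set V), Z.Nonempty ∧ Conn G Z ∧ Z ⊆ Nb ∧
    (∀ c ∈ D, Conn G (Z ∪ A c) ∧ x c ∈ A c ∧ A c ⊆ Nb ∧ Far G q Z (Col c)) ∧
    ∀ c ∈ D, ∀ c' ∈ D, c ≠ c' → Far G q (A c) (Col c')

/-- LINEAR: a sequence of connected sets `F 0, ..., F p`, consecutive ones meet, the others are far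
apart; `F (J c)` contains the ball `X c`; all others are far from the column `Col c`. -/
def Linear {V ι : Type} (G : SimpleGraph V) (q S : ℕ) (X Col : ι → Set V) (Nb : Set V)
    (D : Finset ι) : Prop :=
  ∃ (p : ℕ) (F : ℕ → Set V) (J : ι → ℕ), (∀ j ≤ p, Conn G (F j) ∧ F j ⊆ Nb) ∧
    (∀ j < p, (F j ∩ F (j + 1)).Nonempty) ∧
    (∀ i j, i + 2 ≤ j → j ≤ p → Far G q (F i) (F j)) ∧
    (∀ c ∈ D, J c ≤ p ∧ X c ⊆ F (J c) ∧ F (J c) ⊆ nbhd G S (X c)) ∧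
    (∀ c ∈ D, ∀ c' ∈ D, c ≠ c' → J c + 2 ≤ J c' ∨ J c' + 2 ≤ J c) ∧
    ∀ c ∈ D, ∀ j ≤ p, j ≠ J c → Far G q (F j) (Col c)

/-- LINEAR along a sequence `e` of columns, in increasing order. -/
def LinSeq {V ι : Type} (G : SimpleGraph V) (q S : ℕ) (X Col : ι → Set V) (Nb : Set V) {k : ℕ}
    (e : Fin k → ι) : Prop :=
  ∃ (p : ℕ) (F : ℕ → Set V) (J : Fin k → ℕ), (∀ j ≤ p, Conn G (F j) ∧ F j ⊆ Nb) ∧
    (∀ j < p, (F j ∩ F (j + 1)).Nonempty) ∧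
    (∀ i j, i + 2 ≤ j → j ≤ p → Far G q (F i) (F j)) ∧
    (∀ b, J b ≤ p ∧ X (e b) ⊆ F (J b) ∧ F (J b) ⊆ nbhd G S (X (e b))) ∧
    (∀ b b', b < b' → J b + 2 ≤ J b') ∧
    ∀ b, ∀ j ≤ p, j ≠ J b → Far G q (F j) (Col (e b))

/-- The inequalities between the constants of a comb. -/
structure Cst (N q S q₁ ω₀ ω η Δ : ℕ) : Prop where
  hq : 1 ≤ q
  hS : q * 10 ^ ((2 * N) ^ 2 + 1) ≤ S
  hq₁ : q + S ≤ q₁
  hω : q₁ + ω₀ + 1 ≤ ω
  hη : 4 * ω + 2 * S + q ≤ η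
  hΔ : 2 * ω + S + q₁ + 2 ≤ Δ

/-- The centre of the contact of the row `m` with the column `c`. -/
def Comb.x {k N q₁ ω₀ η Δ Θ : ℕ} (C : Comb G k N q₁ ω₀ η Δ Θ) (m : Fin k) (c : Fin N) : V :=
  C.col c (C.t m)

/-- The row `m` is free with respect to the columns of `D`. -/
def Comb.IsFree {k N q₁ ω₀ η Δ Θ : ℕ} (C : Comb G k N q₁ ω₀ η Δ Θ) (q S ω : ℕ) (m : Fin k)
    (D : Finset (Fin N)) : Prop :=
  Free G q (C.x m) C.Col (nbhd G (2 * ω + S) (C.Row m)) D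

/-- The row `m` is linear with respect to the columns of `D`. -/
def Comb.IsLin {k N q₁ ω₀ η Δ Θ : ℕ} (C : Comb G k N q₁ ω₀ η Δ Θ) (q S ω : ℕ) (m : Fin k)
    (D : Finset (Fin N)) : Prop :=
  Linear G q S (fun c => ball G (C.x m c) ω) C.Col (nbhd G (2 * ω + S) (C.Row m)) D

/-- The data of a row for the abstract row lemma: balls `X c ∋ x c` and units `u c`, `c : ι`;
`c₀` is the first ball, `rk` the order of the first visits. -/
structure RowSys {V : Type} (G : SimpleGraph V) (ι : Type) (S q₁ : ℕ) where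
  c₀ : ι
  x : ι → V
  X : ι → Set V
  u : ι → Set V
  Col : ι → Set V
  rk : ι → ℕ
  connX : ∀ c, Conn G (X c)
  connU : ∀ c, Conn G (u c)
  memX : ∀ c, x c ∈ X c
  meet : ∀ c, (u c ∩ X c).Nonempty
  link : ∀ c, c ≠ c₀ → ∃ c', rk c' < rk c ∧ (u c ∩ X c').Nonempty
  farX : ∀ c c', c ≠ c' → Far G (S + 1) (X c) (X c')
  farU : ∀ c c', c' ≠ c₀ → Far G (q₁ + 1) (u c) (Col c')
  farC : ∀ c c', c ≠ c' → Far G (q₁ + 1) (X c) (Col c')

/-- The elements of a row system: balls (`Sum.inl`) and units (`Sum.inr`). -/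
def RowSys.el {V : Type} {G : SimpleGraph V} {ι : Type} {S q₁ : ℕ} (ρ : RowSys G ι S q₁) :
    ι ⊕ ι → Set V := Sum.elim ρ.X ρ.u

/-- The union of all elements. -/
def RowSys.All {V : Type} {G : SimpleGraph V} {ι : Type} {S q₁ : ℕ} (ρ : RowSys G ι S q₁) :
    Set V := {z | ∃ e, z ∈ ρ.el e}

/-- Two elements are at distance at most `s`. -/
def RowSys.Close {V : Type} {G : SimpleGraph V} {ι : Type} {S q₁ : ℕ} (ρ : RowSys G ι S q₁)
    (s : ℕ) (e e' : ι ⊕ ι) : Prop := ∃ x ∈ ρ.el e, ∃ y ∈ ρ.el e', NearN G s x y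

end Pool.Agent.MP_fd1949_P
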