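import Mathlib
import Pool.Agent.Lib.MP_fd1949_P.Struct

/-!
# Making a fat minor from connected sets
-/

namespace Pool.Agent.MP_fd1949_P

open Pool.Agent.MP_fd1949_co

/-- A convenient way to produce a fat minor: the sets `Q e` only have to contain a walk.
PROOF. For each edge `e` of `H` choose `u, v, x, y, w` by `hQ`, let `p = w.bypass` (a path with support inside the support of `w`) and `P e = {z | z ∈ p.support} ⊆ Q e`; `P e = ∅` for the other `e`.
`conn`: `Conn.induce`. `path`: if `s(u', v') = s(u, v)` either `(u', v') = (u, v)` or swapped, in this case take `p.reverse`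
(compare the proof of `hP1` in `Pool/Agent/Lib/MP_fd1949_co/Build.lean`). The distances: `Far.mono` from `Q` to `P`. -/
theorem mkFat {V W : Type} {G : SimpleGraph V} (H : SimpleGraph W) (q : ℕ) (B : W → Set V)
    (Q : Sym2 W → Set V) (hne : ∀ v, (B v).Nonempty) (hB : ∀ v, Conn G (B v))
    (hQ : ∀ e ∈ H.edgeSet, ∃ u v, e = s(u, v) ∧ ∃ x ∈ B u, ∃ y ∈ B v, ∃ w : G.Walk x y,
      ∀ z ∈ w.support, z ∈ Q e)
    (farBB : ∀ u v, u ≠ v → Far G q (B u) (B v))
    (farQQ : ∀ e ∈ H.edgeSet, ∀ e' ∈ H.edgeSet, e ≠ e' → Far G q (Q e) (Q e'))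
    (farQB : ∀ e ∈ H.edgeSet, ∀ v, v ∉ e → Far G q (Q e) (B v)) :
    ∃ B P, IsFatMinor G H q B P := by
  classical
  have hP : ∀ e : Sym2 W, ∃ P : Set V, e ∈ H.edgeSet → P ⊆ Q e ∧
      ∀ u v, e = s(u, v) → ∃ x ∈ B u, ∃ y ∈ B v, ∃ p : G.Walk x y, p.IsPath ∧
        P = {z | z ∈ p.support} := by
    intro e
    by_cases he : e ∈ H.edgeSet
    · obtain ⟨u, v, rfl, x, hx, y, hy, w, hw⟩ := hQ e he
      refine ⟨{z | z ∈ w.bypass.support}, fun _ => ⟨?_, ?_⟩⟩
      · intro z hz
        exact hw z (w.support_bypass_subset hz)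
      · intro u' v' h
        rcases Sym2.eq_iff.1 h with ⟨rfl, rfl⟩ | ⟨rfl, rfl⟩
        · exact ⟨x, hx, y, hy, w.bypass, w.bypass_isPath, rfl⟩
        · refine ⟨y, hy, x, hx, w.bypass.reverse, w.bypass_isPath.reverse, ?_⟩
          ext z
          simp only [Set.mem_ofPred_eq, SimpleGraph.Walk.support_reverse, List.mem_reverse]
    · exact ⟨∅, fun h => absurd h he⟩
  choose P hP using hP
  refine ⟨B, P, ?_, ?_, farBB, ?_, ?_⟩
  · intro v
    exact Conn.induce (hB v) (hne v)
  · intro u v huv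
    exact (hP s(u, v) huv).2 u v rfl
  · intro e he e' he' hee
    exact (farQQ e he e' he' hee).mono le_rfl (hP e he).1 (hP e' he').1
  · intro e he v hv
    exact (farQB e he v hv).mono le_rfl (hP e he).1 (Set.Subset.refl _)

end Pool.Agent.MP_fd1949_P
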