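import Mathlib
import Pool.Agent.Lib.MP_fd1949_P.Struct

/-!
# Large connected graphs have a vertex of large degree or a long geodesic
-/

namespace Pool.Agent.MP_fd1949_P

open Pool.Agent.MP_fd1949_co

private lemma Bfs_geo {V : Type} {G : SimpleGraph V} {x y : V} (h : G.Reachable x y) :
    ∃ g : ℕ → V, (∀ i < G.dist x y, G.Adj (g i) (g (i + 1))) ∧
      (∀ i ≤ G.dist x y, G.dist x (g i) = i) ∧ g (G.dist x y) = y := by
  obtain ⟨p, hp⟩ := h.exists_walk_length_eq_dist
  refine ⟨p.getVert, ?_, ?_, ?_⟩
  · intro i hi
    exact p.adj_getVert_succ (by omega)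
  · intro i hi
    have h1 : G.dist x (p.getVert i) ≤ i := by
      have := SimpleGraph.dist_le (p.take i)
      rw [SimpleGraph.Walk.take_length] at this
      exact this.trans (min_le_left _ _)
    have h2 : G.dist (p.getVert i) y ≤ p.length - i := by
      have := SimpleGraph.dist_le (p.drop i)
      rwa [SimpleGraph.Walk.drop_length] at this
    have h3 : G.dist x y ≤ G.dist x (p.getVert i) + G.dist (p.getVert i) y := by
      have r1 : G.Reachable x (p.getVert i) := ⟨p.take i⟩
      have r2 : G.Reachable (p.getVert i) y := ⟨p.drop i⟩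
      obtain ⟨q1, hq1⟩ := r1.exists_walk_length_eq_dist
      obtain ⟨q2, hq2⟩ := r2.exists_walk_length_eq_dist
      have := SimpleGraph.dist_le (q1.append q2)
      rw [SimpleGraph.Walk.length_append] at this
      omega
    omega
  · rw [← hp, SimpleGraph.Walk.getVert_length]

private lemma Bfs_adj {V : Type} {G : SimpleGraph V} (hG : G.Connected) (o : V) {x y : V}
    (h : G.Adj x y) : G.dist o y ≤ G.dist o x + 1 := by
  obtain ⟨q, hq⟩ := (hG.preconnected o x).exists_walk_length_eq_dist
  have := SimpleGraph.dist_le (q.concat h)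
  rw [SimpleGraph.Walk.length_concat] at this
  omega

/-- A connected graph with many vertices has a vertex with at least `b` neighbours or an induced
path `g 0, ..., g p`.
PROOF. `N = (b + 1) ^ (p + 1) + 1` or `N = 1 + ∑_{i ≤ p} b ^ i`. Fix a vertex `o`. If some vertex `y` has
`Λ.dist o y ≥ p`, take a walk `w` of length `Λ.dist o y` from `o` to `y` and `g i = w.getVert i`: consecutive ones
are adjacent, and `Λ.dist o (g i) = i` for `i ≤ p` (compare `exists_geo` in
`Pool/Agent/Lib/MP_fd1949_co/Basic.lean`), so for `i + 2 ≤ j` they are different and not adjacent (adjacent vertices have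
distances to `o` that differ by at most one). Otherwise all vertices are at distance `< p` of `o`, and if all degrees
are `< b` then by induction at most `b ^ i` vertices are at distance exactly `i` from `o` (each of them is a neighbour of
one at distance `i - 1`): fewer than `N` vertices. -/
theorem deg_or_path (b p : ℕ) : ∃ N : ℕ, ∀ (E : Type) [Finite E] (Λ : SimpleGraph E),
    Λ.Connected → N ≤ Nat.card E →
    (∃ (e : E) (s : Finset E), b ≤ s.card ∧ ∀ x ∈ s, Λ.Adj e x) ∨
    ∃ g : ℕ → E, (∀ i < p, Λ.Adj (g i) (g (i + 1))) ∧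
      ∀ i j, i + 2 ≤ j → j ≤ p → ¬ Λ.Adj (g i) (g j) ∧ g i ≠ g j := by
  classical
  refine ⟨∑ i ∈ Finset.range p, b ^ i + 1, ?_⟩
  intro E _ Λ hΛ hN
  have : Fintype E := Fintype.ofFinite E
  by_cases hb : ∃ (e : E) (s : Finset E), b ≤ s.card ∧ ∀ x ∈ s, Λ.Adj e x
  · exact Or.inl hb
  right
  push Not at hb
  have hdeg : ∀ e : E, (Finset.univ.filter fun x => Λ.Adj e x).card ≤ b := by
    intro e
    by_contra hcon
    obtain ⟨x, hx, hx'⟩ := hb e (Finset.univ.filter fun x => Λ.Adj e x) (by omega)
    exact hx' (Finset.mem_filter.1 hx).2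
  obtain ⟨o⟩ := hΛ.nonempty
  by_cases hfar : ∃ y, p ≤ Λ.dist o y
  · obtain ⟨y, hy⟩ := hfar
    obtain ⟨g, g1, g2, -⟩ := Bfs_geo (hΛ.preconnected o y)
    refine ⟨g, fun i hi => g1 i (by omega), fun i j hij hj => ⟨fun h => ?_, fun h => ?_⟩⟩
    · have h1 := Bfs_adj hΛ o h
      rw [g2 i (by omega), g2 j (by omega)] at h1
      omega
    · have h1 := g2 i (by omega)
      rw [h, g2 j (by omega)] at h1
      omega
  · exfalso
    push Not at hfar
    have hL : ∀ i, (Finset.univ.filter fun y => Λ.dist o y = i).card ≤ b ^ i := by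
      intro i
      induction i with
      | zero =>
        rw [pow_zero, Finset.card_le_one]
        intro x hx y hy
        rw [Finset.mem_filter] at hx hy
        rw [← hΛ.dist_eq_zero_iff.1 hx.2, ← hΛ.dist_eq_zero_iff.1 hy.2]
      | succ i ih =>
        have hsub : (Finset.univ.filter fun y => Λ.dist o y = i + 1) ⊆
            (Finset.univ.filter fun y => Λ.dist o y = i).biUnion
              fun x => Finset.univ.filter fun z => Λ.Adj x z := by
          intro y hy
          rw [Finset.mem_filter] at hy
          obtain ⟨g, g1, g2, g3⟩ := Bfs_geo (hΛ.preconnected o y)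
          rw [Finset.mem_biUnion]
          refine ⟨g i, Finset.mem_filter.2 ⟨Finset.mem_univ _, g2 i (by omega)⟩,
            Finset.mem_filter.2 ⟨Finset.mem_univ _, ?_⟩⟩
          have h1 := g1 i (by omega)
          rw [hy.2] at g3
          rwa [g3] at h1
        refine (Finset.card_le_card hsub).trans ?_
        refine (Finset.card_biUnion_le_card_mul _ _ b fun x _ => hdeg x).trans ?_
        rw [pow_succ]
        exact Nat.mul_le_mul_right b ih
    have hcard : Nat.card E ≤ ∑ i ∈ Finset.range p, b ^ i := by
      rw [Nat.card_eq_fintype_card, ← Finset.card_univ]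
      have hsub : (Finset.univ : Finset E) ⊆
          (Finset.range p).biUnion fun i => Finset.univ.filter fun y => Λ.dist o y = i := by
        intro y _
        rw [Finset.mem_biUnion]
        exact ⟨Λ.dist o y, Finset.mem_range.2 (hfar y),
          Finset.mem_filter.2 ⟨Finset.mem_univ _, rfl⟩⟩
      refine (Finset.card_le_card hsub).trans (Finset.card_biUnion_le.trans ?_)
      exact Finset.sum_le_sum fun i _ => hL i
    omega

end Pool.Agent.MP_fd1949_P
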