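import Mathlib
import Pool.Agent.Lib.MP_fd1949_P.Struct

/-!
# Row lemma, case (i): an element close to many balls
-/

namespace Pool.Agent.MP_fd1949_P

open Pool.Agent.MP_fd1949_co

/-- Row lemma, case (i).
PROOF. `Z = ρ.u c'`, `A c = ρ.X c ∪ {z | z ∈ w.support}` for a walk `w` of length `≤ s` from a point of `ρ.u c'` to a point of `ρ.X c` (`NearN.exists_walk`: its points are within `s` of `ρ.X c`). `Z.Nonempty` by `ρ.meet`.
`Z ∪ A c` connected: `Conn.union` twice. `Far G q Z (Col c)`: `ρ.farU c' c` and `c ≠ c₀`. `Far G q (A c) (Col c')`, `c ≠ c'`: `A c ⊆ nbhd G s (ρ.X c)`, `ρ.farC` and `Far.nbhd` (`q + s ≤ q₁ + 1`). Everything is in `nbhd G S ρ.All`. -/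
theorem case_ball {V : Type} {G : SimpleGraph V} {ι : Type} [DecidableEq ι] {S q₁ : ℕ}
    (ρ : RowSys G ι S q₁) {q s : ℕ} (hs : s ≤ S) (hq₁ : q + S ≤ q₁)
    (c' : ι) (D : Finset ι) (hD : ∀ c ∈ D, c ≠ ρ.c₀ ∧ ρ.Close s (Sum.inr c') (Sum.inl c)) :
    Free G q ρ.x ρ.Col (nbhd G S ρ.All) D := by
  have hex : ∀ c, ∃ A : Set V, c ∈ D →
      Conn G (ρ.u c' ∪ A) ∧ ρ.X c ⊆ A ∧ A ⊆ nbhd G s (ρ.X c) := by
    intro c
    by_cases hc : c ∈ D
    · obtain ⟨-, x, hx, y, hy, hxy⟩ := hD c hc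
      change x ∈ ρ.u c' at hx
      change y ∈ ρ.X c at hy
      obtain ⟨w, -, hw⟩ := hxy.exists_walk
      refine ⟨{z | z ∈ w.support} ∪ ρ.X c, fun _ => ⟨?_, Set.subset_union_right, ?_⟩⟩
      · rw [← Set.union_assoc]
        have h1 : Conn G (ρ.u c' ∪ {z | z ∈ w.support}) :=
          (ρ.connU c').union (conn_support w) hx (show x ∈ w.support from w.start_mem_support)
        exact h1.union (ρ.connX c) (Or.inr (show y ∈ w.support from w.end_mem_support)) hy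
      · rintro z (hz | hz)
        · exact ⟨y, hy, (hw z hz).2.symm⟩
        · exact subset_nbhd s _ hz
    · exact ⟨∅, fun h => absurd h hc⟩
  choose A hA using hex
  have hX : ∀ c, ρ.X c ⊆ ρ.All := fun c z hz => ⟨Sum.inl c, hz⟩
  have hU : ρ.u c' ⊆ ρ.All := fun z hz => ⟨Sum.inr c', hz⟩
  refine ⟨ρ.u c', A, ?_, ρ.connU c', hU.trans (subset_nbhd S _), fun c hc => ?_,
    fun c hc c'' _ hne => ?_⟩
  · obtain ⟨z, hz, -⟩ := ρ.meet c'
    exact ⟨z, hz⟩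
  · obtain ⟨h1, h2, h3⟩ := hA c hc
    exact ⟨h1, h2 (ρ.memX c), h3.trans (nbhd_mono hs (hX c)),
      (ρ.farU c' c (hD c hc).1).mono (by omega) subset_rfl subset_rfl⟩
  · obtain ⟨h1, h2, h3⟩ := hA c hc
    have h4 : Far G (q + s + 0) (ρ.X c) (ρ.Col c'') :=
      (ρ.farC c c'' hne).mono (by omega) subset_rfl subset_rfl
    exact h4.nbhd.mono le_rfl h3 (subset_nbhd 0 _)

end Pool.Agent.MP_fd1949_P
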