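import Mathlib
import Pool.Agent.Lib.MP_fd1949_P.Struct

/-!
# Row lemma, case (iii): an induced path with many balls
-/

namespace Pool.Agent.MP_fd1949_P

open Pool.Agent.MP_fd1949_co

/-- Row lemma, case (iii).
PROOF. For `j < p` let `w j` be a walk of length `≤ s` from a point of `ρ.el (g j)` to a point of `ρ.el (g (j+1))`. `F j = ρ.el (g j) ∪ {z | z ∈ (w j).support}` for `j < p`, `F j = ρ.el (g j)` for `j ≥ p`. `F j` is connected, contained in `nbhd G s (ρ.el (g j))`, and for `j < p` the end of `w j` is in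
`F j ∩ F (j+1)`. `i + 2 ≤ j ≤ p`: `ρ.el (g i)` and `ρ.el (g j)` are not `Close (10 * s)`, i.e. at distance `> 10 * s`, so `F i`, `F j` are at distance `> 8 * s ≥ q`. `J c`, `c ∈ D`: an index `≤ p` with `g (J c) = inl c`. For `c ≠ c'` in `D` clearly `J c ≠ J c'`, and `J c' = J c + 1` is impossible: the elements
`inl c`, `inl c'` would be `Close s`, against `ρ.farX` (`s ≤ S`). `X c ⊆ F (J c) ⊆ nbhd G s (X c)`. Last clause: `c ∈ D`, `j ≤ p`, `j ≠ J c`: if `g j = inr c'`: `ρ.farU c' c` (`c ≠ c₀`) and `Far.nbhd`, `q + s ≤ q₁ + 1`; if `g j = inl c'` then `c' ≠ c` since `g` is injective on `{0..p}` (`hinj`), `ρ.farC c' c`. -/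
theorem case_path {V : Type} {G : SimpleGraph V} {ι : Type} [DecidableEq ι] {S q₁ : ℕ}
    (ρ : RowSys G ι S q₁) {q s : ℕ} (hs : s ≤ S) (hq₁ : q + S ≤ q₁)
    (hqs : q ≤ s) (p : ℕ) (g : ℕ → ι ⊕ ι)
    (hg : ∀ j < p, ρ.Close s (g j) (g (j + 1)))
    (hinj : ∀ i j, i < j → j ≤ p → g i ≠ g j)
    (hng : ∀ i j, i + 2 ≤ j → j ≤ p → ¬ ρ.Close (10 * s) (g i) (g j))
    (D : Finset ι) (hD : ∀ c ∈ D, c ≠ ρ.c₀ ∧ ∃ j ≤ p, g j = Sum.inl c) :
    Linear G q S ρ.X ρ.Col (nbhd G S ρ.All) D := by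
  classical
  have hconn : ∀ e, Conn G (ρ.el e) := by
    rintro (c | c)
    · exact ρ.connX c
    · exact ρ.connU c
  have hF : ∀ j, ∃ F : Set V, Conn G F ∧ ρ.el (g j) ⊆ F ∧ F ⊆ nbhd G s (ρ.el (g j)) ∧
      (j < p → (F ∩ ρ.el (g (j + 1))).Nonempty) := by
    intro j
    by_cases hj : j < p
    · obtain ⟨x, hx, y, hy, w, hw⟩ := hg j hj
      refine ⟨ρ.el (g j) ∪ {z | z ∈ w.support},
        Conn.union (hconn _) (conn_support w) hx w.start_mem_support,
        Set.subset_union_left, ?_, fun _ => ⟨y, Or.inr w.end_mem_support, hy⟩⟩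
      rintro z (hz | hz)
      · exact subset_nbhd s _ hz
      · exact ⟨x, hx, w.takeUntil z hz, (w.length_takeUntil_le_length hz).trans hw⟩
    · exact ⟨ρ.el (g j), hconn _, subset_rfl, subset_nbhd s _, fun h => absurd h hj⟩
  choose F hF1 hF2 hF3 hF4 using hF
  have hJ : ∀ c, ∃ j, c ∈ D → j ≤ p ∧ g j = Sum.inl c := by
    intro c
    by_cases hc : c ∈ D
    · obtain ⟨j, h1, h2⟩ := (hD c hc).2
      exact ⟨j, fun _ => ⟨h1, h2⟩⟩
    · exact ⟨0, fun h => absurd h hc⟩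
  choose J hJ using hJ
  have hfar : ∀ j (A : Set V), Far G (q₁ + 1) (ρ.el (g j)) A → Far G q (F j) A := by
    intro j A hA
    have h1 : Far G (q + s + 0) (ρ.el (g j)) A :=
      hA.mono (by omega) subset_rfl subset_rfl
    exact h1.nbhd.mono le_rfl (hF3 j) (subset_nbhd 0 A)
  have hne1 : ∀ c ∈ D, ∀ c' ∈ D, c ≠ c' → J c ≠ J c' := by
    intro c hc c' hc' hcc h
    have h1 := (hJ c hc).2
    rw [h, (hJ c' hc').2] at h1
    exact hcc (Sum.inl_injective h1).symm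
  have hne2 : ∀ c ∈ D, ∀ c' ∈ D, c ≠ c' → J c' ≠ J c + 1 := by
    intro c hc c' hc' hcc h
    have h1 := hg (J c) (by
      have := (hJ c' hc').1
      omega)
    rw [← h, (hJ c hc).2, (hJ c' hc').2] at h1
    obtain ⟨x, hx, y, hy, w, hw⟩ := h1
    have := ρ.farX c c' hcc x hx y hy w
    omega
  refine ⟨p, F, J, fun j _ => ⟨hF1 j, (hF3 j).trans (nbhd_mono hs fun z hz => ⟨g j, hz⟩)⟩,
    fun j hj => ?_, fun i j hij hj => ?_, fun c hc => ⟨(hJ c hc).1, ?_, ?_⟩,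
    fun c hc c' hc' hcc => ?_, fun c hc j hj hjc => ?_⟩
  · obtain ⟨y, h1, h2⟩ := hF4 j hj
    exact ⟨y, h1, hF2 (j + 1) h2⟩
  · have h1 : Far G (10 * s + 1) (ρ.el (g i)) (ρ.el (g j)) := by
      rw [far_succ_iff]
      intro x hx y hy h
      exact hng i j hij hj ⟨x, hx, y, hy, h⟩
    have h2 : Far G (q + s + s) (ρ.el (g i)) (ρ.el (g j)) :=
      h1.mono (by omega) subset_rfl subset_rfl
    exact h2.nbhd.mono le_rfl (hF3 i) (hF3 j)
  · have h1 := hF2 (J c)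
    rw [(hJ c hc).2] at h1
    exact h1
  · have h1 := hF3 (J c)
    rw [(hJ c hc).2] at h1
    exact h1.trans (nbhd_mono hs subset_rfl)
  · have h1 := hne1 c hc c' hc' hcc
    have h2 := hne2 c hc c' hc' hcc
    have h3 := hne2 c' hc' c hc hcc.symm
    omega
  · refine hfar j _ ?_
    rcases hgj : g j with c' | c'
    · refine ρ.farC c' c ?_
      rintro rfl
      have h1 := (hJ c' hc).2
      rcases Nat.lt_or_gt_of_ne hjc with h | h
      · exact hinj j (J c') h (hJ c' hc).1 (hgj.trans h1.symm)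
      · exact hinj (J c') j h hj (h1.trans hgj.symm)
    · exact ρ.farU c' c (hD c hc).1

end Pool.Agent.MP_fd1949_P
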