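import Mathlib
import Pool.Agent.Lib.MP_fd1949_P.Struct

/-!
# Row lemma, case (iv): a long run of units
-/

namespace Pool.Agent.MP_fd1949_P

open Pool.Agent.MP_fd1949_co

private theorem CaseRun_Z {V : Type} {G : SimpleGraph V} {ι : Type} [DecidableEq ι] {S q₁ : ℕ}
    (ρ : RowSys G ι S q₁) {s : ℕ} (g : ℕ → ι) (p : ℕ)
    (hg : ∀ i < p, ρ.Close s (Sum.inr (g i)) (Sum.inr (g (i + 1)))) :
    ∃ Z : Set V, Conn G Z ∧ (∀ i ≤ p, ρ.u (g i) ⊆ Z) ∧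
      ∀ z ∈ Z, ∃ i ≤ p, z ∈ nbhd G s (ρ.u (g i)) := by
  induction p with
  | zero =>
    refine ⟨ρ.u (g 0), ρ.connU _, fun i hi => ?_, fun z hz => ⟨0, le_rfl, subset_nbhd s _ hz⟩⟩
    rw [Nat.le_zero.1 hi]
  | succ p ih =>
    obtain ⟨Z, hZ, hu, hn⟩ := ih fun i hi => hg i (by omega)
    obtain ⟨x, hx, y, hy, hxy⟩ := hg p (by omega)
    have hx' : x ∈ ρ.u (g p) := hx
    have hy' : y ∈ ρ.u (g (p + 1)) := hy
    obtain ⟨w, -, hw⟩ := hxy.exists_walk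
    refine ⟨(Z ∪ {z | z ∈ w.support}) ∪ ρ.u (g (p + 1)), ?_, ?_, ?_⟩
    · refine (hZ.union (conn_support w) (hu p le_rfl hx') w.start_mem_support).union
        (ρ.connU _) (z := y) (Or.inr w.end_mem_support) hy'
    · intro i hi z hz
      rcases Nat.le_or_eq_of_le_succ hi with h | h
      · exact Or.inl (Or.inl (hu i h hz))
      · rw [h] at hz
        exact Or.inr hz
    · rintro z ((hz | hz) | hz)
      · obtain ⟨i, hi, h⟩ := hn z hz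
        exact ⟨i, by omega, h⟩
      · exact ⟨p, by omega, x, hx', (hw z hz).1⟩
      · exact ⟨p + 1, le_rfl, subset_nbhd s _ hz⟩

/-- Row lemma, case (iv).
PROOF. `Z` = the union of the `ρ.u (g i)`, `i ≤ p`, and the supports of walks `w i` of length `≤
s` from a point of `ρ.u (g i)` to a point of `ρ.u (g (i+1))`, `i < p`; `A c = ρ.X c`. `Z` is
connected (induction on `p`, `Conn.union`) and contained in `nbhd G s` of the union of the `ρ.u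
(g i)`, so it is
`Far G q` from `ρ.Col c` for `c ≠ c₀` (`ρ.farU`, `Far.nbhd`, `q + s ≤ q₁ + 1`). For `c ∈ D`, `c =
g i`: `Z ∪ ρ.X c` is connected because `ρ.u (g i)` meets `ρ.X (g i)`. `Far G q (ρ.X c) (Col c')`:
`ρ.farC`. -/
theorem case_run {V : Type} {G : SimpleGraph V} {ι : Type} [DecidableEq ι] {S q₁ : ℕ}
    (ρ : RowSys G ι S q₁) {q s : ℕ} (hs : s ≤ S) (hq₁ : q + S ≤ q₁)
    (p : ℕ) (g : ℕ → ι) (hg : ∀ i < p, ρ.Close s (Sum.inr (g i)) (Sum.inr (g (i + 1))))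
    (D : Finset ι) (hD : ∀ c ∈ D, c ≠ ρ.c₀ ∧ ∃ i ≤ p, c = g i) :
    Free G q ρ.x ρ.Col (nbhd G S ρ.All) D := by
  obtain ⟨Z, hZ, hu, hn⟩ := CaseRun_Z ρ g p hg
  have hX : ∀ c, ρ.X c ⊆ nbhd G S ρ.All := fun c z hz =>
    subset_nbhd S _ (⟨Sum.inl c, hz⟩ : z ∈ ρ.All)
  refine ⟨Z, ρ.X, ?_, hZ, ?_, ?_, ?_⟩
  · obtain ⟨z, hz⟩ := ρ.meet (g 0)
    exact ⟨z, hu 0 (Nat.zero_le _) hz.1⟩
  · intro z hz
    obtain ⟨i, -, h⟩ := hn z hz
    exact nbhd_mono hs (fun y hy => (⟨Sum.inr (g i), hy⟩ : y ∈ ρ.All)) h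
  · intro c hc
    obtain ⟨hc0, i, hi, rfl⟩ := hD c hc
    obtain ⟨z, hz⟩ := ρ.meet (g i)
    refine ⟨hZ.union (ρ.connX _) (hu i hi hz.1) hz.2, ρ.memX _, hX _, ?_⟩
    intro z hz y hy
    obtain ⟨j, -, hj⟩ := hn z hz
    have h1 : Far G (q + s + 0) (ρ.u (g j)) (ρ.Col (g i)) :=
      (ρ.farU (g j) (g i) hc0).mono (by omega) (fun _ h => h) (fun _ h => h)
    exact h1.nbhd z hj y (subset_nbhd 0 _ hy)
  · intro c _ c' _ hcc
    exact (ρ.farC c c' hcc).mono (by omega) (fun _ h => h) (fun _ h => h)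

end Pool.Agent.MP_fd1949_P
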