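import Mathlib
import Pool.Agent.Lib.MP_fd1949_P.Struct

/-!
# Row lemma, case (ii): an element close to many units
-/

namespace Pool.Agent.MP_fd1949_P

open Pool.Agent.MP_fd1949_co

/-- Row lemma, case (ii).
PROOF. `Z = ρ.el e` (nonempty: `ρ.memX` or `ρ.meet`; connected), `A c = {z | z ∈ w.support} ∪ ρ.u c ∪ ρ.X c` for a walk `w` of length `≤ s` from a point of `ρ.el e` to a point of `ρ.u c` (its points are within `s` of `ρ.u c`).
`Z ∪ A c` connected (`Conn.union`, `ρ.meet c`). `Far G q Z (Col c)`: if `e = inl c'` then `c ≠ c'` by `hD` and `ρ.farC c' c`; if `e = inr c'`: `ρ.farU c' c`, `c ≠ c₀`. `Far G q (A c) (Col c')` for `c ≠ c'` in `D`: the walk is in `nbhd G s (ρ.u c)`, `ρ.farU c c'` (`c' ≠ c₀`) and `Far.nbhd`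
with `q + s ≤ q₁ + 1`; `ρ.u c`: `ρ.farU`; `ρ.X c`: `ρ.farC`. -/
theorem case_unit {V : Type} {G : SimpleGraph V} {ι : Type} [DecidableEq ι] {S q₁ : ℕ}
    (ρ : RowSys G ι S q₁) {q s : ℕ} (hs : s ≤ S) (hq₁ : q + S ≤ q₁)
    (e : ι ⊕ ι) (D : Finset ι)
    (hD : ∀ c ∈ D, c ≠ ρ.c₀ ∧ e ≠ Sum.inl c ∧ ρ.Close s e (Sum.inr c)) :
    Free G q ρ.x ρ.Col (nbhd G S ρ.All) D := by
  have hB : ∀ c, ∃ B : Set V, c ∈ D → ∃ x ∈ ρ.el e, ∃ y ∈ ρ.u c, Conn G B ∧ x ∈ B ∧ y ∈ B ∧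
      B ⊆ nbhd G s (ρ.u c) := by
    intro c
    by_cases hc : c ∈ D
    · obtain ⟨x, hx, y, hy, hxy⟩ := (hD c hc).2.2
      obtain ⟨w, -, hw⟩ := hxy.exists_walk
      exact ⟨{z | z ∈ w.support}, fun _ => ⟨x, hx, y, hy, conn_support w,
        w.start_mem_support, w.end_mem_support, fun z hz => ⟨y, hy, (hw z hz).2.symm⟩⟩⟩
    · exact ⟨∅, fun h => absurd h hc⟩
  choose B hB using hB
  have hne : (ρ.el e).Nonempty := by
    rcases e with c' | c'
    · exact ⟨_, ρ.memX c'⟩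
    · obtain ⟨p, hp, -⟩ := ρ.meet c'
      exact ⟨p, hp⟩
  have hconn : Conn G (ρ.el e) := by
    rcases e with c' | c'
    · exact ρ.connX c'
    · exact ρ.connU c'
  have hsub : ∀ e', ρ.el e' ⊆ nbhd G S ρ.All := fun e' z hz =>
    subset_nbhd S _ ⟨e', hz⟩
  refine ⟨ρ.el e, fun c => B c ∪ ρ.u c ∪ ρ.X c, hne, hconn, hsub e, fun c hc => ?_,
    fun c hc c' hc' hcc => ?_⟩
  · obtain ⟨x, hx, y, hy, h1, h2, h3, h4⟩ := hB c hc
    obtain ⟨p, hp1, hp2⟩ := ρ.meet c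
    refine ⟨?_, Or.inr (ρ.memX c), ?_, ?_⟩
    · rw [← Set.union_assoc, ← Set.union_assoc]
      exact ((hconn.union h1 hx h2).union (ρ.connU c) (Or.inr h3) hy).union (ρ.connX c)
        (Or.inr hp1) hp2
    · rintro z ((hz | hz) | hz)
      · exact nbhd_mono (B := ρ.All) hs (fun v (hv : v ∈ ρ.u c) => ⟨Sum.inr c, hv⟩) (h4 hz)
      · exact hsub (Sum.inr c) hz
      · exact hsub (Sum.inl c) hz
    · rcases e with c' | c'
      · have h5 : c' ≠ c := fun h => (hD c hc).2.1 (by rw [h])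
        exact (ρ.farC c' c h5).mono (by omega) (fun _ h => h) (fun _ h => h)
      · exact (ρ.farU c' c (hD c hc).1).mono (by omega) (fun _ h => h) (fun _ h => h)
  · obtain ⟨x, hx, y, hy, h1, h2, h3, h4⟩ := hB c hc
    have h5 : Far G (q + s + 0) (ρ.u c) (ρ.Col c') :=
      (ρ.farU c c' (hD c' hc').1).mono (by omega) (fun _ h => h) (fun _ h => h)
    have h6 : Far G q (B c) (ρ.Col c') := h5.nbhd.mono le_rfl h4 (subset_nbhd 0 _)
    have h7 : Far G q (ρ.X c) (ρ.Col c') :=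
      (ρ.farC c c' hcc).mono (by omega) (fun _ h => h) (fun _ h => h)
    have h8 : Far G q (ρ.u c) (ρ.Col c') := h5.mono (by omega) (fun _ h => h) (fun _ h => h)
    rintro z ((hz | hz) | hz)
    · exact h6 z hz
    · exact h8 z hz
    · exact h7 z hz

end Pool.Agent.MP_fd1949_P
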