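import Mathlib
import Pool.Agent.Lib.MP_fd1949_P.Struct

/-!
# Pigeonhole for scales
-/

namespace Pool.Agent.MP_fd1949_P

open Pool.Agent.MP_fd1949_co

/-- PROOF. Let `A j = {e : E × E | P (q * 10 ^ j) e.1 e.2}`, an increasing sequence of subsets of `E × E`, which has `(Nat.card E) ^ 2` elements. If `A j ≠ A (j+1)` for all `j ≤ (Nat.card E) ^ 2` then
`(A j).ncard ≥ j` for all `j ≤ (Nat.card E) ^ 2 + 1` (induction, `Set.ncard_lt_ncard`), contradiction at `j = (Nat.card E) ^ 2 + 1`. -/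
theorem scale {E : Type} [Finite E] (P : ℕ → E → E → Prop)
    (mono : ∀ s s', s ≤ s' → ∀ e e', P s e e' → P s' e e') (q : ℕ) :
    ∃ j ≤ (Nat.card E) ^ 2, ∀ e e', P (q * 10 ^ (j + 1)) e e' → P (q * 10 ^ j) e e' := by
  by_contra hcon
  push Not at hcon
  set A : ℕ → Set (E × E) := fun j => {e | P (q * 10 ^ j) e.1 e.2} with hA
  have hlt : ∀ j ≤ Nat.card E ^ 2, A j ⊂ A (j + 1) := by
    intro j hj
    obtain ⟨e, e', h1, h2⟩ := hcon j hj
    refine ⟨fun p hp => mono _ _ ?_ _ _ hp, fun h => h2 (h (show (e, e') ∈ A (j + 1) from h1))⟩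
    exact Nat.mul_le_mul_left _ (Nat.pow_le_pow_right (by norm_num) (by omega))
  have hge : ∀ j ≤ Nat.card E ^ 2 + 1, j ≤ (A j).ncard := by
    intro j
    induction j with
    | zero => intro _; exact Nat.zero_le _
    | succ j ih =>
      intro hj
      have h1 := ih (by omega)
      have h2 := Set.ncard_lt_ncard (hlt j (by omega)) (Set.toFinite _)
      omega
  have h1 := hge _ le_rfl
  have h2 : (A (Nat.card E ^ 2 + 1)).ncard ≤ Nat.card (E × E) := by
    have h3 := Set.ncard_le_ncard (Set.subset_univ (A (Nat.card E ^ 2 + 1))) Set.finite_univ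
    rwa [Set.ncard_univ] at h3
  rw [Nat.card_prod] at h2
  nlinarith

end Pool.Agent.MP_fd1949_P
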