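import Mathlib
import Pool.Agent.Lib.MP_fd1949_P.Struct
import Pool.Agent.Lib.MP_fd1949_P.Bfs
import Pool.Agent.Lib.MP_fd1949_P.Scale
import Pool.Agent.Lib.MP_fd1949_P.CaseBall
import Pool.Agent.Lib.MP_fd1949_P.CaseUnit
import Pool.Agent.Lib.MP_fd1949_P.CaseRun
import Pool.Agent.Lib.MP_fd1949_P.CasePath

/-!
# The abstract row lemma
-/

namespace Pool.Agent.MP_fd1949_P

open Pool.Agent.MP_fd1949_co

private theorem rowA_symm {V : Type} {G : SimpleGraph V} {ι : Type} {S q₁ : ℕ}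
    (ρ : RowSys G ι S q₁) {s : ℕ} {e e' : ι ⊕ ι} (h : ρ.Close s e e') : ρ.Close s e' e := by
  obtain ⟨x, hx, y, hy, hn⟩ := h
  exact ⟨y, hy, x, hx, hn.symm⟩

private theorem rowA_mono {V : Type} {G : SimpleGraph V} {ι : Type} {S q₁ : ℕ}
    (ρ : RowSys G ι S q₁) (s s' : ℕ) (hs : s ≤ s') (e e' : ι ⊕ ι) (h : ρ.Close s e e') :
    ρ.Close s' e e' := by
  obtain ⟨x, hx, y, hy, hn⟩ := h
  exact ⟨x, hx, y, hy, hn.mono hs⟩

private theorem rowA_far {V : Type} {G : SimpleGraph V} {ι : Type} {S q₁ : ℕ}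
    (ρ : RowSys G ι S q₁) {s : ℕ} (hs : s ≤ S) {c c' : ι} (hc : c ≠ c')
    (h : ρ.Close s (Sum.inl c) (Sum.inl c')) : False := by
  obtain ⟨x, hx, y, hy, hn⟩ := h
  exact (ρ.farX c c' hc).not_near (m := s) (by omega) hx hy hn

private theorem rowA_common {V : Type} {G : SimpleGraph V} {ι : Type} {S q₁ : ℕ}
    (ρ : RowSys G ι S q₁) (s : ℕ) {c c' : ι} (h : (ρ.u c ∩ ρ.X c').Nonempty) :
    ρ.Close s (Sum.inr c) (Sum.inl c') := by
  obtain ⟨z, h1, h2⟩ := h
  exact ⟨z, h1, z, h2, NearN.refl s z⟩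

/-- The graph of close elements. -/
private def rowAGraph {V : Type} {G : SimpleGraph V} {ι : Type} {S q₁ : ℕ}
    (ρ : RowSys G ι S q₁) (s : ℕ) : SimpleGraph (ι ⊕ ι) where
  Adj e e' := e ≠ e' ∧ ρ.Close s e e'
  symm := ⟨fun _ _ h => ⟨h.1.symm, rowA_symm ρ h.2⟩⟩
  loopless := ⟨fun _ h => h.1 rfl⟩

private theorem rowA_conn {V : Type} {G : SimpleGraph V} {ι : Type} {S q₁ : ℕ}
    (ρ : RowSys G ι S q₁) (s : ℕ) : (rowAGraph ρ s).Connected := by
  have hur : ∀ c c', (ρ.u c ∩ ρ.X c').Nonempty →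
      (rowAGraph ρ s).Adj (Sum.inr c) (Sum.inl c') := fun c c' h =>
    ⟨by simp, rowA_common ρ s h⟩
  have key : ∀ k : ℕ, ∀ c, ρ.rk c ≤ k → (rowAGraph ρ s).Reachable (Sum.inl ρ.c₀) (Sum.inl c) ∧
      (rowAGraph ρ s).Reachable (Sum.inl ρ.c₀) (Sum.inr c) := by
    intro k
    induction k using Nat.strong_induction_on with
    | _ k ih =>
      intro c hc
      by_cases h0 : c = ρ.c₀
      · subst h0
        exact ⟨SimpleGraph.Reachable.refl _, (hur _ _ (ρ.meet _)).symm.reachable⟩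
      · obtain ⟨c', h1, h2⟩ := ρ.link c h0
        obtain ⟨h3, -⟩ := ih (ρ.rk c') (by omega) c' le_rfl
        have h4 := h3.trans (hur _ _ h2).symm.reachable
        exact ⟨h4.trans (hur _ _ (ρ.meet c)).reachable, h4⟩
  have key' : ∀ e, (rowAGraph ρ s).Reachable (Sum.inl ρ.c₀) e := by
    rintro (c | c)
    · exact (key _ c le_rfl).1
    · exact (key _ c le_rfl).2
  have : Nonempty (ι ⊕ ι) := ⟨Sum.inl ρ.c₀⟩
  exact ⟨fun a b => (key' a).symm.trans (key' b)⟩

private theorem rowA_deg {V : Type} {G : SimpleGraph V} {ι : Type} [DecidableEq ι] {S q₁ : ℕ}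
    (ρ : RowSys G ι S q₁) {q s n : ℕ} (hs : s ≤ S) (hq₁ : q + S ≤ q₁) {e : ι ⊕ ι}
    {T : Finset (ι ⊕ ι)} (hT : 2 * n + 4 ≤ T.card) (hadj : ∀ x ∈ T, (rowAGraph ρ s).Adj e x) :
    ∃ D : Finset ι, n ≤ D.card ∧ Free G q ρ.x ρ.Col (nbhd G S ρ.All) D := by
  have h1 := Finset.card_toLeft_add_card_toRight (u := T)
  rcases le_or_gt (n + 2) T.toLeft.card with h2 | h2
  · obtain ⟨c', rfl⟩ : ∃ c', e = Sum.inr c' := by
      rcases e with c | c'
      · exfalso
        obtain ⟨d, hd⟩ : T.toLeft.Nonempty := by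
          rw [← Finset.card_pos]
          omega
        have h3 := hadj _ (Finset.mem_toLeft.1 hd)
        exact rowA_far ρ hs (fun h => h3.1 (by rw [h])) h3.2
      · exact ⟨c', rfl⟩
    refine ⟨T.toLeft.erase ρ.c₀, ?_, case_ball ρ hs hq₁ c' _ ?_⟩
    · have := Finset.pred_card_le_card_erase (s := T.toLeft) (a := ρ.c₀)
      omega
    · intro c hc
      rw [Finset.mem_erase, Finset.mem_toLeft] at hc
      exact ⟨hc.1, (hadj _ hc.2).2⟩
  · have h3 : n + 2 ≤ T.toRight.card := by omega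
    rcases e with c' | c'
    · refine ⟨(T.toRight.erase ρ.c₀).erase c', ?_, case_unit ρ hs hq₁ (Sum.inl c') _ ?_⟩
      · have h4 := Finset.pred_card_le_card_erase (s := T.toRight) (a := ρ.c₀)
        have h5 := Finset.pred_card_le_card_erase (s := T.toRight.erase ρ.c₀) (a := c')
        omega
      · intro c hc
        rw [Finset.mem_erase, Finset.mem_erase, Finset.mem_toRight] at hc
        exact ⟨hc.2.1, fun h => hc.1 (Sum.inl.inj h).symm, (hadj _ hc.2.2).2⟩
    · refine ⟨T.toRight.erase ρ.c₀, ?_, case_unit ρ hs hq₁ (Sum.inr c') _ ?_⟩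
      · have h4 := Finset.pred_card_le_card_erase (s := T.toRight) (a := ρ.c₀)
        omega
      · intro c hc
        rw [Finset.mem_erase, Finset.mem_toRight] at hc
        exact ⟨hc.1, by simp, (hadj _ hc.2).2⟩

private theorem rowA_block {ι : Type} [Finite ι] [DecidableEq ι] {n : ℕ} {g : ℕ → ι ⊕ ι}
    (hinj : ∀ i j, i < j → j ≤ (n + 1) * (n + 2) → g i ≠ g j) {c₀ : ι} {D' : Finset ι}
    (hD' : ∀ c, c ≠ c₀ → ∀ i ≤ (n + 1) * (n + 2), g i = Sum.inl c → c ∈ D')
    (hcard : D'.card < n) :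
    ∃ b ≤ n, ∀ i ≤ n + 1, ∃ c, g (b * (n + 2) + i) = Sum.inr c := by
  by_contra hcon
  push Not at hcon
  have h1 : ∀ b, ∃ i c, b ≤ n → i ≤ n + 1 ∧ g (b * (n + 2) + i) = Sum.inl c := by
    intro b
    by_cases hb : b ≤ n
    · obtain ⟨i, hi, h⟩ := hcon b hb
      rcases hg : g (b * (n + 2) + i) with c | c
      · exact ⟨i, c, fun _ => ⟨hi, hg⟩⟩
      · exact absurd hg (h c)
    · exact ⟨0, c₀, fun h => absurd h hb⟩
  choose i c hic using h1
  have hlt : ∀ b b', b < b' → b' ≤ n → b * (n + 2) + i b < b' * (n + 2) + i b' ∧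
      b' * (n + 2) + i b' ≤ (n + 1) * (n + 2) := by
    intro b b' hb hb'
    have h2 := (hic b (by omega)).1
    have h3 := (hic b' hb').1
    constructor
    · have : (b + 1) * (n + 2) ≤ b' * (n + 2) := Nat.mul_le_mul_right _ hb
      have h4 : (b + 1) * (n + 2) = b * (n + 2) + (n + 2) := by ring
      omega
    · have : b' * (n + 2) ≤ n * (n + 2) := Nat.mul_le_mul_right _ hb'
      have h4 : (n + 1) * (n + 2) = n * (n + 2) + (n + 2) := by ring
      omega
  have hle : ∀ b ≤ n, b * (n + 2) + i b ≤ (n + 1) * (n + 2) := by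
    intro b hb
    have h3 := (hic b hb).1
    have : b * (n + 2) ≤ n * (n + 2) := Nat.mul_le_mul_right _ hb
    have h4 : (n + 1) * (n + 2) = n * (n + 2) + (n + 2) := by ring
    omega
  have hci : Set.InjOn c (Finset.range (n + 1)) := by
    intro b hb b' hb' h
    rw [Finset.coe_range, Set.mem_Iio] at hb hb'
    have hb1 : b ≤ n := by omega
    have hb1' : b' ≤ n := by omega
    have h2 := (hic b hb1).2
    have h3 := (hic b' hb1').2
    have h4 : g (b * (n + 2) + i b) = g (b' * (n + 2) + i b') := by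
      rw [h2, h3, h]
    rcases lt_trichotomy b b' with h5 | h5 | h5
    · exact absurd h4 (hinj _ _ (hlt b b' h5 hb1').1 (hlt b b' h5 hb1').2)
    · exact h5
    · exact absurd h4.symm (hinj _ _ (hlt b' b h5 hb1).1 (hlt b' b h5 hb1).2)
  have h5 : ((Finset.range (n + 1)).image c).card = n + 1 := by
    rw [Finset.card_image_of_injOn hci, Finset.card_range]
  have h6 : (Finset.range (n + 1)).image c ⊆ insert c₀ D' := by
    intro d hd
    rw [Finset.mem_image] at hd
    obtain ⟨b, hb, rfl⟩ := hd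
    rw [Finset.mem_range] at hb
    rw [Finset.mem_insert]
    by_cases h7 : c b = c₀
    · exact Or.inl h7
    · exact Or.inr (hD' _ h7 _ (hle b (by omega)) (hic b (by omega)).2)
  have h7 := Finset.card_le_card h6
  have h8 := Finset.card_insert_le c₀ D'
  omega

private theorem rowA_path {V : Type} {G : SimpleGraph V} {ι : Type} [Finite ι] [DecidableEq ι]
    {S q₁ : ℕ} (ρ : RowSys G ι S q₁) {q s n : ℕ} (hs : s ≤ S) (hq₁ : q + S ≤ q₁) (hqs : q ≤ s)
    (h10 : ∀ e e', ρ.Close (10 * s) e e' → ρ.Close s e e') {g : ℕ → ι ⊕ ι}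
    (hadj : ∀ i < (n + 1) * (n + 2), (rowAGraph ρ s).Adj (g i) (g (i + 1)))
    (hno : ∀ i j, i + 2 ≤ j → j ≤ (n + 1) * (n + 2) →
      ¬ (rowAGraph ρ s).Adj (g i) (g j) ∧ g i ≠ g j) :
    ∃ D : Finset ι, n ≤ D.card ∧ (Free G q ρ.x ρ.Col (nbhd G S ρ.All) D ∨
      Linear G q S ρ.X ρ.Col (nbhd G S ρ.All) D) := by
  classical
  have : Fintype ι := Fintype.ofFinite ι
  have hinj : ∀ i j, i < j → j ≤ (n + 1) * (n + 2) → g i ≠ g j := by
    intro i j hij hj
    rcases (by omega : j = i + 1 ∨ i + 2 ≤ j) with h | h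
    · subst h
      exact (hadj i (by omega)).1
    · exact (hno i j h hj).2
  obtain ⟨D', hD'⟩ : ∃ D' : Finset ι, D' = Finset.univ.filter
      (fun c => c ≠ ρ.c₀ ∧ ∃ i ≤ (n + 1) * (n + 2), g i = Sum.inl c) := ⟨_, rfl⟩
  rcases le_or_gt n D'.card with h1 | h1
  · refine ⟨D', h1, Or.inr ?_⟩
    refine case_path ρ hs hq₁ hqs ((n + 1) * (n + 2)) g (fun j hj => (hadj j hj).2) hinj ?_ D' ?_
    · intro i j hij hj hcl
      exact (hno i j hij hj).1 ⟨(hno i j hij hj).2, h10 _ _ hcl⟩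
    · intro c hc
      rw [hD', Finset.mem_filter] at hc
      exact hc.2
  · obtain ⟨b, hb, hblock⟩ := rowA_block hinj (c₀ := ρ.c₀) (D' := D') (by
      intro c hc i hi h
      rw [hD', Finset.mem_filter]
      exact ⟨Finset.mem_univ _, hc, i, hi, h⟩) h1
    have h2 : ∀ i, ∃ c, i ≤ n + 1 → g (b * (n + 2) + i) = Sum.inr c := by
      intro i
      by_cases hi : i ≤ n + 1
      · obtain ⟨c, hc⟩ := hblock i hi
        exact ⟨c, fun _ => hc⟩
      · exact ⟨ρ.c₀, fun h => absurd h hi⟩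
    choose g' hg' using h2
    have hbn : b * (n + 2) + (n + 2) ≤ (n + 1) * (n + 2) := by
      have : (b + 1) * (n + 2) ≤ (n + 1) * (n + 2) := Nat.mul_le_mul_right _ (by omega)
      have h4 : (b + 1) * (n + 2) = b * (n + 2) + (n + 2) := by ring
      omega
    have hi' : Set.InjOn g' (Finset.range (n + 2)) := by
      intro i hi j hj h
      rw [Finset.coe_range, Set.mem_Iio] at hi hj
      have h3 := hg' i (by omega)
      have h4 := hg' j (by omega)
      have h5 : g (b * (n + 2) + i) = g (b * (n + 2) + j) := by rw [h3, h4, h]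
      rcases lt_trichotomy i j with h6 | h6 | h6
      · exact absurd h5 (hinj _ _ (by omega) (by omega))
      · exact h6
      · exact absurd h5.symm (hinj _ _ (by omega) (by omega))
    refine ⟨((Finset.range (n + 2)).image g').erase ρ.c₀, ?_, Or.inl ?_⟩
    · have h3 := Finset.pred_card_le_card_erase (s := (Finset.range (n + 2)).image g')
        (a := ρ.c₀)
      rw [Finset.card_image_of_injOn hi', Finset.card_range] at h3
      omega
    · refine case_run ρ hs hq₁ (n + 1) g' ?_ _ ?_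
      · intro i hi
        rw [← hg' i (by omega), ← hg' (i + 1) (by omega), ← add_assoc]
        exact (hadj _ (by omega)).2
      · intro c hc
        rw [Finset.mem_erase, Finset.mem_image] at hc
        obtain ⟨h3, i, hi, h4⟩ := hc
        rw [Finset.mem_range] at hi
        exact ⟨h3, i, by omega, h4.symm⟩

/-- The abstract row lemma (4.2).
PROOF. `N₁` = the number of `deg_or_path (2 * n + 4) ((n + 1) * (n + 2))` (take also `N₁ ≥ 1`). `E = ι ⊕ ι`, `Nat.card E = 2 * Nat.card ι ≥ N₁`. By `scale` (for `ρ.Close`, which is monotone in the scale) there is `j ≤ (2 * Nat.card ι) ^ 2` such that with `s = q * 10 ^ j` (`q ≤ s`, `10 * s ≤ S` by `hS`) `Close (10 * s)` implies `Close s`.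
`Λ`: the graph on `E` with `e ~ e'` iff `e ≠ e'` and `Close s e e'` (symmetric by `NearN.symm`). Connected: `inr c ~ inl c` (they meet, `ρ.meet`), and `inr c ~ inl c'` for some `c'` with smaller rank if `c ≠ c₀` (`ρ.link`): induction on `rk` shows that everything is joined to `inl c₀`. Two different `inl c`, `inl c'` are never adjacent
(`ρ.farX`, `s ≤ S`). Apply `deg_or_path`.
(1) Vertex `e` with `2 n + 4` neighbours: (a) at least `n + 2` neighbours are `inl c`; then `e` is some `inr c'` (`n + 2 ≥ 1`); `case_ball` with `D` = these `c` without `c₀`. (b) at least `n + 2` neighbours are `inr c`: `case_unit` with `D` = these `c` without `c₀` and without the `c'` with `e = inl c'`.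
(2) Induced path `g 0, ..., g p`, `p = (n+1)(n+2)`, non consecutive ones are not adjacent and different, so not `Close s`, so not `Close (10 s)`; consecutive ones are different as `Λ` is irreflexive. Let `D'` be the set of the `c ≠ c₀` such that `inl c` is on the path. If it has at least `n` elements: `case_path`.
Otherwise at most `n` indices `i ≤ p` are balls (`n - 1` and perhaps `c₀`; `g` is injective), so among the `n + 1` disjoint blocks of `n + 2` consecutive indices inside `{0..p}` one has no ball: `n + 2` consecutive units `inr (g' i)`: `case_run` with `D` = the `g' i` (pairwise different) without `c₀`. -/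
theorem rowA (n : ℕ) : ∃ N₁ : ℕ, ∀ (V : Type) (G : SimpleGraph V) (ι : Type) [Finite ι]
    [DecidableEq ι] (q S q₁ : ℕ), N₁ ≤ Nat.card ι → 1 ≤ q →
    q * 10 ^ ((2 * Nat.card ι) ^ 2 + 1) ≤ S → q + S ≤ q₁ → ∀ ρ : RowSys G ι S q₁,
    ∃ D : Finset ι, n ≤ D.card ∧ (Free G q ρ.x ρ.Col (nbhd G S ρ.All) D ∨
      Linear G q S ρ.X ρ.Col (nbhd G S ρ.All) D) := by
  obtain ⟨N, hN⟩ := deg_or_path (2 * n + 4) ((n + 1) * (n + 2))
  refine ⟨N, ?_⟩
  intro V G ι _ _ q S q₁ hcard hq hS hq₁ ρ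
  obtain ⟨j, hj, hsc⟩ := scale (E := ι ⊕ ι) ρ.Close (rowA_mono ρ) q
  have hc2 : Nat.card (ι ⊕ ι) = 2 * Nat.card ι := by
    rw [Nat.card_sum]
    ring
  rw [hc2] at hj
  have h10S : 10 * (q * 10 ^ j) ≤ S := by
    refine le_trans ?_ hS
    have h1 : 10 * (q * 10 ^ j) = q * 10 ^ (j + 1) := by ring
    rw [h1]
    exact Nat.mul_le_mul_left _ (Nat.pow_le_pow_right (by norm_num) (by omega))
  have hsS : q * 10 ^ j ≤ S := by omega
  have hqs : q ≤ q * 10 ^ j := Nat.le_mul_of_pos_right _ (by positivity)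
  rcases hN (ι ⊕ ι) (rowAGraph ρ (q * 10 ^ j)) (rowA_conn ρ _) (by rw [hc2]; omega) with
    ⟨e, T, hT, hadj⟩ | ⟨g, hadj, hno⟩
  · obtain ⟨D, h1, h2⟩ := rowA_deg ρ hsS hq₁ hT hadj
    exact ⟨D, h1, Or.inl h2⟩
  · refine rowA_path ρ hsS hq₁ hqs (fun e e' h => hsc e e' ?_) hadj hno
    have h1 : q * 10 ^ (j + 1) = 10 * (q * 10 ^ j) := by ring
    rw [h1]
    exact h

end Pool.Agent.MP_fd1949_P
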