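import Mathlib
import Pool.Agent.Lib.MP_fd1949_P.Struct

/-!
# Transport and restriction of free and linear structures
-/

namespace Pool.Agent.MP_fd1949_P

open Pool.Agent.MP_fd1949_co

variable {V : Type} {G : SimpleGraph V} {ι : Type} {q S : ℕ} {x : ι → V} {X Col : ι → Set V}
  {Nb Nb' : Set V} {D D' : Finset ι}

/-- Restriction. PROOF. The same data. -/
theorem Free.subset (hf : Free G q x Col Nb D) (hD : D' ⊆ D) (hN : Nb ⊆ Nb') :
    Free G q x Col Nb' D' := by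
  obtain ⟨Z, A, h1, h2, h3, h4, h5⟩ := hf
  refine ⟨Z, A, h1, h2, h3.trans hN, fun c hc => ?_, fun c hc c' hc' => h5 c (hD hc) c' (hD hc')⟩
  obtain ⟨g1, g2, g3, g4⟩ := h4 c (hD hc)
  exact ⟨g1, g2, g3.trans hN, g4⟩

/-- Restriction. PROOF. The same data. -/
theorem Linear.subset (hf : Linear G q S X Col Nb D) (hD : D' ⊆ D) (hN : Nb ⊆ Nb') :
    Linear G q S X Col Nb' D' := by
  obtain ⟨p, F, J, h1, h2, h3, h4, h5, h6⟩ := hf
  exact ⟨p, F, J, fun j hj => ⟨(h1 j hj).1, (h1 j hj).2.trans hN⟩, h2, h3,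
    fun c hc => h4 c (hD hc), fun c hc c' hc' => h5 c (hD hc) c' (hD hc'),
    fun c hc => h6 c (hD hc)⟩

/-- Transport along an injection. PROOF. The same `Z`, and `Function.extend φ A (fun _ => ∅)` (`Function.Injective.extend_apply`). -/
theorem Free.map {κ : Type} (φ : κ ↪ ι) {D : Finset κ} {x' : κ → V} {Col' : κ → Set V}
    (hx : ∀ c ∈ D, x (φ c) = x' c) (hC : ∀ c ∈ D, Col (φ c) = Col' c)
    (hf : Free G q x' Col' Nb D) : Free G q x Col Nb (D.map φ) := by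
  obtain ⟨Z, A, h1, h2, h3, h4, h5⟩ := hf
  have hA : ∀ c, Function.extend φ A (fun _ => ∅) (φ c) = A c :=
    fun c => φ.injective.extend_apply _ _ _
  refine ⟨Z, Function.extend φ A (fun _ => ∅), h1, h2, h3, ?_, ?_⟩
  · intro b hb
    obtain ⟨c, hc, rfl⟩ := Finset.mem_map.1 hb
    rw [hA, hx c hc, hC c hc]
    exact h4 c hc
  · intro b hb b' hb' hne
    obtain ⟨c, hc, rfl⟩ := Finset.mem_map.1 hb
    obtain ⟨c', hc', rfl⟩ := Finset.mem_map.1 hb'
    rw [hA, hC c' hc']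
    exact h5 c hc c' hc' fun h => hne (by rw [h])

/-- Transport along an injection. PROOF. The same `p`, `F`, and `Function.extend φ J (fun _ => 0)`. -/
theorem Linear.map {κ : Type} (φ : κ ↪ ι) {D : Finset κ} {X' : κ → Set V} {Col' : κ → Set V}
    (hx : ∀ c ∈ D, X (φ c) = X' c) (hC : ∀ c ∈ D, Col (φ c) = Col' c)
    (hf : Linear G q S X' Col' Nb D) : Linear G q S X Col Nb (D.map φ) := by
  obtain ⟨p, F, J, h1, h2, h3, h4, h5, h6⟩ := hf
  have hJ : ∀ c, Function.extend φ J (fun _ => 0) (φ c) = J c :=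
    fun c => φ.injective.extend_apply _ _ _
  refine ⟨p, F, Function.extend φ J (fun _ => 0), h1, h2, h3, ?_, ?_, ?_⟩
  · intro b hb
    obtain ⟨c, hc, rfl⟩ := Finset.mem_map.1 hb
    rw [hJ, hx c hc]
    exact h4 c hc
  · intro b hb b' hb' hne
    obtain ⟨c, hc, rfl⟩ := Finset.mem_map.1 hb
    obtain ⟨c', hc', rfl⟩ := Finset.mem_map.1 hb'
    rw [hJ, hJ]
    exact h5 c hc c' hc' fun h => hne (by rw [h])
  · intro b hb
    obtain ⟨c, hc, rfl⟩ := Finset.mem_map.1 hb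
    rw [hJ, hC c hc]
    exact h6 c hc

end Pool.Agent.MP_fd1949_P
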