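import Mathlib
import Pool.Agent.Lib.MP_fd1949_P.Struct
import Pool.Agent.Lib.MP_fd1949_P.MkFat

/-!
# Fat minors of minors
-/

namespace Pool.Agent.MP_fd1949_P

open Pool.Agent.MP_fd1949_co

private lemma comp_eq {W X : Type} {β : W → Set X}
    (hdisj : ∀ u v, u ≠ v → Disjoint (β u) (β v)) {u v : W} {x : X} (hu : x ∈ β u)
    (hv : x ∈ β v) : u = v := by
  by_contra h
  exact Set.disjoint_left.mp (hdisj u v h) hu hv

/-- the branch sets of the composed minor -/
private def compB {V W X : Type} (Γ : SimpleGraph X) (β : W → Set X) (B : X → Set V)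
    (P : Sym2 X → Set V) (v : W) : Set V :=
  {z | (∃ x ∈ β v, z ∈ B x) ∨ ∃ e ∈ Γ.edgeSet, (∀ x ∈ e, x ∈ β v) ∧ z ∈ P e}

private lemma comp_step {V W X : Type} {G : SimpleGraph V} {Γ : SimpleGraph X} {q : ℕ}
    {β : W → Set X} {B : X → Set V} {P : Sym2 X → Set V} (hf : IsFatMinor G Γ q B P) {v : W}
    {x : X} (hx : x ∈ β v) {z z' : V} (hz : z ∈ B x) (hz' : z' ∈ B x) :
    ∃ w : G.Walk z z', ∀ t ∈ w.support, t ∈ compB Γ β B P v := by
  obtain ⟨w, hw⟩ := conn_of_induce (hf.conn x) z hz z' hz'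
  exact ⟨w, fun t ht => Or.inl ⟨x, hx, hw t ht⟩⟩

private lemma comp_edge {V W X : Type} {G : SimpleGraph V} {Γ : SimpleGraph X} {q : ℕ}
    {β : W → Set X} {B : X → Set V} {P : Sym2 X → Set V} (hf : IsFatMinor G Γ q B P) {v : W}
    {x y : X} (hx : x ∈ β v) (hy : y ∈ β v) (hxy : Γ.Adj x y) {z z' : V} (hz : z ∈ B x)
    (hz' : z' ∈ B y) : ∃ w : G.Walk z z', ∀ t ∈ w.support, t ∈ compB Γ β B P v := by
  obtain ⟨a, ha, b, hb, p, -, hP⟩ := hf.path x y hxy
  obtain ⟨w1, h1⟩ := comp_step (β := β) hf hx hz ha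
  obtain ⟨w2, h2⟩ := comp_step (β := β) hf hy hb hz'
  refine ⟨w1.append (p.append w2), fun t ht => ?_⟩
  rcases (SimpleGraph.Walk.mem_support_append_iff _ _).1 ht with ht | ht
  · exact h1 t ht
  rcases (SimpleGraph.Walk.mem_support_append_iff _ _).1 ht with ht | ht
  · refine Or.inr ⟨s(x, y), hxy, ?_, ?_⟩
    · intro c hc
      rcases Sym2.mem_iff.mp hc with rfl | rfl
      · exact hx
      · exact hy
    · rw [hP]
      exact ht
  · exact h2 t ht

private lemma comp_walk {V W X : Type} {G : SimpleGraph V} {Γ : SimpleGraph X} {q : ℕ}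
    {β : W → Set X} {B : X → Set V} {P : Sym2 X → Set V} (hf : IsFatMinor G Γ q B P) {v : W}
    {x y : X} (w : Γ.Walk x y) (hw : ∀ t ∈ w.support, t ∈ β v) {z z' : V} (hz : z ∈ B x)
    (hz' : z' ∈ B y) : ∃ w : G.Walk z z', ∀ t ∈ w.support, t ∈ compB Γ β B P v := by
  induction w generalizing z with
  | nil => exact comp_step hf (hw _ (SimpleGraph.Walk.start_mem_support _)) hz hz'
  | @cons x c y hadj w' ih =>
    have hx : x ∈ β v := hw _ (SimpleGraph.Walk.start_mem_support _)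
    have hsup : ∀ t ∈ w'.support, t ∈ β v := fun t ht => hw t (by
      rw [SimpleGraph.Walk.support_cons]
      exact List.mem_cons_of_mem _ ht)
    have hc : c ∈ β v := hsup _ (SimpleGraph.Walk.start_mem_support _)
    obtain ⟨⟨z1, hz1⟩⟩ := (hf.conn c).nonempty
    obtain ⟨w1, h1⟩ := comp_edge (β := β) hf hx hc hadj hz hz1
    obtain ⟨w2, h2⟩ := ih hsup hz1 hz'
    refine ⟨w1.append w2, fun t ht => ?_⟩
    rcases (SimpleGraph.Walk.mem_support_append_iff _ _).1 ht with ht | ht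
    · exact h1 t ht
    · exact h2 t ht

private lemma comp_conn {V W X : Type} {G : SimpleGraph V} {Γ : SimpleGraph X} {q : ℕ}
    {β : W → Set X} {B : X → Set V} {P : Sym2 X → Set V} (hf : IsFatMinor G Γ q B P) (v : W)
    (hconn : (Γ.induce (β v)).Connected) :
    (compB Γ β B P v).Nonempty ∧ Conn G (compB Γ β B P v) := by
  classical
  obtain ⟨⟨x₀, hx₀⟩⟩ := hconn.nonempty
  obtain ⟨⟨z₀, hz₀⟩⟩ := (hf.conn x₀).nonempty
  have hc := conn_of_induce hconn
  refine ⟨⟨z₀, Or.inl ⟨x₀, hx₀, hz₀⟩⟩, conn_of_root z₀ ?_⟩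
  rintro z (⟨x, hx, hz⟩ | ⟨e, he, hev, hz⟩)
  · obtain ⟨w, hw⟩ := hc x₀ hx₀ x hx
    exact comp_walk hf w hw hz₀ hz
  · induction e using Sym2.ind with
    | _ x y =>
      have hx : x ∈ β v := hev x (Sym2.mem_mk_left x y)
      have hxy : Γ.Adj x y := he
      obtain ⟨a, ha, b, hb, p, -, hP⟩ := hf.path x y hxy
      obtain ⟨w, hw⟩ := hc x₀ hx₀ x hx
      obtain ⟨w1, h1⟩ := comp_walk (β := β) hf w hw hz₀ ha
      have hz' : z ∈ p.support := by
        rw [hP] at hz
        exact hz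
      refine ⟨w1.append (p.takeUntil z hz'), fun t ht => ?_⟩
      rcases (SimpleGraph.Walk.mem_support_append_iff _ _).1 ht with ht | ht
      · exact h1 t ht
      · refine Or.inr ⟨s(x, y), hxy, hev, ?_⟩
        rw [hP]
        exact p.support_takeUntil_subset_support hz' ht

/-- If `H` is a minor of `Γ` (branch sets `β v`) then a `q`-fat `Γ`-minor gives a `q`-fat `H`-minor.
PROOF. `mkFat` with `B' v = {z | (∃ x ∈ β v, z ∈ B x) ∨ ∃ e ∈ Γ.edgeSet, (∀ x ∈ e, x ∈ β v) ∧ z ∈ P e}`. For `e ∈ H.edgeSet` choose `u, v` with `e = s(u, v)` and `x ∈ β u`, `y ∈ β v` with `Γ.Adj x y`, put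
`Q e = P s(x, y)` (choice; `∅` for other `e`). Nonempty, connected: `β v` is connected and nonempty, each `B x` is connected and nonempty (`conn`, `conn_of_induce`), and for an edge `xy` of `Γ` inside `β v` the set
`B x ∪ P s(x,y) ∪ B y` is connected (by `path`, `conn_support`, `Conn.union`): induction along a walk of `Γ` inside `β v`. `hQ`: `path`. Distances: different vertices of `Γ` in different `β`'s are different (disjointness), an edge inside `β u` does not contain a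
vertex of `β v`, two edges, one inside `β u` and one inside `β v` or joining two `β`'s, are different; an edge `s(x,y)` with `x ∈ β u`, `y ∈ β v` determines `s(u,v)`. Use `farBB`, `farPP`, `farPB` (all the edges are edges of `Γ`). -/
theorem comp {V W X : Type} {G : SimpleGraph V} {H : SimpleGraph W} {Γ : SimpleGraph X} {q : ℕ}
    (β : W → Set X) (hconn : ∀ v, (Γ.induce (β v)).Connected)
    (hdisj : ∀ u v, u ≠ v → Disjoint (β u) (β v))
    (hadj : ∀ u v, H.Adj u v → ∃ x ∈ β u, ∃ y ∈ β v, Γ.Adj x y)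
    (hf : ∃ B P, IsFatMinor G Γ q B P) : ∃ B P, IsFatMinor G H q B P := by
  classical
  obtain ⟨B, P, hf⟩ := hf
  have key : ∀ e : Sym2 W, ∃ S : Set V, e ∈ H.edgeSet → ∃ u v x y, e = s(u, v) ∧ x ∈ β u ∧
      y ∈ β v ∧ Γ.Adj x y ∧ S = P s(x, y) := by
    intro e
    induction e using Sym2.ind with
    | _ u v =>
      by_cases h : H.Adj u v
      · obtain ⟨x, hx, y, hy, hxy⟩ := hadj u v h
        exact ⟨P s(x, y), fun _ => ⟨u, v, x, y, rfl, hx, hy, hxy, rfl⟩⟩
      · exact ⟨∅, fun h' => absurd h' h⟩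
  choose Q hQ using key
  refine mkFat H q (compB Γ β B P) Q (fun v => (comp_conn hf v (hconn v)).1)
    (fun v => (comp_conn hf v (hconn v)).2) ?_ ?_ ?_ ?_
  · intro e he
    obtain ⟨u, v, x, y, rfl, hx, hy, hxy, hS⟩ := hQ e he
    obtain ⟨a, ha, b, hb, p, -, hP⟩ := hf.path x y hxy
    refine ⟨u, v, rfl, a, Or.inl ⟨x, hx, ha⟩, b, Or.inl ⟨y, hy, hb⟩, p, fun z hz => ?_⟩
    rw [hS, hP]
    exact hz
  · intro u v huv z hz z' hz' w
    rcases hz with ⟨x, hx, hz⟩ | ⟨e, he, heu, hz⟩ <;>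
      rcases hz' with ⟨y, hy, hz'⟩ | ⟨e', he', hev, hz'⟩
    · refine hf.farBB x y ?_ z hz z' hz' w
      rintro rfl
      exact huv (comp_eq hdisj hx hy)
    · refine (hf.farPB e' he' x ?_).symm z hz z' hz' w
      intro h
      exact huv (comp_eq hdisj hx (hev x h))
    · refine hf.farPB e he y ?_ z hz z' hz' w
      intro h
      exact huv (comp_eq hdisj (heu y h) hy)
    · refine hf.farPP e he e' he' ?_ z hz z' hz' w
      rintro rfl
      induction e using Sym2.ind with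
      | _ x y =>
        exact huv (comp_eq hdisj (heu x (Sym2.mem_mk_left x y)) (hev x (Sym2.mem_mk_left x y)))
  · intro e he e' he' hee
    obtain ⟨u, v, x, y, rfl, hx, hy, hxy, hS⟩ := hQ e he
    obtain ⟨u', v', x', y', rfl, hx', hy', hxy', hS'⟩ := hQ e' he'
    rw [hS, hS']
    refine hf.farPP _ hxy _ hxy' ?_
    intro h
    rcases Sym2.eq_iff.mp h with ⟨rfl, rfl⟩ | ⟨rfl, rfl⟩
    · apply hee
      rw [comp_eq hdisj hx hx', comp_eq hdisj hy hy']
    · apply hee
      rw [comp_eq hdisj hx hy', comp_eq hdisj hy hx', Sym2.eq_swap]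
  · intro e he v' hv' z hz z' hz' w
    obtain ⟨u, v, x, y, rfl, hx, hy, hxy, hS⟩ := hQ e he
    rw [hS] at hz
    have hu : v' ≠ u := by
      rintro rfl
      exact hv' (Sym2.mem_mk_left _ _)
    have hv : v' ≠ v := by
      rintro rfl
      exact hv' (Sym2.mem_mk_right _ _)
    rcases hz' with ⟨c, hc, hz'⟩ | ⟨e', he', hev, hz'⟩
    · refine hf.farPB _ hxy c ?_ z hz z' hz' w
      intro h
      rcases Sym2.mem_iff.mp h with rfl | rfl
      · exact hu (comp_eq hdisj hc hx)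
      · exact hv (comp_eq hdisj hc hy)
    · refine hf.farPP _ hxy e' he' ?_ z hz z' hz' w
      rintro rfl
      exact hu (comp_eq hdisj (hev x (Sym2.mem_mk_left x y)) hx)

end Pool.Agent.MP_fd1949_P
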