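import Mathlib
import Pool.Agent.Lib.MP_fd1949_P.Struct

/-!
# Ramsey's theorem for pairs
-/

namespace Pool.Agent.MP_fd1949_P

open Pool.Agent.MP_fd1949_co

theorem ramsey_aux (κ : Type) [Fintype κ] (l : ℕ) : ∃ N : ℕ, ∀ (M : ℕ) (c : Fin M → Fin M → κ)
    (A : Finset (Fin M)), N ≤ A.card → ∃ x : Fin l → Fin M, StrictMono x ∧ (∀ i, x i ∈ A) ∧
      ∃ a : Fin l → κ, ∀ i j, i < j → c (x i) (x j) = a i := by
  classical
  induction l with
  | zero =>
    exact ⟨0, fun M c A _ => ⟨fun i => i.elim0, fun i => i.elim0, fun i => i.elim0,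
      fun i => i.elim0, fun i => i.elim0⟩⟩
  | succ l ih =>
    obtain ⟨N, hN⟩ := ih
    refine ⟨Fintype.card κ * N + 1, fun M c A hA => ?_⟩
    have hne : A.Nonempty := Finset.card_pos.mp (by omega)
    set x0 := A.min' hne with hx0
    have hx0A : x0 ∈ A := A.min'_mem hne
    have hκ : Nonempty κ := ⟨c x0 x0⟩
    have hcard : Fintype.card κ * N ≤ (A.erase x0).card := by
      rw [Finset.card_erase_of_mem hx0A]
      omega
    obtain ⟨b, -, hb⟩ := Finset.exists_le_card_fiber_of_mul_le_card_of_maps_to
      (s := A.erase x0) (t := (Finset.univ : Finset κ)) (f := fun y => c x0 y) (n := N)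
      (fun _ _ => Finset.mem_univ _) Finset.univ_nonempty (by rwa [Finset.card_univ])
    obtain ⟨x, hx, hxm, a, ha⟩ := hN M c _ hb
    have hxm' : ∀ i, x0 < x i ∧ x i ∈ A ∧ c x0 (x i) = b := by
      intro i
      have h := hxm i
      rw [Finset.mem_filter, Finset.mem_erase] at h
      exact ⟨lt_of_le_of_ne (A.min'_le _ h.1.2) (Ne.symm h.1.1), h.1.2, h.2⟩
    refine ⟨Fin.cons x0 x, ?_, ?_, Fin.cons b a, ?_⟩
    · intro i j hij
      induction i using Fin.cases with
      | zero =>
        induction j using Fin.cases with
        | zero => exact absurd hij (lt_irrefl _)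
        | succ j => simpa using (hxm' j).1
      | succ i =>
        induction j using Fin.cases with
        | zero => exact absurd hij (not_lt.mpr (Fin.zero_le _))
        | succ j => simpa using hx (Fin.succ_lt_succ_iff.mp hij)
    · intro i
      induction i using Fin.cases with
      | zero => simpa using hx0A
      | succ i => simpa using (hxm' i).2.1
    · intro i j hij
      induction i using Fin.cases with
      | zero =>
        induction j using Fin.cases with
        | zero => exact absurd hij (lt_irrefl _)
        | succ j => simpa using (hxm' j).2.2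
      | succ i =>
        induction j using Fin.cases with
        | zero => exact absurd hij (not_lt.mpr (Fin.zero_le _))
        | succ j => simpa using ha i j (Fin.succ_lt_succ_iff.mp hij)

/-- Ramsey's theorem for pairs of an ordered finite set and finitely many colours.
PROOF. Let `q = Nat.card κ` and `L = q * n`. Claim by induction on `l`: there is `N(l)` such that for
`M ≥ N(l)` (or: for every finite set `A` of indices with at least `N(l)` elements) there are
`x 0 < x 1 < ... < x (l-1)` in `A` and colours `a 0, ..., a (l-1)` with `c (x i) (x j) = a i` for all `i < j`: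
take `x 0 = min A`; by pigeonhole (`N(l+1) = q * N(l) + 1`, `Finset.exists_le_card_fiber_of_mul_le_card_of_maps_to`)
a set `A'` of at least `N(l)` elements `y` of `A`, all `> x 0`, has the same colour `c (x 0) y = a 0`; continue
in `A'`. For `l = q * n` (use `q ≥ 1`; if `κ` is empty and `n ≥ ...` take `M` large: `c` itself gives an element
of `κ` as soon as `M ≥ 1`; if `n = 0` everything is trivial but an element `a : κ` is needed: it exists since
`c` is defined on `Fin M` with `M ≥ 1`, take `N ≥ 1`) at least `n` of the colours `a i` are equal. -/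
theorem ramsey (κ : Type) [Finite κ] (n : ℕ) : ∃ N : ℕ, ∀ M, N ≤ M → ∀ c : Fin M → Fin M → κ,
    ∃ e : Fin n → Fin M, StrictMono e ∧ ∃ a : κ, ∀ i j, i < j → c (e i) (e j) = a := by
  classical
  have := Fintype.ofFinite κ
  obtain ⟨N, hN⟩ := ramsey_aux κ (Fintype.card κ * n)
  refine ⟨N + 1, fun M hM c => ?_⟩
  have hM0 : 0 < M := by omega
  have hκ : Nonempty κ := ⟨c ⟨0, hM0⟩ ⟨0, hM0⟩⟩
  obtain ⟨x, hx, -, a, ha⟩ := hN M c Finset.univ (by rw [Finset.card_univ, Fintype.card_fin]; omega)
  obtain ⟨b, -, hb⟩ := Finset.exists_le_card_fiber_of_mul_le_card_of_maps_to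
    (s := (Finset.univ : Finset (Fin (Fintype.card κ * n)))) (t := (Finset.univ : Finset κ))
    (f := a) (n := n) (fun _ _ => Finset.mem_univ _) Finset.univ_nonempty
    (by rw [Finset.card_univ, Finset.card_univ, Fintype.card_fin])
  set g := Finset.orderEmbOfCardLe _ hb with hg
  have hgm : ∀ i, a (g i) = b := by
    intro i
    have h := Finset.orderEmbOfCardLe_mem _ hb i
    rw [Finset.mem_filter] at h
    exact h.2
  refine ⟨fun i => x (g i), fun i j hij => hx (g.strictMono hij), b, fun i j hij => ?_⟩
  rw [ha _ _ (g.strictMono hij), hgm]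

end Pool.Agent.MP_fd1949_P
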