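import Mathlib
import Pool.Agent.Lib.MP_fd1949_P.Struct
import Pool.Agent.Lib.MP_fd1949_P.Ram

/-!
# Aligning linear structures
-/

namespace Pool.Agent.MP_fd1949_P

open Pool.Agent.MP_fd1949_co

/-- PROOF. The data of `Linear` restricted to the columns `e b`, with `J' b = J (e b)`, if
`StrictMono`; if `StrictAnti` use `F' j = F (p - j)` and `J' b = p - J (e b)`. -/
theorem linSeq_of {V ι : Type} {G : SimpleGraph V} {q S : ℕ} {X Col : ι → Set V} {Nb : Set V}
    {D : Finset ι} {k : ℕ} (e : Fin k → ι) (heD : ∀ b, e b ∈ D) (he : Function.Injective e)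
    (p : ℕ) (F : ℕ → Set V) (J : ι → ℕ) (h1 : ∀ j ≤ p, Conn G (F j) ∧ F j ⊆ Nb)
    (h2 : ∀ j < p, (F j ∩ F (j + 1)).Nonempty)
    (h3 : ∀ i j, i + 2 ≤ j → j ≤ p → Far G q (F i) (F j))
    (h4 : ∀ c ∈ D, J c ≤ p ∧ X c ⊆ F (J c) ∧ F (J c) ⊆ nbhd G S (X c))
    (h5 : ∀ c ∈ D, ∀ c' ∈ D, c ≠ c' → J c + 2 ≤ J c' ∨ J c' + 2 ≤ J c)
    (h6 : ∀ c ∈ D, ∀ j ≤ p, j ≠ J c → Far G q (F j) (Col c))
    (hJ : StrictMono (J ∘ e) ∨ StrictAnti (J ∘ e)) : LinSeq G q S X Col Nb e := by
  rcases hJ with hJ | hJ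
  · refine ⟨p, F, J ∘ e, h1, h2, h3, fun b => h4 (e b) (heD b), fun b b' hb => ?_,
      fun b j hj hne => h6 (e b) (heD b) j hj hne⟩
    have h : J (e b) < J (e b') := hJ hb
    rcases h5 (e b) (heD b) (e b') (heD b') (he.ne hb.ne) with h7 | h7
    · exact h7
    · omega
  · refine ⟨p, fun j => F (p - j), fun b => p - J (e b), fun j _ => h1 _ (Nat.sub_le p j),
      fun j hj => ?_, fun i j hij hj => ?_, fun b => ?_, fun b b' hb => ?_,
      fun b j hj hne => ?_⟩
    · have h := h2 (p - (j + 1)) (by omega)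
      rw [show p - (j + 1) + 1 = p - j by omega, Set.inter_comm] at h
      exact h
    · exact (h3 (p - j) (p - i) (by omega) (Nat.sub_le p i)).symm
    · obtain ⟨g1, g2, g3⟩ := h4 (e b) (heD b)
      refine ⟨Nat.sub_le _ _, ?_, ?_⟩
      · show X (e b) ⊆ F (p - (p - J (e b)))
        rw [Nat.sub_sub_self g1]
        exact g2
      · show F (p - (p - J (e b))) ⊆ nbhd G S (X (e b))
        rw [Nat.sub_sub_self g1]
        exact g3
    · have h : J (e b') < J (e b) := hJ hb
      have g1 := (h4 (e b) (heD b)).1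
      show p - J (e b) + 2 ≤ p - J (e b')
      rcases h5 (e b) (heD b) (e b') (heD b') (he.ne hb.ne) with h7 | h7
      · omega
      · omega
    · have g1 := (h4 (e b) (heD b)).1
      have hne' : j ≠ p - J (e b) := hne
      exact h6 (e b) (heD b) (p - j) (Nat.sub_le p j) (by omega)

/-- Alignment by Ramsey's theorem.
PROOF. `n` = the Ramsey number of `ramsey (Fin l → Bool) k`. Enumerate `D` by an injection
`Fin D.card → ι` (`D.equivFin.symm`), colour the pair `i, j` by
`fun a => decide (J a (x i) < J a (x j))`; on the homogeneous set, for each `a`, either `J a ∘ e`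
is strictly increasing (colour `true`) or, `J a` being injective on `D`,
strictly decreasing. -/
theorem align (l k : ℕ) : ∃ n : ℕ, ∀ (ι : Type) (D : Finset ι) (J : Fin l → ι → ℕ), n ≤ D.card →
    (∀ a, ∀ c ∈ D, ∀ c' ∈ D, c ≠ c' → J a c ≠ J a c') →
    ∃ e : Fin k → ι, Function.Injective e ∧ (∀ b, e b ∈ D) ∧
      ∀ a, StrictMono (J a ∘ e) ∨ StrictAnti (J a ∘ e) := by
  classical
  obtain ⟨N, hN⟩ := ramsey (Fin l → Bool) k
  refine ⟨N, fun ι D J hD hJ => ?_⟩
  obtain ⟨e0, he0, a0, h⟩ := hN D.card hD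
    (fun i j a => decide (J a (D.equivFin.symm i).1 < J a (D.equivFin.symm j).1))
  have hinj : Function.Injective fun b => (D.equivFin.symm (e0 b)).1 := fun b b' hb =>
    he0.injective (D.equivFin.symm.injective (Subtype.ext hb))
  refine ⟨fun b => (D.equivFin.symm (e0 b)).1, hinj, fun b => (D.equivFin.symm (e0 b)).2,
    fun a => ?_⟩
  cases ha : a0 a with
  | true =>
    left
    intro b b' hb
    have h1 := congrFun (h b b' hb) a
    rw [ha] at h1
    exact of_decide_eq_true h1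
  | false =>
    right
    intro b b' hb
    have h1 := congrFun (h b b' hb) a
    rw [ha] at h1
    have h2 := of_decide_eq_false h1
    have h3 := hJ a _ (D.equivFin.symm (e0 b)).2 _ (D.equivFin.symm (e0 b')).2
      (hinj.ne hb.ne)
    exact lt_of_le_of_ne (not_lt.1 h2) h3.symm

end Pool.Agent.MP_fd1949_P
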