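import Mathlib
import Pool.Agent.Lib.MP_fd1949_P.Struct
import Pool.Agent.Lib.MP_fd1949_P.MkFat

/-!
# Free rows give a fat complete graph
-/

namespace Pool.Agent.MP_fd1949_P

open Pool.Agent.MP_fd1949_co

/-- Section 4.3.
PROOF. `mkFat` for `⊤` on `Fin t`. `hfree a` gives `Z a`, `A a`. `B a = Z a ∪ ⋃ s ∈ {s | a ∈ s ∧ ¬ s.IsDiag}, A a (e s)` (`conn_iUnion`), `Q s = C.Col (e s)`. `hQ`: `s = s(a, b)`, `a ≠ b`: `C.x (M a) (e s) ∈ A a (e s)`, the same for `b`, and the part of the column between the heights `t (M a)` and `t (M b)` (`seq_walk`, in one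
of the two directions, `t_le`, `col_adj`). `farBB`: `B a ⊆ nbhd G (2 ω + S) (C.Row (M a))`, `row_far`, `Far.nbhd`, `q + 2 (2 ω + S) ≤ η` (`hc.hη`). `farQQ`: `col_far`, `q ≤ Δ`, `e` injective. `farQB`: `a ∉ s`: `Z a` is far from all columns of `D`; `A a (e s')`, `a ∈ s'`, so `s' ≠ s`, `e s' ≠ e s`, far from `Col (e s)`. -/
theorem freeB {V : Type} {G : SimpleGraph V} {k N q S q₁ ω₀ ω η Δ Θ t : ℕ}
    (C : Comb G k N q₁ ω₀ η Δ Θ) (hc : Cst N q S q₁ ω₀ ω η Δ) (M : Fin t → Fin k)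
    (hM : Function.Injective M) (D : Finset (Fin N)) (e : Sym2 (Fin t) → Fin N)
    (he : Function.Injective e) (heD : ∀ s, e s ∈ D) (hfree : ∀ a, C.IsFree q S ω (M a) D) :
    ∃ B P, IsFatMinor G (⊤ : SimpleGraph (Fin t)) q B P := by
  have hfree' : ∀ a, Free G q (C.x (M a)) C.Col (nbhd G (2 * ω + S) (C.Row (M a))) D := hfree
  unfold Free at hfree'
  choose Z A hZne hZc hZN hA hAf using hfree'
  have hc1 := hc.hη
  have hc2 := hc.hΔ
  have hc3 := hc.hq₁
  have hBN : ∀ a, (Z a ∪ ⋃ s ∈ {s : Sym2 (Fin t) | a ∈ s}, A a (e s)) ⊆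
      nbhd G (2 * ω + S) (C.Row (M a)) := by
    intro a
    refine Set.union_subset (hZN a) (Set.iUnion₂_subset fun s _ => ?_)
    exact (hA a (e s) (heD s)).2.2.1
  refine mkFat ⊤ q (fun a => Z a ∪ ⋃ s ∈ {s : Sym2 (Fin t) | a ∈ s}, A a (e s))
    (fun s => C.Col (e s)) (fun a => (hZne a).mono Set.subset_union_left) (fun a => ?_) ?_ ?_ ?_ ?_
  · exact conn_iUnion (hZne a) (fun s => A a (e s)) _ (hZc a) fun s _ => (hA a (e s) (heD s)).1
  · intro s _
    induction s with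
    | _ a b =>
      refine ⟨a, b, rfl, C.x (M a) (e s(a, b)), Or.inr ?_, C.x (M b) (e s(a, b)), Or.inr ?_, ?_⟩
      · exact Set.mem_iUnion₂.2 ⟨s(a, b), Sym2.mem_mk_left a b, (hA a _ (heD _)).2.1⟩
      · exact Set.mem_iUnion₂.2 ⟨s(a, b), Sym2.mem_mk_right a b, (hA b _ (heD _)).2.1⟩
      · have ha := C.t_le (M a)
        have hb := C.t_le (M b)
        rcases le_total (C.t (M a)) (C.t (M b)) with h | h
        · obtain ⟨w, -, hw⟩ := seq_walk (C.col (e s(a, b))) h
            fun n _ hn => C.col_adj _ n (by omega)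
          refine ⟨w, fun z hz => ?_⟩
          obtain ⟨n, -, h2, h3⟩ := hw z hz
          exact ⟨n, by omega, h3⟩
        · obtain ⟨w, -, hw⟩ := seq_walk (C.col (e s(a, b))) h
            fun n _ hn => C.col_adj _ n (by omega)
          refine ⟨w.reverse, fun z hz => ?_⟩
          have hz' : z ∈ w.support := by
            have h1 := SimpleGraph.Walk.support_reverse w
            have h2 : z ∈ w.support.reverse := h1 ▸ hz
            exact List.mem_reverse.1 h2
          obtain ⟨n, -, h2, h3⟩ := hw z hz'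
          exact ⟨n, by omega, h3⟩
  · intro a b hab
    have h1 : Far G (q + (2 * ω + S) + (2 * ω + S)) (C.Row (M a)) (C.Row (M b)) := by
      rintro _ ⟨n, hn, rfl⟩ _ ⟨n', hn', rfl⟩ w
      have h2 := C.row_far (M a) (M b) (fun h => hab (hM h)) n n' hn hn' w
      omega
    exact h1.nbhd.mono le_rfl (hBN a) (hBN b)
  · rintro s _ s' _ hss _ ⟨n, hn, rfl⟩ _ ⟨n', hn', rfl⟩ w
    have h2 := C.col_far (e s) (e s') (fun h => hss (he h)) n n' hn hn' w
    omega
  · rintro s _ a ha x hx y (hy | hy) w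
    · exact (hA a (e s) (heD s)).2.2.2.symm x hx y hy w
    · obtain ⟨s', hs', hy⟩ := Set.mem_iUnion₂.1 hy
      have hs2 : a ∈ s' := hs'
      have hne : e s' ≠ e s := by
        intro h
        rw [he h] at hs2
        exact ha hs2
      exact (hAf a (e s') (heD s') (e s) (heD s) hne).symm x hx y hy w

end Pool.Agent.MP_fd1949_P
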