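import Mathlib
import Pool.Agent.Lib.MP_fd1949_P.Struct

/-!
# Units of a row
-/

namespace Pool.Agent.MP_fd1949_P

open Pool.Agent.MP_fd1949_co

/-- Units (section 4.1).
PROOF. For `c ∈ D₀` let `τ c` be the first `n ≤ len` with `NearN G ω (R n) (x c)` (`Nat.find`), `c₀` the element of `D₀` with the smallest `τ`, `rk = τ`. Different balls are far apart: a point cannot be in the balls of two different `c, c' ∈ D₀`, nor can two adjacent points be in two different
balls (`far`: `2 * ω + 2 ≤` length). Let `c ≠ c₀`, `j = τ c`. Since `τ c₀ ≤ j` and the balls are disjoint, `τ c₀ < j`. Let `i < j` be the largest index `< j` such that `R i` is in some ball (of `D₀`), say of `c'`; `c' ≠ c` by minimality of `j`, and `τ c' ≤ i < j`. `u c = {R n | i ≤ n ≤ j}`,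
connected by `conn_seq`. `i + 1 < j` (otherwise `R i`, `R j` adjacent in two different balls). All points `R n`, `i < n < j`, are in no ball. `R i` is in the ball of `c'` only; a walk from `R i` to `x c'` of length `< ω` would together with the edge `R (i+1) R i` give `R (i+1)` in the ball of `c'`, no. Same for `R j`
with `R (j-1)` and `c`. For another `c''` the points `R i`, `R j` are not in the ball. So all points of `u c` have all walks to all `x c''` of length `≥ ω`. -/
theorem units {V : Type} {G : SimpleGraph V} (R : ℕ → V) (len : ℕ)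
    (hadj : ∀ n < len, G.Adj (R n) (R (n + 1))) {ι : Type} (x : ι → V) (D₀ : Finset ι) (ω : ℕ)
    (hfar : ∀ c ∈ D₀, ∀ c' ∈ D₀, c ≠ c' → ∀ w : G.Walk (x c) (x c'), 2 * ω + 2 ≤ w.length)
    (hmeet : ∀ c ∈ D₀, ∃ n ≤ len, NearN G ω (R n) (x c)) (hne : D₀.Nonempty) :
    ∃ c₀ ∈ D₀, ∃ (u : ι → Set V) (rk : ι → ℕ), ∀ c ∈ D₀, c ≠ c₀ → Conn G (u c) ∧
      (∀ z ∈ u c, ∃ n ≤ len, z = R n) ∧ (∃ z ∈ u c, NearN G ω z (x c)) ∧
      (∃ c' ∈ D₀, rk c' < rk c ∧ ∃ z ∈ u c, NearN G ω z (x c')) ∧
      ∀ z ∈ u c, ∀ c' ∈ D₀, ∀ w : G.Walk z (x c'), ω ≤ w.length := by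
  classical
  set τ : ι → ℕ := fun c => if h : ∃ n, NearN G ω (R n) (x c) then Nat.find h else 0 with hτ
  have τ_near : ∀ c ∈ D₀, NearN G ω (R (τ c)) (x c) := by
    intro c hc
    obtain ⟨n, -, hn⟩ := hmeet c hc
    have h : ∃ n, NearN G ω (R n) (x c) := ⟨n, hn⟩
    have : τ c = Nat.find h := by rw [hτ]; exact dif_pos h
    rw [this]
    exact Nat.find_spec h
  have τ_min : ∀ c ∈ D₀, ∀ n, NearN G ω (R n) (x c) → τ c ≤ n := by
    intro c hc n hn
    have h : ∃ n, NearN G ω (R n) (x c) := ⟨n, hn⟩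
    have : τ c = Nat.find h := by rw [hτ]; exact dif_pos h
    rw [this]
    exact Nat.find_min' h hn
  have τ_le : ∀ c ∈ D₀, τ c ≤ len := by
    intro c hc
    obtain ⟨n, hnl, hn⟩ := hmeet c hc
    exact (τ_min c hc n hn).trans hnl
  have hdisj : ∀ c ∈ D₀, ∀ c' ∈ D₀, ∀ n, NearN G ω (R n) (x c) → NearN G ω (R n) (x c') →
      c = c' := by
    intro c hc c' hc' n h1 h2
    by_contra hne'
    obtain ⟨w, hw⟩ := h1.symm.trans h2
    have := hfar c hc c' hc' hne' w
    omega
  obtain ⟨c₀, hc₀, hmin⟩ := D₀.exists_min_image τ hne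
  have key : ∀ c, c ∈ D₀ → c ≠ c₀ → ∃ U : Set V, Conn G U ∧
      (∀ z ∈ U, ∃ n ≤ len, z = R n) ∧ (∃ z ∈ U, NearN G ω z (x c)) ∧
      (∃ c' ∈ D₀, τ c' < τ c ∧ ∃ z ∈ U, NearN G ω z (x c')) ∧
      ∀ z ∈ U, ∀ c' ∈ D₀, ∀ w : G.Walk z (x c'), ω ≤ w.length := by
    intro c hc hcc
    have hlt : τ c₀ < τ c := by
      refine lt_of_le_of_ne (hmin c hc) fun heq => hcc ?_
      have h1 := τ_near c₀ hc₀
      rw [heq] at h1
      exact hdisj c hc c₀ hc₀ _ (τ_near c hc) h1
    set S : Finset ℕ := (Finset.range (τ c)).filter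
      (fun n => ∃ c' ∈ D₀, NearN G ω (R n) (x c')) with hS
    have hSne : S.Nonempty := ⟨τ c₀, by
      rw [hS, Finset.mem_filter, Finset.mem_range]
      exact ⟨hlt, c₀, hc₀, τ_near c₀ hc₀⟩⟩
    have hiS := S.max'_mem hSne
    have hmax : ∀ n ∈ S, n ≤ S.max' hSne := fun n hn => S.le_max' n hn
    set i := S.max' hSne with hi
    rw [hS, Finset.mem_filter, Finset.mem_range] at hiS
    obtain ⟨hij, c', hc', hic'⟩ := hiS
    have hjl := τ_le c hc
    have hno : ∀ n, i < n → n < τ c → ∀ c'' ∈ D₀, ¬ NearN G ω (R n) (x c'') := by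
      intro n h1 h2 c'' hc'' h3
      have := hmax n (by
        rw [hS, Finset.mem_filter, Finset.mem_range]
        exact ⟨h2, c'', hc'', h3⟩)
      omega
    refine ⟨{z | ∃ n, i ≤ n ∧ n ≤ τ c ∧ z = R n}, ?_, ?_, ?_, ?_, ?_⟩
    · exact conn_seq R fun n _ hn => hadj n (by omega)
    · rintro z ⟨n, -, hn, rfl⟩
      exact ⟨n, by omega, rfl⟩
    · exact ⟨R (τ c), ⟨τ c, by omega, le_rfl, rfl⟩, τ_near c hc⟩
    · refine ⟨c', hc', ?_, R i, ⟨i, le_rfl, by omega, rfl⟩, hic'⟩
      have := τ_min c' hc' i hic'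
      omega
    · rintro z ⟨n, hin, hnj, rfl⟩ c'' hc'' w
      by_contra hlt'
      have hnear : NearN G w.length (R n) (x c'') := ⟨w, le_rfl⟩
      have hnω : NearN G ω (R n) (x c'') := hnear.mono (by omega)
      rcases eq_or_lt_of_le hin with h1 | h1
      · subst h1
        -- `n = i`
        have h2 : NearN G ω (R (i + 1)) (x c'') :=
          ((NearN.of_adj (hadj i (by omega)).symm).trans hnear).mono (by omega)
        rcases eq_or_lt_of_le (Nat.succ_le_of_lt hij) with h3 | h3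
        · have h4 : i + 1 = τ c := h3
          rw [h4] at h2
          have h5 : c'' = c := hdisj c'' hc'' c hc _ h2 (τ_near c hc)
          subst h5
          have := τ_min c'' hc i hnω
          omega
        · exact hno (i + 1) (by omega) h3 c'' hc'' h2
      · rcases eq_or_lt_of_le hnj with h2 | h2
        · -- `n = τ c`
          obtain ⟨m, rfl⟩ : ∃ m, n = m + 1 := ⟨n - 1, by omega⟩
          have h3 : NearN G ω (R m) (x c'') :=
            ((NearN.of_adj (hadj m (by omega))).trans hnear).mono (by omega)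
          have h6 : NearN G ω (R (τ c)) (x c'') := by rw [← h2]; exact hnω
          have h5 : c'' = c := hdisj c'' hc'' c hc _ h6 (τ_near c hc)
          subst h5
          have := τ_min c'' hc m h3
          omega
        · exact hno n h1 h2 c'' hc'' hnω
  choose! u hu using key
  exact ⟨c₀, hc₀, u, τ, hu⟩

end Pool.Agent.MP_fd1949_P
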