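import Mathlib
import Pool.Agent.Lib.MP_fd1949_P.Struct
import Pool.Agent.Lib.MP_fd1949_P.Units

/-!
# The row system of a row of a comb
-/

namespace Pool.Agent.MP_fd1949_P

open Pool.Agent.MP_fd1949_co

/-- The row system of the row `m` and a nonempty set `D₀` of columns, on the type `{c // c ∈ D₀}`.
PROOF. Apply `units` to `R = C.R m`, `len = C.len m`, `x = C.x m`, `D₀`, `ω` (`hfar`: `C.col_far` and `2 ω + 2 ≤ Δ` by `hc.hΔ`, `t_le`; `hmeet`: `C.meet`, `q₁ + ω₀ ≤ ω`): `c₀`, `u`, `rk`. Put `X c = ball G (C.x m c) ω`, `u' c = u c` for `c ≠ c₀`, `u' c₀ = X c₀`, `Col = C.Col`.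
`connX`: `conn_ball`. `meet`, `link`: from `units` (`NearN.symm`; for `c = c₀` the centre). `farX`: the centres are `Δ` apart, `S + 1 + 2 ω ≤ Δ` (`Far.nbhd` for singletons or directly). `farC`: `col_far`, `q₁ + 1 + ω ≤ Δ`. `farU` for `c ≠ c₀`: let `z ∈ u c`, `z' = C.col c' n`, `n ≤ Θ`, `NearN G q₁ z z'`.
`z = C.R m i`, so by `cp` `|n - t m| ≤ ω₀`, so `NearN G ω₀ z' (C.x m c')` (along the column, `seq_near`, `t_le`), so there is a walk of length `≤ q₁ + ω₀ < ω` from `z` to `C.x m c'`, against the last clause of `units`. `farU` for `c = c₀ ≠ c'`: as `farC`.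
`All ⊆ nbhd G (2 * ω) (C.Row m)`: points of units are in the row; a point of `X c` is within `ω` of `C.x m c`, which is within `q₁ + ω₀ ≤ ω` of a point of the row (`C.meet`). -/
theorem exists_rowSys {V : Type} {G : SimpleGraph V} {k N q S q₁ ω₀ ω η Δ Θ : ℕ}
    (C : Comb G k N q₁ ω₀ η Δ Θ) (hc : Cst N q S q₁ ω₀ ω η Δ) (m : Fin k)
    (D₀ : Finset (Fin N)) (hne : D₀.Nonempty) :
    ∃ ρ : RowSys G {c // c ∈ D₀} S q₁, (∀ c, ρ.x c = C.x m c) ∧
      (∀ c, ρ.X c = ball G (C.x m c) ω) ∧ (∀ c, ρ.Col c = C.Col c) ∧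
      ρ.All ⊆ nbhd G (2 * ω) (C.Row m) := by
  classical
  obtain ⟨hq, hS, hq₁, hω, hη, hΔ⟩ := hc
  have colfar : ∀ c c' : Fin N, c ≠ c' → ∀ n ≤ Θ, ∀ w : G.Walk (C.x m c) (C.col c' n),
      Δ ≤ w.length :=
    fun c c' hcc n hn w => C.col_far c c' hcc (C.t m) n (C.t_le m) hn w
  obtain ⟨c₀, hc₀, u, rk, hu⟩ := units (C.R m) (C.len m) (fun n hn => C.row_adj m n hn)
    (C.x m) D₀ ω
    (fun c _ c' _ hcc w => by
      have : Δ ≤ w.length := colfar c c' hcc (C.t m) (C.t_le m) w
      omega)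
    (fun c _ => by
      obtain ⟨n, hn, h⟩ := C.meet m c
      exact ⟨n, hn, h.mono (by omega)⟩)
    hne
  have hfC : ∀ c c' : Fin N, c ≠ c' → Far G (q₁ + 1) (ball G (C.x m c) ω) (C.Col c') := by
    intro c c' hcc
    refine far_of ?_
    rintro z hz z' ⟨n, hn, rfl⟩ k hk h
    obtain ⟨w, hw⟩ := NearN.trans hz h
    have := colfar c c' hcc n hn w
    omega
  have hfX : ∀ c c' : Fin N, c ≠ c' →
      Far G (S + 1) (ball G (C.x m c) ω) (ball G (C.x m c') ω) := by
    intro c c' hcc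
    refine far_of ?_
    intro z hz z' hz' k hk h
    obtain ⟨w, hw⟩ := (NearN.trans hz h).trans (NearN.symm hz')
    have : Δ ≤ w.length := colfar c c' hcc (C.t m) (C.t_le m) w
    omega
  have hfU : ∀ c ∈ D₀, c ≠ c₀ → ∀ c' ∈ D₀, Far G (q₁ + 1) (u c) (C.Col c') := by
    intro c hcD hcc c' hcD'
    obtain ⟨-, hrow, -, -, hlast⟩ := hu c hcD hcc
    refine far_of ?_
    rintro z hz z' ⟨n', hn', rfl⟩ k hk h
    obtain ⟨n, hn, rfl⟩ := hrow z hz
    have hcp := C.cp m c' n n' hn hn' (h.mono (by omega))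
    have ht := C.t_le m
    have hnear : NearN G ω₀ (C.col c' n') (C.x m c') := by
      rcases le_total n' (C.t m) with hle | hle
      · have := seq_near (G := G) (C.col c') hle
          (fun j _ hj => C.col_adj c' j (by omega))
        exact this.mono (by omega)
      · have := seq_near (G := G) (C.col c') hle
          (fun j _ hj => C.col_adj c' j (by omega))
        exact this.symm.mono (by omega)
    obtain ⟨w, hw⟩ := h.trans hnear
    have := hlast _ hz c' hcD' w
    omega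
  refine ⟨{ c₀ := ⟨c₀, hc₀⟩
            x := fun c => C.x m c
            X := fun c => ball G (C.x m c) ω
            u := fun c => if (c : Fin N) = c₀ then ball G (C.x m c) ω else u c
            Col := fun c => C.Col c
            rk := fun c => rk c
            connX := fun c => conn_ball _ _
            connU := ?_
            memX := fun c => mem_ball_self _ _
            meet := ?_
            link := ?_
            farX := fun c c' hcc => hfX c c' fun h => hcc (Subtype.ext h)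
            farU := ?_
            farC := fun c c' hcc => hfC c c' fun h => hcc (Subtype.ext h) },
    fun _ => rfl, fun _ => rfl, fun _ => rfl, ?_⟩
  · rintro ⟨c, hcD⟩
    dsimp only
    split_ifs with h
    · exact conn_ball _ _
    · exact (hu c hcD h).1
  · rintro ⟨c, hcD⟩
    dsimp only
    split_ifs with h
    · exact ⟨C.x m c, mem_ball_self _ _, mem_ball_self _ _⟩
    · obtain ⟨z, hz, hzn⟩ := (hu c hcD h).2.2.1
      exact ⟨z, hz, hzn.symm⟩
  · rintro ⟨c, hcD⟩ hne'
    have h : c ≠ c₀ := fun h => hne' (Subtype.ext h)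
    obtain ⟨c', hcD', hrk, z, hz, hzn⟩ := (hu c hcD h).2.2.2.1
    refine ⟨⟨c', hcD'⟩, hrk, z, ?_, hzn.symm⟩
    dsimp only
    rw [if_neg h]
    exact hz
  · rintro ⟨c, hcD⟩ ⟨c', hcD'⟩ hne'
    have h' : c' ≠ c₀ := fun h => hne' (Subtype.ext h)
    dsimp only
    split_ifs with h
    · exact hfC c c' (by rw [h]; exact h'.symm)
    · exact hfU c hcD h c' hcD'
  · have hball : ∀ (c : Fin N) (z : V), z ∈ ball G (C.x m c) ω →
        z ∈ nbhd G (2 * ω) (C.Row m) := by
      intro c z hz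
      obtain ⟨n, hn, h⟩ := C.meet m c
      exact ⟨C.R m n, ⟨n, hn, rfl⟩, (h.trans hz).mono (by omega)⟩
    rintro z ⟨e, hz⟩
    rcases e with ⟨c, hcD⟩ | ⟨c, hcD⟩
    · exact hball c z hz
    · simp only [RowSys.el, Sum.elim_inr] at hz
      split_ifs at hz with h
      · exact hball c z hz
      · obtain ⟨n, hn, rfl⟩ := (hu c hcD h).2.1 z hz
        exact subset_nbhd _ _ ⟨n, hn, rfl⟩

end Pool.Agent.MP_fd1949_P
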