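import Mathlib
import Pool.Agent.Lib.MP_fd1949_P.Struct
import Pool.Agent.Lib.MP_fd1949_P.RowA
import Pool.Agent.Lib.MP_fd1949_P.Trans
import Pool.Agent.Lib.MP_fd1949_P.RowS

/-!
# Many columns on which every row is free or linear
-/

namespace Pool.Agent.MP_fd1949_P

open Pool.Agent.MP_fd1949_co

/-- Restriction of the structures of a row of a comb. -/
theorem Comb.fl_subset {V : Type} {G : SimpleGraph V} {k N q S q₁ ω₀ ω η Δ Θ : ℕ}
    (C : Comb G k N q₁ ω₀ η Δ Θ) (m : Fin k) {D D' : Finset (Fin N)} (hD : D' ⊆ D)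
    (hm : C.IsFree q S ω m D ∨ C.IsLin q S ω m D) :
    C.IsFree q S ω m D' ∨ C.IsLin q S ω m D' := by
  rcases hm with h | h
  · exact Or.inl (Free.subset h hD subset_rfl)
  · exact Or.inr (Linear.subset h hD subset_rfl)

/-- One row.
PROOF. `N₁` of `rowA n`, at least `1`. `exists_rowSys` and `rowA` (`Nat.card {c // c ∈ D₀} = D₀.card ≤ N`, so `hS` of `Cst` gives the scale condition) give `D₁ : Finset {c // c ∈ D₀}`; `D = D₁.map (Function.Embedding.subtype _)`, `Free.map` / `Linear.map` and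
`nbhd G S ρ.All ⊆ nbhd G S (nbhd G (2 ω) Row) ⊆ nbhd G (2 ω + S) Row` (`nbhd_mono`, `nbhd_nbhd`, `Free.subset`, `Linear.subset`). -/
theorem one_row (n : ℕ) : ∃ N₁ : ℕ, ∀ (V : Type) (G : SimpleGraph V)
    (k N q S q₁ ω₀ ω η Δ Θ : ℕ) (C : Comb G k N q₁ ω₀ η Δ Θ), Cst N q S q₁ ω₀ ω η Δ →
    ∀ (m : Fin k) (D₀ : Finset (Fin N)), N₁ ≤ D₀.card →
      ∃ D ⊆ D₀, n ≤ D.card ∧ (C.IsFree q S ω m D ∨ C.IsLin q S ω m D) := by
  classical
  obtain ⟨N₁, hN₁⟩ := rowA n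
  refine ⟨max N₁ 1, ?_⟩
  intro V G k N q S q₁ ω₀ ω η Δ Θ C hc m D₀ hcard
  have hne : D₀.Nonempty := by
    rw [← Finset.card_pos]
    have := le_max_right N₁ 1
    omega
  obtain ⟨ρ, hx, hX, hCol, hAll⟩ := exists_rowSys C hc m D₀ hne
  have hc1 : Nat.card {c // c ∈ D₀} = D₀.card := by
    rw [Nat.card_eq_fintype_card, Fintype.card_coe]
  have hc2 : D₀.card ≤ N := by
    have := Finset.card_le_univ D₀
    rwa [Fintype.card_fin] at this
  have hscale : q * 10 ^ ((2 * Nat.card {c // c ∈ D₀}) ^ 2 + 1) ≤ S := by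
    refine le_trans ?_ hc.hS
    rw [hc1]
    refine Nat.mul_le_mul_left _ (Nat.pow_le_pow_right (by norm_num) ?_)
    have := Nat.pow_le_pow_left (Nat.mul_le_mul_left 2 hc2) 2
    omega
  obtain ⟨D₁, hD₁, hor⟩ := hN₁ V G {c // c ∈ D₀} q S q₁
    (by rw [hc1]; exact (le_max_left _ _).trans hcard) hc.hq hscale hc.hq₁ ρ
  have hNb : nbhd G S ρ.All ⊆ nbhd G (2 * ω + S) (C.Row m) :=
    (nbhd_mono le_rfl hAll).trans (nbhd_nbhd _ _ _)
  refine ⟨D₁.map (Function.Embedding.subtype _), ?_, ?_, ?_⟩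
  · intro c hc'
    obtain ⟨c', -, rfl⟩ := Finset.mem_map.1 hc'
    exact c'.2
  · rw [Finset.card_map]
    exact hD₁
  · rcases hor with h | h
    · refine Or.inl (Free.subset (Free.map (Function.Embedding.subtype _)
        (fun c _ => (hx c).symm) (fun c _ => (hCol c).symm) h) subset_rfl hNb)
    · refine Or.inr (Linear.subset (Linear.map (Function.Embedding.subtype _)
        (fun c _ => (hX c).symm) (fun c _ => (hCol c).symm) h) subset_rfl hNb)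

/-- All rows.
PROOF. Induction on `j`: for every `n` there is `N₂` such that for `N₂ ≤ N` (or for every set of at least `N₂` columns) there is `D` with `n ≤ D.card` on which all rows `m < j` are free or linear (`one_row`, `Comb.fl_subset`); take `j = k`. -/
theorem all_rows (k n : ℕ) : ∃ N₂ : ℕ, ∀ (V : Type) (G : SimpleGraph V)
    (N q S q₁ ω₀ ω η Δ Θ : ℕ) (C : Comb G k N q₁ ω₀ η Δ Θ), Cst N q S q₁ ω₀ ω η Δ → N₂ ≤ N →
      ∃ D : Finset (Fin N), n ≤ D.card ∧ ∀ m, C.IsFree q S ω m D ∨ C.IsLin q S ω m D := by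
  have key : ∀ j n : ℕ, ∃ N₂ : ℕ, ∀ (V : Type) (G : SimpleGraph V)
      (N q S q₁ ω₀ ω η Δ Θ : ℕ) (C : Comb G k N q₁ ω₀ η Δ Θ), Cst N q S q₁ ω₀ ω η Δ →
      ∀ D₀ : Finset (Fin N), N₂ ≤ D₀.card → ∃ D ⊆ D₀, n ≤ D.card ∧
        ∀ m : Fin k, (m : ℕ) < j → C.IsFree q S ω m D ∨ C.IsLin q S ω m D := by
    intro j
    induction j with
    | zero =>
      intro n
      exact ⟨n, fun V G N q S q₁ ω₀ ω η Δ Θ C hc D₀ h =>
        ⟨D₀, subset_rfl, h, fun m hm => absurd hm (Nat.not_lt_zero _)⟩⟩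
    | succ j ih =>
      intro n
      obtain ⟨N₁, hN₁⟩ := one_row n
      obtain ⟨N₂, hN₂⟩ := ih (max N₁ n)
      refine ⟨N₂, fun V G N q S q₁ ω₀ ω η Δ Θ C hc D₀ h => ?_⟩
      obtain ⟨D₁, h1, h2, h3⟩ := hN₂ V G N q S q₁ ω₀ ω η Δ Θ C hc D₀ h
      rcases Nat.lt_or_ge j k with hj | hj
      · obtain ⟨D, h4, h5, h6⟩ := hN₁ V G k N q S q₁ ω₀ ω η Δ Θ C hc ⟨j, hj⟩ D₁
          ((le_max_left _ _).trans h2)
        refine ⟨D, h4.trans h1, h5, fun m hm => ?_⟩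
        rcases Nat.lt_succ_iff_lt_or_eq.1 hm with h7 | h7
        · exact C.fl_subset m h4 (h3 m h7)
        · have h8 : m = ⟨j, hj⟩ := Fin.ext h7
          rw [h8]
          exact h6
      · exact ⟨D₁, h1, (le_max_right _ _).trans h2, fun m hm => h3 m (m.2.trans_le hj)⟩
  obtain ⟨N₂, hN₂⟩ := key k n
  refine ⟨N₂, fun V G N q S q₁ ω₀ ω η Δ Θ C hc h => ?_⟩
  obtain ⟨D, -, h2, h3⟩ := hN₂ V G N q S q₁ ω₀ ω η Δ Θ C hc Finset.univ
    (by rw [Finset.card_univ, Fintype.card_fin]; exact h)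
  exact ⟨D, h2, fun m => h3 m m.2⟩

end Pool.Agent.MP_fd1949_P
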