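import Mathlib
import Pool.Agent.Lib.MP_fd1949_P.Struct

/-!
# Fat minors of subgraphs
-/

namespace Pool.Agent.MP_fd1949_P

open Pool.Agent.MP_fd1949_co

/-- PROOF. Directly: `B ∘ φ` and `fun e => P (e.map φ)`. (`Sym2.map` of different elements are different since `φ` is injective: `Sym2.map.injective`; the image of an edge is an edge; `v ∉ e` gives `φ v ∉ e.map φ`.) -/
theorem fat_of_inj {V W X : Type} {G : SimpleGraph V} {H : SimpleGraph W} {Γ : SimpleGraph X}
    {q : ℕ} (φ : W → X) (hφ : Function.Injective φ) (hadj : ∀ u v, H.Adj u v → Γ.Adj (φ u) (φ v))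
    (hf : ∃ B P, IsFatMinor G Γ q B P) : ∃ B P, IsFatMinor G H q B P := by
  obtain ⟨B, P, h⟩ := hf
  have hm : ∀ e ∈ H.edgeSet, e.map φ ∈ Γ.edgeSet := by
    intro e he
    induction e using Sym2.ind with
    | _ u v => exact hadj u v he
  refine ⟨fun v => B (φ v), fun e => P (e.map φ), ?_, ?_, ?_, ?_, ?_⟩
  · exact fun v => h.conn (φ v)
  · exact fun u v huv => h.path (φ u) (φ v) (hadj u v huv)
  · exact fun u v huv => h.farBB (φ u) (φ v) (hφ.ne huv)
  · exact fun e he e' he' hne => h.farPP _ (hm e he) _ (hm e' he')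
      ((Sym2.map.injective hφ).ne hne)
  · intro e he v hv
    refine h.farPB _ (hm e he) (φ v) fun h1 => ?_
    obtain ⟨a, ha, hav⟩ := Sym2.mem_map.1 h1
    exact hv (hφ hav ▸ ha)

/-- The complete graph on `k ^ 2` vertices contains the grid. -/
theorem grid_of_top {V : Type} {G : SimpleGraph V} {q k : ℕ}
    (hf : ∃ B P, IsFatMinor G (⊤ : SimpleGraph (Fin (k ^ 2))) q B P) :
    ∃ B P, IsFatMinor G (grid k) q B P := by
  let φ : Fin k × Fin k ≃ Fin (k ^ 2) := finProdFinEquiv.trans (finCongr (pow_two k).symm)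
  exact fat_of_inj φ φ.injective (fun u v huv => φ.injective.ne huv.ne) hf

/-- A `q`-fat minor is a `q'`-fat minor for `q' ≤ q`. -/
theorem fat_mono {V W : Type} {G : SimpleGraph V} {H : SimpleGraph W} {q q' : ℕ} (hq : q' ≤ q)
    (hf : ∃ B P, IsFatMinor G H q B P) : ∃ B P, IsFatMinor G H q' B P := by
  obtain ⟨B, P, h⟩ := hf
  have hm : ∀ X Y : Set V, Far G q X Y → Far G q' X Y :=
    fun X Y hXY x hx y hy w => hq.trans (hXY x hx y hy w)
  exact ⟨B, P, h.conn, h.path, fun u v huv => hm _ _ (h.farBB u v huv),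
    fun e he e' he' hne => hm _ _ (h.farPP e he e' he' hne),
    fun e he v hv => hm _ _ (h.farPB e he v hv)⟩

end Pool.Agent.MP_fd1949_P
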