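import Mathlib
import Pool.Agent.Lib.MP_fd1949_P.Struct

/-!
# Geodesics of level functions
-/

namespace Pool.Agent.MP_fd1949_P

open Pool.Agent.MP_fd1949_co

/-- PROOF. Choose (by `down`) a map `nx : V → V` with `nx v ∈ S`, `G.Adj v (nx v)`, `f (nx v) + 1 = f v` for `v ∈ S` with
`f v ≠ 0`, and `nx v = v` if `f v = 0` (or `v ∉ S`). Put `g n = nx^[n] y`. Induction on `n`: `g n ∈ S`, and `f (g n) + n = f y` for `n ≤ f y`.
For `n ≥ f y` all `g n` have `f (g n) = 0`, so `g n = o` by `uniq`. -/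
theorem Lev.geo {V : Type} {G : SimpleGraph V} {S : Set V} {o : V} {f : V → ℕ} (L : Lev G S o f)
    {y : V} (hy : y ∈ S) : ∃ g : ℕ → V, g 0 = y ∧ (∀ n, g n ∈ S) ∧
      (∀ n ≤ f y, f (g n) + n = f y) ∧ (∀ n < f y, G.Adj (g n) (g (n + 1))) ∧
      ∀ n, f y ≤ n → g n = o := by
  classical
  have hsel : ∀ v, ∃ u, (v ∈ S ∧ f v ≠ 0 → u ∈ S ∧ G.Adj v u ∧ f u + 1 = f v) ∧
      (¬ (v ∈ S ∧ f v ≠ 0) → u = v) := by
    intro v
    by_cases hv : v ∈ S ∧ f v ≠ 0
    · obtain ⟨u, hu⟩ := L.down v hv.1 hv.2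
      exact ⟨u, fun _ => hu, fun h => absurd hv h⟩
    · exact ⟨v, fun h => absurd h hv, fun _ => rfl⟩
  choose nx hnx1 hnx2 using hsel
  set g : ℕ → V := fun n => nx^[n] y with hg
  have hgs : ∀ n, g (n + 1) = nx (g n) := fun n => Function.iterate_succ_apply' _ _ _
  have hS : ∀ n, g n ∈ S := by
    intro n
    induction n with
    | zero => exact hy
    | succ n ih =>
      rw [hgs]
      by_cases h : f (g n) ≠ 0
      · exact (hnx1 _ ⟨ih, h⟩).1
      · rw [hnx2 _ (fun h' => h h'.2)]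
        exact ih
  have hf : ∀ n ≤ f y, f (g n) + n = f y := by
    intro n
    induction n with
    | zero => intro _; rfl
    | succ n ih =>
      intro hn
      have h1 := ih (by omega)
      have h2 : f (g n) ≠ 0 := by omega
      have h3 := (hnx1 _ ⟨hS n, h2⟩).2.2
      rw [hgs]
      omega
  refine ⟨g, rfl, hS, hf, ?_, ?_⟩
  · intro n hn
    have h1 := hf n hn.le
    rw [hgs]
    exact (hnx1 _ ⟨hS n, by omega⟩).2.1
  · intro n hn
    induction n, hn using Nat.le_induction with
    | base =>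
      have h1 := hf (f y) le_rfl
      exact L.uniq _ (hS _) (by omega)
    | succ n hn ih =>
      have h2 : f (g n) = 0 := by rw [ih]; exact L.zero
      rw [hgs, hnx2 _ (fun h' => h'.2 h2)]
      exact ih

/-- Roots of a chain at arbitrary points of `S K`.
PROOF. `Lev.geo` for each `i < K` and each `e` (the points `y e` are in `S K`, hence in all `S i`, `i ≤ K`, by `sub`), and choice. -/
theorem exists_roots {V : Type} {G : SimpleGraph V} {K r : ℕ} {h : ℕ → ℕ} (c : Chain G K r h)
    {ι : Type} (y : ι → V) (hy : ∀ e, y e ∈ c.S K) : ∃ ρ : Roots c ι, ρ.y = y := by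
  have hsub : ∀ i ≤ K, c.S K ⊆ c.S i := by
    intro i hi
    have key : ∀ j, i ≤ j → j ≤ K → c.S j ⊆ c.S i := by
      intro j hj
      induction j, hj using Nat.le_induction with
      | base => intro _; exact subset_rfl
      | succ j hj ih =>
        intro hjK
        exact (c.sub j (by omega)).trans (ih (by omega))
    exact key K hi le_rfl
  have hsel : ∀ i e, ∃ g : ℕ → V, i < K → (g 0 = y e ∧ (∀ n, g n ∈ c.S i) ∧
      (∀ n ≤ c.f i (y e), c.f i (g n) + n = c.f i (y e)) ∧
      (∀ n < c.f i (y e), G.Adj (g n) (g (n + 1))) ∧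
      ∀ n, c.f i (y e) ≤ n → g n = c.o i) := by
    intro i e
    by_cases hi : i < K
    · obtain ⟨g, hg⟩ := (c.lev i hi).geo (hsub i hi.le (hy e))
      exact ⟨g, fun _ => hg⟩
    · exact ⟨fun _ => y e, fun h => absurd h hi⟩
  choose g hg using hsel
  exact ⟨{ y := y, g := g, mem := hy,
           start := fun i hi e => (hg i e hi).1
           inS := fun i hi e n => (hg i e hi).2.1 n
           lev := fun i hi e n hn => (hg i e hi).2.2.1 n hn
           adj := fun i hi e n hn => (hg i e hi).2.2.2.1 n hn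
           last := fun i hi e n hn => (hg i e hi).2.2.2.2 n hn }, rfl⟩

end Pool.Agent.MP_fd1949_P
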