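import Mathlib
import Pool.Agent.Lib.MP_fd1949_P.Struct

/-!
# Short walks from points deep in the slab stay in the chain (SEP)
-/

namespace Pool.Agent.MP_fd1949_P

open Pool.Agent.MP_fd1949_co

variable {V : Type} {G : SimpleGraph V} {K r : ℕ} {h : ℕ → ℕ}

theorem Chain.sub_le (c : Chain G K r h) {i j : ℕ} (hij : i ≤ j) (hj : j ≤ K) : c.S j ⊆ c.S i := by
  induction j, hij using Nat.le_induction with
  | base => exact subset_rfl
  | succ j _ ih => exact (c.sub j (by omega)).trans (ih (by omega))

private theorem SepL_step (c : Chain G K r h) (hh : ∀ i < K, h (i + 1) ≤ h i) {n : ℕ}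
    {v v' : V} (hvv : G.Adj v v') (i : ℕ) : i ≤ K → v ∈ c.S i →
    (∀ j < i, c.a j ≤ c.f j v + n ∧ c.f j v ≤ c.a j + r + n) → n + 1 ≤ h i →
    v' ∈ c.S i ∧ ∀ j < i, c.a j ≤ c.f j v' + (n + 1) ∧ c.f j v' ≤ c.a j + r + (n + 1) := by
  induction i with
  | zero =>
    intro _ hv _ _
    exact ⟨c.top v hv v' hvv, fun j hj => absurd hj (Nat.not_lt_zero j)⟩
  | succ i ih =>
    intro hi hv hs hn
    have hvi : v ∈ c.S i := c.sub i (by omega) hv
    obtain ⟨h1, h2⟩ := ih (by omega) hvi (fun j hj => hs j (by omega))
      (hn.trans (hh i (by omega)))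
    have h3 := (c.lev i (by omega)).lip v hvi v' h1 hvv
    have h4 := (c.lev i (by omega)).lip v' h1 v hvi hvv.symm
    have h5 : ∀ j < i + 1, c.a j ≤ c.f j v' + (n + 1) ∧ c.f j v' ≤ c.a j + r + (n + 1) := by
      intro j hj
      rcases Nat.lt_succ_iff_lt_or_eq.1 hj with hj' | rfl
      · exact h2 j hj'
      · have h6 := hs j (by omega)
        omega
    refine ⟨c.closed i (by omega) v hv v' h1 hvv fun j hj => ?_, h5⟩
    have h6 := h5 j hj
    omega

/-- SEP, first part.
PROOF. Induction on `i` (for all `n`, `v`, `x`, `w`). `i = 0`: induction along the walk with `top`. Step `i → i + 1`: let `v ∈ S (i+1)`, slab condition for all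
`j < i + 1` with `n`, `w.length + n ≤ h (i+1) ≤ h i`. By induction hypothesis for `i` all points of `w` are in `S i`, and more: for each initial part `w'` of `w` (from `v` to `z`) and each
`j ≤ i` we have, by the Lipschitz property `lev.lip` of `f j` along the walk `w'`, which lies in `S i ⊆ S j`: `f j v ≤ f j z + w'.length` and `f j z ≤ f j v + w'.length`; hence `z` satisfies
the slab condition for all `j < i + 1` with `n + w'.length ≤ h (i+1)`. Now go along the walk: `v ∈ S (i+1)`, and each next point is adjacent to the previous one, is in `S i`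
and satisfies the slab condition with `h (i+1)`, so it is in `S (i+1)` by `closed`. (Best by induction on the walk in the form: for all walks `w : G.Walk v x`,
by reverse induction `SimpleGraph.Walk.concat_rec` or with `getVert m`, `m ≤ w.length`.) -/
theorem Chain.sep (c : Chain G K r h) (hh : ∀ i < K, h (i + 1) ≤ h i) {i : ℕ} (hi : i ≤ K) {n : ℕ}
    {v x : V} (hv : v ∈ c.S i) (hs : ∀ j < i, c.a j ≤ c.f j v + n ∧ c.f j v ≤ c.a j + r + n)
    (w : G.Walk v x) (hw : w.length + n ≤ h i) : ∀ z ∈ w.support, z ∈ c.S i := by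
  induction w generalizing n with
  | nil =>
    intro z hz
    rw [SimpleGraph.Walk.support_nil, List.mem_singleton] at hz
    rw [hz]
    exact hv
  | cons hvv p ih =>
    rw [SimpleGraph.Walk.length_cons] at hw
    obtain ⟨h1, h2⟩ := SepL_step c hh hvv i hi hv hs (by omega)
    intro z hz
    rw [SimpleGraph.Walk.support_cons, List.mem_cons] at hz
    rcases hz with rfl | hz
    · exact hv
    · exact ih h1 h2 (by omega) z hz

/-- SEP, second part: the level function changes by at most the length.
PROOF. By the first part the walk is in `S i`; `lev.lip` along the walk. -/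
theorem Chain.sep_lip (c : Chain G K r h) (hh : ∀ i < K, h (i + 1) ≤ h i) {i : ℕ} (hi : i < K)
    {n : ℕ} {v x : V} (hv : v ∈ c.S i)
    (hs : ∀ j < i, c.a j ≤ c.f j v + n ∧ c.f j v ≤ c.a j + r + n)
    (w : G.Walk v x) (hw : w.length + n ≤ h i) :
    c.f i v ≤ c.f i x + w.length ∧ c.f i x ≤ c.f i v + w.length := by
  induction w generalizing n with
  | nil => exact ⟨Nat.le_add_right _ _, Nat.le_add_right _ _⟩
  | cons hvv p ih =>
    rw [SimpleGraph.Walk.length_cons] at hw ⊢
    obtain ⟨h1, h2⟩ := SepL_step c hh hvv i hi.le hv hs (by omega)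
    have h3 := (c.lev i hi).lip _ hv _ h1 hvv
    have h4 := (c.lev i hi).lip _ h1 _ hv hvv.symm
    have h5 := ih h1 h2 (by omega)
    omega

end Pool.Agent.MP_fd1949_P
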