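import Mathlib
import Pool.Agent.Lib.MP_fd1949_P.Struct
import Pool.Agent.Lib.MP_fd1949_P.SepL
import Pool.Agent.Lib.MP_fd1949_P.LevG

/-!
# Hubs are far from deeper levels
-/

namespace Pool.Agent.MP_fd1949_P

open Pool.Agent.MP_fd1949_co

variable {V : Type} {G : SimpleGraph V} {K r : ℕ} {h : ℕ → ℕ}

/-- (HUB)
PROOF. Let `z ∈ T i`, `v ∈ S m`, `w` a walk of length `l < η`. By `Chain.sub_le` `v ∈ S (i+1)`, so by `slab` (for `i+1`) `v` satisfies the slab condition for all `j < i + 1` with `n = h (i+1)`, and `v ∈ S i`.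
`l + h (i+1) ≤ h i`, so by `sep_lip` (for `v`, the reversed walk, `n = h (i+1)`, level `i`) `f i v ≤ f i z + l`. But `a i ≤ f i v + h (i+1)` and `f i z + h i ≤ a i`, so `h i ≤ l + h (i+1)`, against `l < η`, `h (i+1) + η ≤ h i`. -/
theorem Chain.hub_far (c : Chain G K r h) {η : ℕ} (hη : ∀ i < K, h (i + 1) + η ≤ h i) {i m : ℕ}
    (him : i < m) (hm : m ≤ K) : Far G η (c.T i) (c.S m) := by
  intro z hz v hv w
  by_contra hlt
  have hlt' := not_le.1 hlt
  have hiK : i < K := lt_of_lt_of_le him hm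
  have hv1 : v ∈ c.S (i + 1) := c.sub_le (Nat.succ_le_of_lt him) hm hv
  have hs := c.slab (i + 1) hiK v hv1
  have hvi : v ∈ c.S i := c.sub i hiK hv1
  have hη' := hη i hiK
  have hlen : w.reverse.length = w.length := SimpleGraph.Walk.length_reverse w
  have h1 := (c.sep_lip (fun j hj => by have := hη j hj; omega) hiK hvi
    (fun j hj => hs j (by omega)) w.reverse (by omega)).1
  have h2 := (hs i (Nat.lt_succ_self i)).1
  have h3 := hz.2
  omega

/-- The hubs are not empty if `S K` is large.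
PROOF. Suppose `a i < h i`. For `z ∈ {y, y'}`: `z ∈ S K`, `f i z ≤ a i + r + h K < h i + r + h K` (`slab` for `K`), and `z` is joined to `o i` by a walk of length `f i z` (`Lev.geo`, `seq_near`, `z ∈ S i`), so `NearN G (2 * (h i + r + h K)) y y'`. -/
theorem Chain.a_ge (c : Chain G K r h) {i : ℕ} (hi : i < K) {y y' : V} (hy : y ∈ c.S K)
    (hy' : y' ∈ c.S K) (hfar : ¬ NearN G (2 * (h i + r + h K)) y y') : h i ≤ c.a i := by
  by_contra hlt
  have hlt' := not_le.1 hlt
  have key : ∀ z ∈ c.S K, NearN G (h i + r + h K) z (c.o i) := by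
    intro z hz
    have h1 := (c.slab K le_rfl z hz i hi).2
    have hzi : z ∈ c.S i := c.sub_le hi.le le_rfl hz
    obtain ⟨g, g0, -, -, hadj, hlast⟩ := (c.lev i hi).geo hzi
    have h2 := seq_near g (Nat.zero_le (c.f i z)) fun n _ hn => hadj n hn
    rw [g0, hlast _ le_rfl] at h2
    exact h2.mono (by omega)
  refine hfar (((key y hy).trans (key y' hy').symm).mono ?_)
  omega

end Pool.Agent.MP_fd1949_P
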