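import Mathlib
import Pool.Agent.Lib.MP_fd1949_P.Struct
import Pool.Agent.Lib.MP_fd1949_P.MkFat
import Pool.Agent.Lib.MP_fd1949_P.HubL

/-!
# No grazing: a fat complete graph
-/

namespace Pool.Agent.MP_fd1949_P

open Pool.Agent.MP_fd1949_co

section aux

variable {V : Type} {G : SimpleGraph V} {K r : ℕ} {h : ℕ → ℕ} {c : Chain G K r h} {t : ℕ}

/-- the part of the geodesics in the hub -/
private def CaseA_B (I : Fin t → ℕ) (ρ : Roots c (Sym2 (Fin t))) (a : Fin t) : Set V :=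
  {z | z = c.o (I a) ∨ ∃ e, a ∈ e ∧ ∃ n ≤ c.f (I a) (ρ.y e),
    c.f (I a) (ρ.g (I a) e n) + h (I a) ≤ c.a (I a) ∧ z = ρ.g (I a) e n}

/-- the legs -/
private def CaseA_Q (I : Fin t → ℕ) (ρ : Roots c (Sym2 (Fin t))) (e : Sym2 (Fin t)) : Set V :=
  {z | ∃ a ∈ e, ∃ n ≤ c.f (I a) (ρ.y e),
    c.a (I a) ≤ c.f (I a) (ρ.g (I a) e n) + h (I a) ∧ z = ρ.g (I a) e n}

private theorem CaseA_anti {η : ℕ} (hη : ∀ i < K, h (i + 1) + η ≤ h i) {i j : ℕ} (hij : i ≤ j)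
    (hj : j ≤ K) : h j ≤ h i := by
  induction j, hij using Nat.le_induction with
  | base => exact le_rfl
  | succ j hij ih =>
    have h1 := hη j (by omega)
    have h2 := ih (by omega)
    omega

private theorem CaseA_conn (I : Fin t → ℕ) (hIK : ∀ a, I a < K) (ρ : Roots c (Sym2 (Fin t)))
    (a : Fin t) : Conn G (CaseA_B I ρ a) := by
  refine conn_of_root (c.o (I a)) ?_
  rintro z (rfl | ⟨e, hae, n, hn, hf, rfl⟩)
  · refine ⟨.nil, fun u hu => ?_⟩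
    rw [SimpleGraph.Walk.support_nil, List.mem_singleton] at hu
    exact Or.inl hu
  · obtain ⟨w, -, hw⟩ := seq_walk (ρ.g (I a) e) hn
      (fun m _ hm => ρ.adj (I a) (hIK a) e m hm)
    have hlast := ρ.last (I a) (hIK a) e _ le_rfl
    refine ⟨w.reverse.copy hlast rfl, fun u hu => ?_⟩
    rw [SimpleGraph.Walk.support_copy, SimpleGraph.Walk.support_reverse, List.mem_reverse] at hu
    obtain ⟨m, hm1, hm2, rfl⟩ := hw u hu
    refine Or.inr ⟨e, hae, m, hm2, ?_, rfl⟩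
    have h1 := ρ.lev (I a) (hIK a) e n hn
    have h2 := ρ.lev (I a) (hIK a) e m hm2
    omega

private theorem CaseA_sub (I : Fin t → ℕ) (hIK : ∀ a, I a < K) (ρ : Roots c (Sym2 (Fin t)))
    (ha : ∀ i < K, h i ≤ c.a i) (a : Fin t) : CaseA_B I ρ a ⊆ c.T (I a) := by
  rintro z (rfl | ⟨e, -, n, -, hf, rfl⟩)
  · have h1 := c.lev (I a) (hIK a)
    have h2 := ha (I a) (hIK a)
    exact ⟨h1.mem, by rw [h1.zero]; omega⟩
  · exact ⟨ρ.inS (I a) (hIK a) e n, hf⟩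

/-- every point of `B b` is on the geodesics of level `I b` -/
private theorem CaseA_pt (I : Fin t → ℕ) (hIK : ∀ a, I a < K) (ρ : Roots c (Sym2 (Fin t)))
    (ha : ∀ i < K, h i ≤ c.a i) (b : Fin t) {z : V} (hz : z ∈ CaseA_B I ρ b) :
    ∃ e, b ∈ e ∧ ∃ n ≤ c.f (I b) (ρ.y e),
      c.f (I b) (ρ.g (I b) e n) + h (I b) ≤ c.a (I b) ∧ z = ρ.g (I b) e n := by
  rcases hz with rfl | hz
  · have h1 := c.lev (I b) (hIK b)
    have h2 := ha (I b) (hIK b)
    have h3 := ρ.last (I b) (hIK b) s(b, b) _ le_rfl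
    refine ⟨s(b, b), Sym2.mem_mk_left b b, _, le_rfl, ?_, h3.symm⟩
    rw [h3, h1.zero]
    omega
  · exact hz

/-- the leg -/
private theorem CaseA_leg {η : ℕ} (hη : ∀ i < K, h (i + 1) + η ≤ h i) (I : Fin t → ℕ)
    (hIK : ∀ a, I a < K) (ρ : Roots c (Sym2 (Fin t))) (ha : ∀ i < K, h i ≤ c.a i) (a : Fin t)
    {e : Sym2 (Fin t)} (hae : a ∈ e) :
    ∃ x ∈ CaseA_B I ρ a, ∃ w : G.Walk (ρ.y e) x, ∀ z ∈ w.support, z ∈ CaseA_Q I ρ e := by
  have h1 := (c.slab K le_rfl (ρ.y e) (ρ.mem e) (I a) (hIK a)).1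
  have h2 := ha (I a) (hIK a)
  have h3 : h K ≤ h (I a) := CaseA_anti hη (hIK a).le le_rfl
  obtain ⟨n₀, hn₀, hn₀'⟩ : ∃ n₀, n₀ ≤ c.f (I a) (ρ.y e) ∧
      c.f (I a) (ρ.y e) = n₀ + (c.a (I a) - h (I a)) :=
    ⟨c.f (I a) (ρ.y e) - (c.a (I a) - h (I a)), by omega, by omega⟩
  have h4 := ρ.lev (I a) (hIK a) e n₀ hn₀
  obtain ⟨w, -, hw⟩ := seq_walk (ρ.g (I a) e) (Nat.zero_le n₀)
    (fun m _ hm => ρ.adj (I a) (hIK a) e m (by omega))
  refine ⟨ρ.g (I a) e n₀, Or.inr ⟨e, hae, n₀, hn₀, by omega, rfl⟩,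
    w.copy (ρ.start (I a) (hIK a) e) rfl, fun z hz => ?_⟩
  rw [SimpleGraph.Walk.support_copy] at hz
  obtain ⟨m, -, hm, rfl⟩ := hw z hz
  have h5 := ρ.lev (I a) (hIK a) e m (by omega)
  exact ⟨a, hae, m, by omega, by omega, rfl⟩

/-- the legs are short -/
private theorem CaseA_near {η : ℕ} (hη : ∀ i < K, h (i + 1) + η ≤ h i) (I : Fin t → ℕ)
    (hIK : ∀ a, I a < K) (ρ : Roots c (Sym2 (Fin t))) {e : Sym2 (Fin t)} {z : V}
    (hz : z ∈ CaseA_Q I ρ e) : NearN G (h 0 + r + h K) (ρ.y e) z := by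
  obtain ⟨a, -, n, hn, hf, rfl⟩ := hz
  have h1 := (c.slab K le_rfl (ρ.y e) (ρ.mem e) (I a) (hIK a)).2
  have h2 := ρ.lev (I a) (hIK a) e n hn
  have h3 : h (I a) ≤ h 0 := CaseA_anti hη (Nat.zero_le _) (hIK a).le
  have h4 := seq_near (ρ.g (I a) e) (Nat.zero_le n)
    (fun m _ hm => ρ.adj (I a) (hIK a) e m (by omega))
  rw [ρ.start (I a) (hIK a) e] at h4
  exact h4.mono (by omega)

end aux

/-- CASE A (section 3 of the text).
PROOF. `mkFat` for `⊤`, with `B a` = `CaseA_B` (the point `c.o (I a)` and the parts of the geodesics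
in the hub; contained in `c.T (I a)`, connected from `o`) and `Q e` = `CaseA_Q` (the legs). The legs
are in the balls of radius `h 0 + r + h K` around `ρ.y e`. `farBB`: `hub_far`. `farQQ`: the balls
around different `ρ.y e` and `hΔ`. `farQB`: a point `z = ρ.g (I a) e n` of a leg, `a ∈ e`, and a
vertex `b ∉ e`, so `a ≠ b`. If `I b < I a`: `z ∈ S (I a)` and `B b ⊆ T (I b)`: `hub_far`.
If `I a < I b`: excluded by `hng` (`CaseA_pt`). -/
theorem caseA {V : Type} {G : SimpleGraph V} {K r : ℕ} {h : ℕ → ℕ} (c : Chain G K r h)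
    {η q q₁ Δ t : ℕ} (hη : ∀ i < K, h (i + 1) + η ≤ h i) (I : Fin t → ℕ) (hI : StrictMono I)
    (hIK : ∀ a, I a < K) (ρ : Roots c (Sym2 (Fin t)))
    (hfar : ∀ e e', e ≠ e' → ∀ w : G.Walk (ρ.y e) (ρ.y e'), Δ ≤ w.length)
    (hΔ : q + 2 * (h 0 + r + h K) ≤ Δ) (hqη : q ≤ η) (hq₁ : q ≤ q₁ + 1)
    (ha : ∀ i < K, h i ≤ c.a i)
    (hng : ∀ a b, a < b → ∀ d e, d ≠ e → ¬ ρ.Graze q₁ (I a) (I b) d e) :
    ∃ B P, IsFatMinor G (⊤ : SimpleGraph (Fin t)) q B P := by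
  classical
  have hmk : ∀ a b, a < b → Far G q (CaseA_B I ρ a) (CaseA_B I ρ b) := fun a b hab =>
    (c.hub_far hη (hI hab) (hIK b).le).mono hqη (CaseA_sub I hIK ρ ha a)
      (fun z hz => (CaseA_sub I hIK ρ ha b hz).1)
  refine mkFat (⊤ : SimpleGraph (Fin t)) q (CaseA_B I ρ) (CaseA_Q I ρ)
    (fun a => ⟨c.o (I a), Or.inl rfl⟩) (CaseA_conn I hIK ρ) ?_ ?_ ?_ ?_
  · intro e he
    induction e using Sym2.ind with
    | _ a b =>
      obtain ⟨x, hx, w, hw⟩ := CaseA_leg hη I hIK ρ ha a (Sym2.mem_mk_left a b)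
      obtain ⟨y, hy, w', hw'⟩ := CaseA_leg hη I hIK ρ ha b (Sym2.mem_mk_right a b)
      refine ⟨a, b, rfl, x, hx, y, hy, w.reverse.append w', fun z hz => ?_⟩
      rcases (SimpleGraph.Walk.mem_support_append_iff _ _).1 hz with hz | hz
      · rw [SimpleGraph.Walk.support_reverse, List.mem_reverse] at hz
        exact hw z hz
      · exact hw' z hz
  · intro a b hab
    rcases lt_or_gt_of_ne hab with hlt | hlt
    · exact hmk a b hlt
    · exact (hmk b a hlt).symm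
  · intro e _ e' _ hne
    refine far_of ?_
    intro z hz z' hz' m hm hn
    obtain ⟨w, hw⟩ := ((CaseA_near hη I hIK ρ hz).trans hn).trans
      (CaseA_near hη I hIK ρ hz').symm
    have := hfar e e' hne w
    omega
  · intro e _ b hb
    refine far_of ?_
    intro z hz z' hz' m hm hn
    obtain ⟨a, hae, n, hnl, hf, rfl⟩ := hz
    have hab : a ≠ b := fun h => hb (h ▸ hae)
    rcases lt_or_gt_of_ne hab with hlt | hlt
    · obtain ⟨e', hbe', n', hn', hf', rfl⟩ := CaseA_pt I hIK ρ ha b hz'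
      have hne : e' ≠ e := fun h => hb (h ▸ hbe')
      exact hng a b hlt e' e hne ⟨n', n, hn', hf', hnl, hf, hn.symm.mono (by omega)⟩
    · exact (c.hub_far hη (hI hlt) (hIK a).le).not_near (m := m) (by omega)
        (CaseA_sub I hIK ρ ha b hz') (ρ.inS (I a) (hIK a) e n) hn.symm

end Pool.Agent.MP_fd1949_P
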