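import Mathlib
import Pool.Agent.Lib.MP_fd1949_P.Struct
import Pool.Agent.Lib.MP_fd1949_P.SepL

/-!
# Contacts of a column with the hub of a deeper level
-/

namespace Pool.Agent.MP_fd1949_P

open Pool.Agent.MP_fd1949_co

variable {V : Type} {G : SimpleGraph V} {K r : ℕ} {h : ℕ → ℕ}

private lemma window_anti (hh : ∀ i < K, h (i + 1) ≤ h i) {i j : ℕ} (hij : i ≤ j) (hj : j ≤ K) :
    h j ≤ h i := by
  induction j, hij using Nat.le_induction with
  | base => exact le_rfl
  | succ b hab ih => exact (hh b (by omega)).trans (ih (by omega))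

private lemma window_walk (c : Chain G K r h) {ι : Type} (ρ : Roots c ι) {i : ℕ} (hi : i < K)
    (e : ι) {n : ℕ} (hn : n ≤ c.f i (ρ.y e)) :
    ∃ w : G.Walk (ρ.y e) (ρ.g i e n), w.length = n := by
  obtain ⟨w, hw, -⟩ := seq_walk (ρ.g i e) (Nat.zero_le n)
    fun m _ hm => ρ.adj i hi e m (by omega)
  exact ⟨w.copy (ρ.start i hi e) rfl, by rw [SimpleGraph.Walk.length_copy, hw, Nat.sub_zero]⟩

/-- (CONTACT), section 4 (c).
PROOF. Write `y = ρ.y e`, `z = ρ.g i e n`, `n ≤ c.f i y`. Lower bound: the walk from `y` along the geodesic to `z` (length `n`, `seq_walk`, `ρ.start`) followed by a walk of length `≤ q₁` to `p`: if its length `l ≤ n + q₁` satisfies `l + r ≤ h m` then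
`sep_lip` at level `m` from `y ∈ S K ⊆ S m`, which satisfies the slab condition with `h K = r` (`slab` for `K`), gives `f m y ≤ f m p + l`; with `a m ≤ f m y + r` and `f m p + h m ≤ a m` we get `h m ≤ l + r`. So `h m ≤ n + q₁ + r` in any case.
Upper bound: `p ∈ S m ⊆ S i`, and `p` satisfies the slab condition for all `j < m` with `h m` (`slab` for `m`), in particular for all `j < i` and `a i ≤ f i p + h m`. `sep_lip` at level `i` from `p` along the walk from `p` to `z` (`q₁ + h m ≤ h i` because `h m + η ≤ h i`,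
`q₁ ≤ η`): `f i p ≤ f i z + q₁`. And `f i z + n = f i y ≤ a i + r + h K`. So `n ≤ r + r + h m + q₁`. -/
theorem contact (c : Chain G K r h) {η q₁ : ℕ} {ι : Type} (hη : ∀ i < K, h (i + 1) + η ≤ h i)
    (hK : h K = r) (hq₁ : q₁ ≤ η) (ρ : Roots c ι) {i m : ℕ} (him : i < m) (hm : m < K) {p : V}
    (hp : p ∈ c.T m) {e : ι} {n : ℕ} (hn : n ≤ c.f i (ρ.y e)) (hnear : NearN G q₁ p (ρ.g i e n)) :
    n ≤ h m + (2 * r + q₁) ∧ h m ≤ n + (2 * r + q₁) := by
  have hh : ∀ i < K, h (i + 1) ≤ h i := fun i hi => by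
    have := hη i hi
    omega
  have hy := ρ.mem e
  obtain ⟨w1, hw1⟩ := window_walk c ρ (him.trans hm) e hn
  obtain ⟨w2, hw2⟩ := hnear
  have hslab := c.slab K le_rfl _ hy
  constructor
  · have hpS : p ∈ c.S i := c.sub_le him.le hm.le hp.1
    have hps := c.slab m hm.le _ hp.1
    have h1 := window_anti hh (Nat.succ_le_of_lt him) hm.le
    have h2 := hη i (him.trans hm)
    have h3 := c.sep_lip hh (him.trans hm) hpS
      (fun j hj => hps j (hj.trans him)) w2 (by
        simp only [Nat.succ_eq_add_one] at h1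
        omega)
    have h4 := ρ.lev i (him.trans hm) e n hn
    have h5 := (hslab i (him.trans hm)).2
    have h6 := (hps i him).1
    omega
  · by_contra hcon
    push Not at hcon
    have hyS : ρ.y e ∈ c.S m := c.sub_le hm.le le_rfl hy
    have hl : (w1.append w2.reverse).length = n + w2.length := by
      rw [SimpleGraph.Walk.length_append, SimpleGraph.Walk.length_reverse, hw1]
    have h3 := c.sep_lip hh hm (n := r) hyS
      (fun j hj => by
        have := hslab j (hj.trans hm)
        rw [hK] at this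
        exact this) (w1.append w2.reverse) (by omega)
    have h4 := (hslab m hm).1
    have h5 := hp.2
    omega

/-- The first part of a root geodesic is a geodesic of `G`, section 4 (a).
PROOF. Let `w` be a walk of length `l` from `ρ.g i e n` to `ρ.g i e n'` with `n + l < n'`. The point `v = ρ.g i e n ∈ S i` satisfies the slab condition for all `j < i` with `h K + n`: for each `j < i` the point `y = ρ.y e` satisfies it with `h K` (`slab` for `K`),
and `f j y`, `f j v` differ by at most `n` by `sep_lip` at level `j` from `y` along the geodesic (`n + h K ≤ h i ≤ h j`). As `l + (h K + n) ≤ h K + n' ≤ h i`, `sep_lip` at level `i` gives `f i v ≤ f i (ρ.g i e n') + l`, that is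
`f i y - n ≤ f i y - n' + l` (`ρ.lev`; `n' ≤ h i - h K ≤ f i y` because `h i ≤ a i ≤ f i y + h K`), so `n' ≤ n + l`. -/
theorem root_geo (c : Chain G K r h) {ι : Type} (hh : ∀ i < K, h (i + 1) ≤ h i)
    (ha : ∀ i < K, h i ≤ c.a i) (ρ : Roots c ι) {i : ℕ} (hi : i < K) {e : ι} {n n' : ℕ}
    (hnn : n ≤ n') (hn' : n' + h K ≤ h i) (w : G.Walk (ρ.g i e n) (ρ.g i e n')) :
    n' ≤ n + w.length := by
  have hy := ρ.mem e
  have hslab := c.slab K le_rfl _ hy
  have h1 := (hslab i hi).1
  have h2 := ha i hi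
  by_contra hcon
  push Not at hcon
  have hv := ρ.inS i hi e n
  obtain ⟨w1, hw1⟩ := window_walk c ρ hi e (n := n) (by omega)
  have hvs : ∀ j < i, c.a j ≤ c.f j (ρ.g i e n) + (h K + n) ∧
      c.f j (ρ.g i e n) ≤ c.a j + r + (h K + n) := by
    intro j hj
    have h3 := window_anti hh hj.le hi.le
    have h4 := c.sep_lip hh (hj.trans hi) (c.sub_le (hj.trans hi).le le_rfl hy)
      (fun j' hj' => hslab j' (hj'.trans (hj.trans hi))) w1 (by omega)
    have h5 := hslab j (hj.trans hi)
    omega
  have h6 := c.sep_lip hh hi hv hvs w (by omega)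
  have h7 := ρ.lev i hi e n (by omega)
  have h8 := ρ.lev i hi e n' (by omega)
  omega

end Pool.Agent.MP_fd1949_P
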