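import Mathlib
import Pool.Agent.Lib.MP_fd1949_P.Struct
import Pool.Agent.Lib.MP_fd1949_P.HubL
import Pool.Agent.Lib.MP_fd1949_P.Window

/-!
# The comb of a grazing configuration
-/

namespace Pool.Agent.MP_fd1949_P

open Pool.Agent.MP_fd1949_co

/-- Section 4: the comb. (`Θ = h i₀ - h K`, `ω₀ = 2 * r + q₁`, heights `t a = h (I a)`.)
PROOF. `col j n = ρ.g i₀ (e j) n`, `R a n = ρ.g (I a) d (n + n₀)` with `n₀ = f (y d) - (a - h)` at level `I a` (so `f = a - h` there), `len a = c.a (I a) - h (I a)`; all `R a n`, `n ≤ len a`, are in `c.T (I a)` (`ρ.lev`, `ρ.inS`).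
`Θ ≤ f i₀ (y (e j))` as `h i₀ ≤ a i₀ ≤ f + h K`. `col_adj`: `ρ.adj`. `col_geo`: `root_geo`. `col_far`: both points are within `Θ ≤ h 0` of `ρ.y (e j)`, `ρ.y (e j')` (`seq_near`, `ρ.start`), and `e` is injective. `row_adj`: `ρ.adj`. `row_far`: `hub_far` (for `I m < I m'` or conversely; `T ⊆ S`).
`t_le`: `h (I a) + η ≤ h i₀` (chain of `hη`; prove `h j + η ≤ h i` for `i < j ≤ K`), `h K = r ≤ η`. `t_gap`: the same. `cp`: `contact` with `n' ≤ Θ ≤ f`. `meet`: `hg a j` gives `n, n'` with `NearN G q₁ (ρ.g (I a) d n) (ρ.g i₀ (e j) n')`, `ρ.g (I a) d n ∈ T (I a)` is a point of the row (`n ≥ n₀` by `ρ.lev`),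
`contact` gives `|n' - h (I a)| ≤ ω₀`, and the points `n'` and `h (I a)` of the root geodesic are joined along it (both indices are `≤ f i₀ (y (e j))`, `seq_near`, symmetric cases). -/
theorem exists_comb {V : Type} {G : SimpleGraph V} {K r : ℕ} {h : ℕ → ℕ} (c : Chain G K r h)
    {η q₁ Δ Δ' k N : ℕ} {ι : Type} (hη : ∀ i < K, h (i + 1) + η ≤ h i) (hK : h K = r)
    (hηr : r + q₁ ≤ η) (i₀ : ℕ) (hi₀ : i₀ < K) (I : Fin k → ℕ) (hI : StrictMono I)
    (hi₀I : ∀ a, i₀ < I a) (hIK : ∀ a, I a < K) (ρ : Roots c ι) (d : ι) (e : Fin N → ι)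
    (he : Function.Injective e)
    (hfar : ∀ i j, i ≠ j → ∀ w : G.Walk (ρ.y i) (ρ.y j), Δ ≤ w.length)
    (hΔ : Δ' + 2 * h 0 ≤ Δ) (ha : ∀ i < K, h i ≤ c.a i)
    (hg : ∀ a j, ρ.Graze q₁ i₀ (I a) d (e j)) :
    Nonempty (Comb G k N q₁ (2 * r + q₁) η Δ' (h i₀ - h K)) := by
  classical
  have hstep : ∀ j, ∀ i, i < j → j ≤ K → h j + η ≤ h i := by
    intro j
    induction j with
    | zero => intro i hi; omega
    | succ j ih =>
      intro i hij hjK
      have h1 := hη j (by omega)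
      rcases Nat.lt_succ_iff_lt_or_eq.1 hij with h2 | h2
      · have := ih i h2 (by omega)
        omega
      · subst h2
        exact h1
  have hh : ∀ i < K, h (i + 1) ≤ h i := fun i hi => by
    have := hη i hi
    omega
  have hanti : ∀ i, i ≤ K → h i ≤ h 0 := by
    intro i hi
    rcases Nat.eq_zero_or_pos i with h1 | h1
    · subst h1
      exact le_rfl
    · have := hstep i 0 h1 hi
      omega
  have hKi : ∀ i, i < K → h K + η ≤ h i := fun i hi => hstep K i hi le_rfl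
  -- the rows
  set n₀ : Fin k → ℕ := fun a => c.f (I a) (ρ.y d) - (c.a (I a) - h (I a)) with hn₀
  have hn₀' : ∀ a, n₀ a + (c.a (I a) - h (I a)) = c.f (I a) (ρ.y d) := by
    intro a
    have h1 := (c.slab K le_rfl _ (ρ.mem d) (I a) (hIK a)).1
    have h2 := ha (I a) (hIK a)
    have h3 := hKi (I a) (hIK a)
    simp only [hn₀]
    omega
  have hT : ∀ a n, n ≤ c.a (I a) - h (I a) → ρ.g (I a) d (n + n₀ a) ∈ c.T (I a) := by
    intro a n hn
    have h0 := hn₀' a
    have h1 := ρ.lev (I a) (hIK a) d (n + n₀ a) (by omega)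
    have h2 := ha (I a) (hIK a)
    exact ⟨ρ.inS (I a) (hIK a) d _, by omega⟩
  have hΘ : ∀ e', h i₀ - h K ≤ c.f i₀ (ρ.y e') := by
    intro e'
    have h1 := (c.slab K le_rfl _ (ρ.mem e') i₀ hi₀).1
    have h2 := ha i₀ hi₀
    omega
  have htle : ∀ a, h (I a) ≤ h i₀ - h K := by
    intro a
    have h1 := hstep (I a) i₀ (hi₀I a) (hIK a).le
    omega
  refine ⟨{
    col := fun j n => ρ.g i₀ (e j) n
    t := fun a => h (I a)
    R := fun a n => ρ.g (I a) d (n + n₀ a)
    len := fun a => c.a (I a) - h (I a)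
    col_adj := fun j n hn => ρ.adj i₀ hi₀ (e j) n (lt_of_lt_of_le hn (hΘ (e j)))
    col_geo := fun j n n' hnn hn' w => by
      have h1 := hKi i₀ hi₀
      exact root_geo c hh ha ρ hi₀ hnn (by omega) w
    col_far := ?_
    row_adj := ?_
    row_far := ?_
    t_le := htle
    t_gap := fun m m' hm => hstep (I m') (I m) (hI hm) (hIK m').le
    meet := ?_
    cp := ?_ }⟩
  · intro j j' hjj n n' hn hn' w
    have h1 := hΘ (e j)
    have h2 := hΘ (e j')
    have h3 := hanti i₀ hi₀.le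
    have hw1 := seq_near (G := G) (ρ.g i₀ (e j)) (Nat.zero_le n)
      fun m _ hm => ρ.adj i₀ hi₀ (e j) m (by omega)
    have hw2 := seq_near (G := G) (ρ.g i₀ (e j')) (Nat.zero_le n')
      fun m _ hm => ρ.adj i₀ hi₀ (e j') m (by omega)
    rw [ρ.start i₀ hi₀, Nat.sub_zero] at hw1 hw2
    obtain ⟨w', hw'⟩ := (hw1.trans ⟨w, le_rfl⟩).trans hw2.symm
    have h4 := hfar _ _ (fun hc => hjj (he hc)) w'
    omega
  · intro m n hn
    have h0 := hn₀' m
    have h1 := ρ.adj (I m) (hIK m) d (n + n₀ m) (by omega)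
    have h2 : n + n₀ m + 1 = n + 1 + n₀ m := by omega
    rw [h2] at h1
    exact h1
  · intro m m' hmm n n' hn hn' w
    rcases lt_or_gt_of_ne (fun hc => hmm (hI.injective hc) : I m ≠ I m') with h1 | h1
    · exact c.hub_far hη h1 (hIK m').le _ (hT m n hn) _ (hT m' n' hn').1 w
    · have := c.hub_far hη h1 (hIK m).le _ (hT m' n' hn') _ (hT m n hn).1 w.reverse
      rwa [SimpleGraph.Walk.length_reverse] at this
  · intro m j
    obtain ⟨n, n', hn, hna, hn', -, hnear⟩ := hg m j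
    have h0 := hn₀' m
    have h1 := ρ.lev (I m) (hIK m) d n hn
    have h2 := ha (I m) (hIK m)
    have hn0 : n₀ m ≤ n := by omega
    have hTn : ρ.g (I m) d n ∈ c.T (I m) := ⟨ρ.inS (I m) (hIK m) d _, hna⟩
    obtain ⟨h3, h4⟩ := contact c hη hK (by omega) ρ (hi₀I m) (hIK m) hTn hn' hnear
    have h5 := hΘ (e j)
    have h6 := htle m
    refine ⟨n - n₀ m, by omega, ?_⟩
    have h7 : n - n₀ m + n₀ m = n := by omega
    rw [h7]
    refine hnear.trans ?_
    rcases le_total n' (h (I m)) with h8 | h8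
    · exact (seq_near (ρ.g i₀ (e j)) h8 fun l _ hl => ρ.adj i₀ hi₀ (e j) l (by omega)).mono
        (by omega)
    · exact (seq_near (ρ.g i₀ (e j)) h8 fun l _ hl =>
        ρ.adj i₀ hi₀ (e j) l (by omega)).symm.mono (by omega)
  · intro m j n n' hn hn' hnear
    have h5 := hΘ (e j)
    exact contact c hη hK (by omega) ρ (hi₀I m) (hIK m) (hT m n hn) (by omega) hnear

end Pool.Agent.MP_fd1949_P
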