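import Mathlib
import Pool.Agent.Lib.MP_fd1949_P.Struct
import Pool.Agent.Lib.MP_fd1949_P.MkFat

/-!
# Aligned linear rows give a fat grid
-/

namespace Pool.Agent.MP_fd1949_P

open Pool.Agent.MP_fd1949_co

/-- A chain of connected sets, consecutive ones meet. -/
private theorem linB_chain {V : Type} {G : SimpleGraph V} (F : ℕ → Set V) {a b : ℕ} (hab : a ≤ b)
    (hc : ∀ j, a ≤ j → j ≤ b → Conn G (F j))
    (hm : ∀ j, a ≤ j → j < b → (F j ∩ F (j + 1)).Nonempty) :
    ∀ x ∈ F a, ∀ y ∈ F b, ∃ w : G.Walk x y, ∀ z ∈ w.support, ∃ j, a ≤ j ∧ j ≤ b ∧ z ∈ F j := by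
  induction b, hab using Nat.le_induction with
  | base =>
    intro x hx y hy
    obtain ⟨w, hw⟩ := hc a le_rfl le_rfl x hx y hy
    exact ⟨w, fun z hz => ⟨a, le_rfl, le_rfl, hw z hz⟩⟩
  | succ b hab ih =>
    intro x hx y hy
    obtain ⟨u, hu1, hu2⟩ := hm b hab (by omega)
    obtain ⟨w, hw⟩ := ih (fun j h1 h2 => hc j h1 (by omega)) (fun j h1 h2 => hm j h1 (by omega))
      x hx u hu1
    obtain ⟨w', hw'⟩ := hc (b + 1) (by omega) le_rfl u hu2 y hy
    refine ⟨w.append w', fun z hz => ?_⟩
    rcases (SimpleGraph.Walk.mem_support_append_iff _ _).1 hz with hz | hz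
    · obtain ⟨j, h1, h2, h3⟩ := hw z hz
      exact ⟨j, h1, by omega, h3⟩
    · exact ⟨b + 1, by omega, le_rfl, hw' z hz⟩

/-- The edges of the grid are horizontal or vertical. -/
private theorem linB_edge {k : ℕ} {s : Sym2 (Fin k × Fin k)} (hs : s ∈ (grid k).edgeSet) :
    (∃ a b b' : Fin k, b.val + 1 = b'.val ∧ s = s((a, b), (a, b'))) ∨
      ∃ a a' b : Fin k, a.val + 1 = a'.val ∧ s = s((a, b), (a', b)) := by
  induction s using Sym2.ind with
  | _ u v =>
    obtain ⟨u1, u2⟩ := u
    obtain ⟨v1, v2⟩ := v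
    rw [SimpleGraph.mem_edgeSet, SimpleGraph.boxProd_adj, SimpleGraph.pathGraph_adj,
      SimpleGraph.pathGraph_adj] at hs
    dsimp only at hs
    rcases hs with ⟨h | h, rfl⟩ | ⟨h | h, rfl⟩
    · exact Or.inr ⟨u1, v1, u2, h, rfl⟩
    · exact Or.inr ⟨v1, u1, u2, h, Sym2.eq_swap⟩
    · exact Or.inl ⟨u1, u2, v2, h, rfl⟩
    · exact Or.inl ⟨u1, v2, u2, h, Sym2.eq_swap⟩

/-- Section 4.4.
PROOF. `hlin a` gives `p a`, `F a`, `J a : Fin k → ℕ`. `mkFat` for `grid k` with `B (a, b) = F a (J a b)` (contains the ball of radius `ω` around `C.x (M a) (e b)`, contained in the ball of radius `ω + S` around it, and in `nbhd G (2 ω + S) (C.Row (M a))`) and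
`Q s = {z | ∃ a b b', b.val + 1 = b'.val ∧ s = s((a,b),(a,b')) ∧ ∃ j, J a b < j ∧ j < J a b' ∧ z ∈ F a j} ∪ {z | ∃ a a' b, a.val + 1 = a'.val ∧ s = s((a,b),(a',b)) ∧ ∃ n, C.t (M a') + q ≤ n ∧ n + q ≤ C.t (M a) ∧ z = C.col (e b) n}` (horizontal and vertical edges).
`hQ`: an edge of the grid is horizontal or vertical (`SimpleGraph.boxProd_adj`, `SimpleGraph.pathGraph_adj`). Horizontal: the union of the `F a j`, `J a b < j < J a b'` (at least one `j`) is connected (consecutive ones meet), contains a point of `F a (J a b)` and one of `F a (J a b')`. Vertical: `t (M a') + 2 q ≤ t (M a)` (`t_gap`, `2 q ≤ η`; `M` is strictly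
monotone), the part of the column between these heights (`seq_walk`, reversed or not), its ends are within `q ≤ ω` of the two centres, so in the balls.
`farBB`: `(a,b) ≠ (a',b')`: `a ≠ a'`: different rows, `row_far` and `q + 2 (2 ω + S) ≤ η`; `a = a'`: `F a j` with index difference `≥ 2`. `farQQ`, `farQB`, by cases (z in horizontal or vertical part): horizontal - horizontal, same row: the index intervals are separated by some `J a b''`, so the indices differ by at least 2; horizontal - `B` in the same row: the same;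
different rows: `row_far` as before (all horizontals and `B`'s are in `nbhd (2 ω + S)` of their rows). Vertical `(a,b)(a',b)` - horizontal in row `a''`: `LinSeq`, last clause, if the index is not `J`, and horizontals have indices different from all `J a'' b''` (strictly between two consecutive ones). Vertical in column `b` - `B (a'', b'')`, `b'' ≠ b`: last clause
(`J a'' b'' ≠ J a'' b`). Vertical in column `b`, heights between `t (M a') + q` and `t (M a) - q`, and `B (a'', b)`, `a'' ≠ a, a'`: `t (M a'')` is at distance `≥ η` from all heights of the vertical, `col_geo`, `q + ω + S ≤ η`. Vertical - vertical: different columns: `col_far`; same column: heights differ by at least `2 q` (`col_geo`), as different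
verticals of one column are separated by some `t (M a'')`. -/
theorem linB {V : Type} {G : SimpleGraph V} {l N q S q₁ ω₀ ω η Δ Θ k : ℕ}
    (C : Comb G l N q₁ ω₀ η Δ Θ) (hc : Cst N q S q₁ ω₀ ω η Δ) (M : Fin k → Fin l)
    (hM : StrictMono M) (e : Fin k → Fin N) (he : Function.Injective e)
    (hlin : ∀ a, LinSeq G q S (fun c => ball G (C.x (M a) c) ω) C.Col
      (nbhd G (2 * ω + S) (C.Row (M a))) e) :
    ∃ B P, IsFatMinor G (grid k) q B P := by
  obtain ⟨hq1, hS, hq₁, hω, hη, hΔ⟩ := hc
  choose p F J hF hmt hfar hJ hJm hcol using hlin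
  have hqω : q ≤ ω := by omega
  -- heights
  have hgap : ∀ a a' : Fin k, a < a' → C.t (M a') + η ≤ C.t (M a) := fun a a' h =>
    C.t_gap _ _ (hM h)
  have hgap' : ∀ a a' : Fin k, a ≤ a' → C.t (M a') ≤ C.t (M a) := by
    intro a a' h
    rcases h.lt_or_eq with h | h
    · have := hgap a a' h
      omega
    · rw [h]
  have hJm' : ∀ a (b b' : Fin k), b ≤ b' → J a b ≤ J a b' := by
    intro a b b' h
    rcases h.lt_or_eq with h | h
    · have := hJm a b b' h
      omega
    · rw [h]
  have hlt : ∀ b b' : Fin k, b.val + 1 = b'.val → ∀ b2 : Fin k, b2 ≤ b ∨ b' ≤ b2 := by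
    intro b b' h b2
    by_cases h1 : b2 ≤ b
    · exact Or.inl h1
    · right
      rw [Fin.le_def] at h1 ⊢
      omega
  -- different rows
  have hrow : ∀ a a2 : Fin k, a ≠ a2 → ∀ j ≤ p a, ∀ j2 ≤ p a2, Far G q (F a j) (F a2 j2) := by
    intro a a2 hne j hj j2 hj2
    have h1 : Far G (q + (2 * ω + S) + (2 * ω + S)) (C.Row (M a)) (C.Row (M a2)) := by
      rintro x ⟨n, hn, rfl⟩ y ⟨n', hn', rfl⟩ w
      have := C.row_far (M a) (M a2) (hM.injective.ne hne) n n' hn hn' w
      omega
    exact h1.nbhd.mono le_rfl (hF a j hj).2 (hF a2 j2 hj2).2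
  -- same row
  have hsame : ∀ a, ∀ j ≤ p a, ∀ j2 ≤ p a, j + 2 ≤ j2 ∨ j2 + 2 ≤ j → Far G q (F a j) (F a j2) := by
    intro a j hj j2 hj2 h
    rcases h with h | h
    · exact hfar a j j2 h hj2
    · exact (hfar a j2 j h hj).symm
  have hb' : ∀ a (b b' : Fin k), b.val + 1 = b'.val → ∀ j, J a b < j → j < J a b' → j ≤ p a := by
    intro a b b' _ j _ h2
    have := (hJ a b').1
    omega
  -- horizontal against column
  have hHV : ∀ a (b b' : Fin k), b.val + 1 = b'.val → ∀ j, J a b < j → j < J a b' →
      ∀ b2, Far G q (F a j) (C.Col (e b2)) := by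
    intro a b b' hbb j h1 h2 b2
    refine hcol a b2 j (hb' a b b' hbb j h1 h2) ?_
    rcases hlt b b' hbb b2 with h | h
    · have := hJm' a _ _ h
      omega
    · have := hJm' a _ _ h
      omega
  refine mkFat (grid k) q (fun v => F v.1 (J v.1 v.2))
    (fun s => {z | ∃ a b b' : Fin k, b.val + 1 = b'.val ∧ s = s((a, b), (a, b')) ∧
        ∃ j, J a b < j ∧ j < J a b' ∧ z ∈ F a j} ∪
      {z | ∃ a a' b : Fin k, a.val + 1 = a'.val ∧ s = s((a, b), (a', b)) ∧
        ∃ n, C.t (M a') + q ≤ n ∧ n + q ≤ C.t (M a) ∧ z = C.col (e b) n})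
    ?_ ?_ ?_ ?_ ?_ ?_
  · rintro ⟨a, b⟩
    exact ⟨_, (hJ a b).2.1 (mem_ball_self _ _)⟩
  · rintro ⟨a, b⟩
    exact (hF a _ (hJ a b).1).1
  · intro s hs
    rcases linB_edge hs with ⟨a, b, b', hbb, rfl⟩ | ⟨a, a', b, haa, rfl⟩
    · have hlt' : b < b' := by
        rw [Fin.lt_def]
        omega
      have h1 := hJm a b b' hlt'
      have h2 := (hJ a b').1
      obtain ⟨x, hx1, hx2⟩ := hmt a (J a b) (by omega)
      obtain ⟨y, hy1, hy2⟩ := hmt a (J a b' - 1) (by omega)
      rw [Nat.sub_add_cancel (by omega)] at hy2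
      obtain ⟨w, hw⟩ := linB_chain (F a) (a := J a b + 1) (b := J a b' - 1) (by omega)
        (fun j _ h4 => (hF a j (by omega)).1) (fun j _ h4 => hmt a j (by omega)) x hx2 y hy1
      refine ⟨(a, b), (a, b'), rfl, x, hx1, y, hy2, w, fun z hz => ?_⟩
      obtain ⟨j, h3, h4, h5⟩ := hw z hz
      exact Or.inl ⟨a, b, b', hbb, rfl, j, by omega, by omega, h5⟩
    · have hlt' : a < a' := by
        rw [Fin.lt_def]
        omega
      have h1 := hgap a a' hlt'
      have h2 := C.t_le (M a)
      have hadj : ∀ n, n < C.t (M a) → G.Adj (C.col (e b) n) (C.col (e b) (n + 1)) :=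
        fun n hn => C.col_adj (e b) n (by omega)
      obtain ⟨w, -, hw⟩ := seq_walk (C.col (e b)) (a := C.t (M a') + q) (b := C.t (M a) - q)
        (by omega) (fun n _ hn => hadj n (by omega))
      have hx : C.col (e b) (C.t (M a') + q) ∈ F a' (J a' b) := by
        refine (hJ a' b).2.1 ?_
        have h3 := seq_near (C.col (e b)) (a := C.t (M a')) (b := C.t (M a') + q) (by omega)
          (fun n _ hn => hadj n (by omega))
        exact h3.mono (by omega)
      have hy : C.col (e b) (C.t (M a) - q) ∈ F a (J a b) := by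
        refine (hJ a b).2.1 ?_
        have h3 := seq_near (C.col (e b)) (a := C.t (M a) - q) (b := C.t (M a)) (by omega)
          (fun n _ hn => hadj n (by omega))
        exact h3.symm.mono (by omega)
      refine ⟨(a', b), (a, b), Sym2.eq_swap, _, hx, _, hy, w, fun z hz => ?_⟩
      obtain ⟨n, h3, h4, h5⟩ := hw z hz
      exact Or.inr ⟨a, a', b, haa, rfl, n, h3, by omega, h5⟩
  · rintro ⟨a, b⟩ ⟨a2, b2⟩ hne
    dsimp only
    by_cases ha : a = a2
    · subst ha
      have hb : b ≠ b2 := fun h => hne (by rw [h])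
      refine hsame a _ (hJ a b).1 _ (hJ a b2).1 ?_
      rcases lt_or_gt_of_ne hb with h | h
      · exact Or.inl (hJm a _ _ h)
      · exact Or.inr (hJm a _ _ h)
    · exact hrow a a2 ha _ (hJ a b).1 _ (hJ a2 b2).1
  · intro s _ s' _ hss
    rintro z (⟨a, b, b', hbb, rfl, j, hj1, hj2, hz⟩ | ⟨a, a', b, haa, rfl, n, hn1, hn2, rfl⟩)
      z' (⟨a2, b2, b2', hbb2, rfl, j2, hj3, hj4, hz'⟩ | ⟨a2, a2', b2, haa2, rfl, n2, hn3, hn4, rfl⟩)
    · have hjp := hb' a b b' hbb j hj1 hj2
      have hjp2 := hb' a2 b2 b2' hbb2 j2 hj3 hj4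
      by_cases ha : a = a2
      · subst ha
        refine hsame a j hjp j2 hjp2 ?_ z hz z' hz'
        by_cases hb : b = b2
        · subst hb
          have : b' = b2' := Fin.ext (by omega)
          subst this
          exact absurd rfl hss
        · rcases hlt b b' hbb b2 with h | h
          · right
            have h1 : b2' ≤ b := by
              rw [Fin.le_def] at h ⊢
              have h2 : b2.val ≠ b.val := fun h3 => hb (Fin.ext h3.symm)
              omega
            have := hJm' a _ _ h1
            omega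
          · left
            have := hJm' a _ _ h
            omega
      · exact hrow a a2 ha j hjp j2 hjp2 z hz z' hz'
    · have h2 := C.t_le (M a2)
      exact hHV a b b' hbb j hj1 hj2 b2 z hz _ ⟨n2, by omega, rfl⟩
    · have h2 := C.t_le (M a)
      exact (hHV a2 b2 b2' hbb2 j2 hj3 hj4 b).symm _ ⟨n, by omega, rfl⟩ z' hz'
    · have h2 := C.t_le (M a)
      have h3 := C.t_le (M a2)
      intro w
      by_cases hb : b = b2
      · subst hb
        by_cases ha : a = a2
        · subst ha
          have : a' = a2' := Fin.ext (by omega)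
          subst this
          exact absurd rfl hss
        · rcases hlt a a' haa a2 with h | h
          · have h1 : a2' ≤ a := by
              rw [Fin.le_def] at h ⊢
              have h2 : a2.val ≠ a.val := fun h3 => ha (Fin.ext h3.symm)
              omega
            have h4 := hgap' _ _ h1
            have h5 := C.col_geo (e b) n n2 (by omega) (by omega) w
            omega
          · have h4 := hgap' _ _ h
            have h5 := C.col_geo (e b) n2 n (by omega) (by omega) w.reverse
            rw [SimpleGraph.Walk.length_reverse] at h5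
            omega
      · have h4 := C.col_far (e b) (e b2) (he.ne hb) n n2 (by omega) (by omega) w
        omega
  · rintro s _ ⟨a2, b2⟩ hv
    dsimp only
    rintro z (⟨a, b, b', hbb, rfl, j, hj1, hj2, hz⟩ | ⟨a, a', b, haa, rfl, n, hn1, hn2, rfl⟩) z' hz'
    · have hjp := hb' a b b' hbb j hj1 hj2
      by_cases ha : a = a2
      · subst ha
        refine hsame a j hjp _ (hJ a b2).1 ?_ z hz z' hz'
        have hn1 : b2 ≠ b := by
          rintro rfl
          exact hv (Sym2.mem_mk_left _ _)
        have hn2 : b2 ≠ b' := by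
          rintro rfl
          exact hv (Sym2.mem_mk_right _ _)
        rcases hlt b b' hbb b2 with h | h
        · right
          have := hJm a _ _ (lt_of_le_of_ne h hn1)
          omega
        · left
          have := hJm a _ _ (lt_of_le_of_ne h hn2.symm)
          omega
      · exact hrow a a2 ha j hjp _ (hJ a2 b2).1 z hz z' hz'
    · have h2 := C.t_le (M a)
      have h3 := C.t_le (M a2)
      by_cases hb : b = b2
      · subst hb
        have hn3 : a2 ≠ a := by
          rintro rfl
          exact hv (Sym2.mem_mk_left _ _)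
        have hn4 : a2 ≠ a' := by
          rintro rfl
          exact hv (Sym2.mem_mk_right _ _)
        obtain ⟨y, hy, hyz⟩ := (hJ a2 b).2.2 hz'
        have hyc : NearN G ω (C.col (e b) (C.t (M a2))) y := hy
        intro w
        by_contra hlt2
        have hw : NearN G w.length (C.col (e b) n) z' := ⟨w, le_rfl⟩
        obtain ⟨w', hw'⟩ := (hw.trans hyz.symm).trans hyc.symm
        rcases hlt a a' haa a2 with h | h
        · have h4 := hgap _ _ (lt_of_le_of_ne h hn3)
          have h5 := C.col_geo (e b) n (C.t (M a2)) (by omega) h3 w'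
          omega
        · have h4 := hgap _ _ (lt_of_le_of_ne h hn4.symm)
          have h5 := C.col_geo (e b) (C.t (M a2)) n (by omega) (by omega) w'.reverse
          rw [SimpleGraph.Walk.length_reverse] at h5
          omega
      · refine (hcol a2 b (J a2 b2) (hJ a2 b2).1 ?_).symm _ ⟨n, by omega, rfl⟩ z' hz'
        rcases lt_or_gt_of_ne hb with h | h
        · have := hJm a2 _ _ h
          omega
        · have := hJm a2 _ _ h
          omega

end Pool.Agent.MP_fd1949_P
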