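import Mathlib
import Pool.Agent.Lib.MP_fd1949_P.Struct
import Pool.Agent.Lib.MP_fd1949_P.RowsL
import Pool.Agent.Lib.MP_fd1949_P.FreeB
import Pool.Agent.Lib.MP_fd1949_P.LinRev
import Pool.Agent.Lib.MP_fd1949_P.LinB
import Pool.Agent.Lib.MP_fd1949_P.CompI

/-!
# A comb with many rows and columns gives a fat grid
-/

namespace Pool.Agent.MP_fd1949_P

open Pool.Agent.MP_fd1949_co

/-- Section 4.
PROOF. `n` = maximum of the number of `align k k` and `Fintype.card (Sym2 (Fin (k^2)))`; `N₂` of `all_rows (k^2 + k) n`. Let `D` be given by `all_rows`. If at least `k ^ 2` rows are free: `freeB` with an injection `M : Fin (k^2) → Fin (k^2+k)` onto free rows and an injection `Sym2 (Fin (k^2)) → D`; then `grid_of_top`. Otherwise at least `k` rows are linear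
(in fact more than `k`): take them in increasing order, `M : Fin k → Fin (k^2+k)` (`Finset.orderEmbOfFin` on a subset), obtain `p, F, J` for each (`choose`), `align` (the `J` are injective on `D` by the fifth clause), `linSeq_of`, `linB`. -/
theorem comb_fat (k : ℕ) : ∃ N₂ : ℕ, ∀ (V : Type) (G : SimpleGraph V)
    (N q S q₁ ω₀ ω η Δ Θ : ℕ) (_ : Comb G (k ^ 2 + k) N q₁ ω₀ η Δ Θ),
    Cst N q S q₁ ω₀ ω η Δ → N₂ ≤ N → ∃ B P, IsFatMinor G (grid k) q B P := by
  classical
  obtain ⟨n₁, hn₁⟩ := align k k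
  obtain ⟨N₂, hN₂⟩ := all_rows (k ^ 2 + k) (max n₁ (Fintype.card (Sym2 (Fin (k ^ 2)))))
  refine ⟨N₂, fun V G N q S q₁ ω₀ ω η Δ Θ C hc hN => ?_⟩
  obtain ⟨D, hD, hDm⟩ := hN₂ V G N q S q₁ ω₀ ω η Δ Θ C hc hN
  have hD1 : n₁ ≤ D.card := (le_max_left _ _).trans hD
  have hD2 : Fintype.card (Sym2 (Fin (k ^ 2))) ≤ D.card := (le_max_right _ _).trans hD
  by_cases hfr : k ^ 2 ≤ (Finset.univ.filter fun m => C.IsFree q S ω m D).card
  · set M := (Finset.univ.filter fun m => C.IsFree q S ω m D).orderEmbOfCardLe hfr with hM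
    have hMf : ∀ a, C.IsFree q S ω (M a) D := fun a =>
      (Finset.mem_filter.1 (Finset.orderEmbOfCardLe_mem _ hfr a)).2
    refine grid_of_top (freeB C hc M M.injective D
      (fun s => D.orderEmbOfCardLe hD2 (Fintype.equivFin _ s)) ?_ ?_ hMf)
    · exact (D.orderEmbOfCardLe hD2).injective.comp (Fintype.equivFin _).injective
    · exact fun s => Finset.orderEmbOfCardLe_mem _ hD2 _
  · have hcard : k ≤ (Finset.univ.filter fun m => ¬ C.IsFree q S ω m D).card := by
      have h1 := Finset.card_filter_add_card_filter_not (s := (Finset.univ : Finset (Fin (k ^ 2 + k))))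
        (fun m => C.IsFree q S ω m D)
      rw [Finset.card_univ, Fintype.card_fin] at h1
      omega
    set M := (Finset.univ.filter fun m => ¬ C.IsFree q S ω m D).orderEmbOfCardLe hcard with hM
    have hMl : ∀ a, C.IsLin q S ω (M a) D := fun a =>
      (hDm (M a)).resolve_left (Finset.mem_filter.1 (Finset.orderEmbOfCardLe_mem _ hcard a)).2
    choose p F J h1 h2 h3 h4 h5 h6 using hMl
    obtain ⟨e, he, heD, hmono⟩ := hn₁ (Fin N) D J hD1 (by
      intro a c hc' c' hc'' hne heq
      rcases h5 a c hc' c' hc'' hne with h | h <;> omega)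
    exact linB C hc M M.strictMono e he fun a =>
      linSeq_of e heD he (p a) (F a) (J a) (h1 a) (h2 a) (h3 a) (h4 a) (h5 a) (h6 a) (hmono a)

end Pool.Agent.MP_fd1949_P
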