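import Mathlib
import Pool.Agent.Lib.MP_fd1949_P.Struct

/-!
# Far apart points of a connected set of large diameter
-/

namespace Pool.Agent.MP_fd1949_P

open Pool.Agent.MP_fd1949_co

/-- PROOF. Take a walk `w` in `S` from `x` to `y`. So `G.Reachable x z` for its points `z`, and `G.dist x (w.getVert m)` changes by at most one when `m` increases by one (`SimpleGraph.Adj.diff_dist_adj` or the
triangle inequality), from `0` to `G.dist x y > N * Δ`. For `c < N` let `z c` be a point of the walk with `G.dist x (z c) = c * Δ` (the first `m` with `c * Δ ≤ G.dist x (w.getVert m)`, `Nat.find`). A walk from `z c` to `z c'` has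
length at least `|c * Δ - c' * Δ| ≥ Δ` (`SimpleGraph.Reachable`, triangle inequality for `dist` with the walk). -/
theorem locs {V : Type} {G : SimpleGraph V} {S : Set V} (hS : Conn G S) {x y : V} (hx : x ∈ S)
    (hy : y ∈ S) {N Δ : ℕ} (hfar : ¬ NearN G (N * Δ) x y) :
    ∃ z : Fin N → V, (∀ c, z c ∈ S) ∧
      ∀ c c', c ≠ c' → ∀ w : G.Walk (z c) (z c'), Δ ≤ w.length := by
  obtain ⟨w, hw⟩ := hS x hx y hy
  have hlt : N * Δ < G.dist x y := by
    by_contra h
    exact hfar (nearN_iff.2 ⟨⟨w⟩, not_lt.1 h⟩)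
  have hdist : ∀ a b : V, ∀ u : G.Walk a b, G.Reachable x a → G.dist x b ≤ G.dist x a + u.length := by
    intro a b u ha
    obtain ⟨u', hu'⟩ := ha.exists_walk_length_eq_dist
    have := SimpleGraph.dist_le (u'.append u)
    rwa [SimpleGraph.Walk.length_append, hu'] at this
  have hreach : ∀ m, G.Reachable x (w.getVert m) := fun m => ⟨w.take m⟩
  have hstep : ∀ m, G.dist x (w.getVert (m + 1)) ≤ G.dist x (w.getVert m) + 1 := by
    intro m
    rcases Nat.lt_or_ge m w.length with h | h
    · have := hdist _ _ (w.adj_getVert_succ h).toWalk (hreach m)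
      simpa using this
    · rw [w.getVert_of_length_le h, w.getVert_of_length_le (by omega)]
      exact Nat.le_succ _
  have hex : ∀ t, t ≤ G.dist x y → ∃ m, G.dist x (w.getVert m) = t := by
    intro t ht
    have h1 : ∃ m, t ≤ G.dist x (w.getVert m) := ⟨w.length, by rwa [w.getVert_length]⟩
    classical
    refine ⟨Nat.find h1, le_antisymm ?_ (Nat.find_spec h1)⟩
    rcases Nat.eq_zero_or_pos (Nat.find h1) with h0 | h0
    · rw [h0, w.getVert_zero, SimpleGraph.dist_self]
      exact Nat.zero_le _
    · have h2 := Nat.find_min h1 (Nat.sub_lt h0 one_pos)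
      have h3 := hstep (Nat.find h1 - 1)
      rw [Nat.sub_add_cancel h0] at h3
      omega
  have hex2 : ∀ c : Fin N, ∃ m, G.dist x (w.getVert m) = c * Δ := fun c => hex _ (by
    have : (c : ℕ) * Δ ≤ N * Δ := Nat.mul_le_mul_right _ c.2.le
    omega)
  choose m hm using hex2
  refine ⟨fun c => w.getVert (m c), fun c => hw _ (w.getVert_mem_support _), fun c c' hcc u => ?_⟩
  have h1 := hdist _ _ u (hreach (m c))
  have h2 := hdist _ _ u.reverse (hreach (m c'))
  rw [SimpleGraph.Walk.length_reverse] at h2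
  rw [hm, hm] at h1 h2
  rcases Nat.lt_or_gt_of_ne (fun h => hcc (Fin.ext h) : (c : ℕ) ≠ c') with h | h
  · have h3 : ((c : ℕ) + 1) * Δ ≤ c' * Δ := Nat.mul_le_mul_right _ h
    rw [add_mul, one_mul] at h3
    omega
  · have h3 : ((c' : ℕ) + 1) * Δ ≤ c * Δ := Nat.mul_le_mul_right _ h
    rw [add_mul, one_mul] at h3
    omega

end Pool.Agent.MP_fd1949_P
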