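import Mathlib
import Pool.Agent.Lib.MP_fd1949_P.Struct
import Pool.Agent.Lib.MP_fd1949_P.Ram

/-!
# Homogeneous levels and locations
-/

namespace Pool.Agent.MP_fd1949_P

open Pool.Agent.MP_fd1949_co

/-- Ramsey's theorem for the pairs of levels and locations: `gr i m d e` is any relation.
PROOF. `K` = the number of `ramsey (Bool × Bool) (l + 1)` (take `M = K` levels); `N` = the number of `ramsey (Fin K → Fin K → Bool × Bool) (n + 1)`. Colour a pair `c < d` of locations by the function `(i, m) ↦ (gr i m d c, gr i m c d)` (truth values); get `e' : Fin (n+1) → Fin N` strictly monotone with constant colour `a`. Then `fun i m => a i m`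
is a colouring of the pairs of levels `i < m`; get `I' : Fin (l+1) → Fin K` strictly monotone with constant colour `(b₁, b₂)`. If `b₁ = b₂ = false`: first alternative with `I'` and `e'` (every pair `d ≠ e` of locations is `c < d` or `d < c`). If `b₁ = true`: row location `d = e' (last)`, the columns `e' 0, ..., e' (n-1)`. If `b₂ = true`: `d = e' 0`, columns
`e' 1, ..., e' n`. -/
theorem ramC (l n : ℕ) : ∃ K N : ℕ, ∀ gr : ℕ → ℕ → Fin N → Fin N → Prop,
    (∃ (I : Fin (l + 1) → ℕ) (e : Fin (n + 1) → Fin N), StrictMono I ∧ (∀ a, I a < K) ∧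
      Function.Injective e ∧ ∀ a b, a < b → ∀ i j, i ≠ j → ¬ gr (I a) (I b) (e i) (e j)) ∨
    ∃ (I : Fin (l + 1) → ℕ) (d : Fin N) (e : Fin n → Fin N), StrictMono I ∧ (∀ a, I a < K) ∧
      Function.Injective e ∧ ∀ a b, a < b → ∀ j, gr (I a) (I b) d (e j) := by
  classical
  obtain ⟨K, hK⟩ := ramsey (Bool × Bool) (l + 1)
  obtain ⟨N, hN⟩ := ramsey (Fin K → Fin K → Bool × Bool) (n + 1)
  refine ⟨K, N, fun gr => ?_⟩
  obtain ⟨e', he', a, ha⟩ := hN N le_rfl
    (fun c d i m => (decide (gr i m d c), decide (gr i m c d)))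
  obtain ⟨I', hI', b, hb⟩ := hK K le_rfl a
  have key : ∀ s t, s < t → ∀ i j, i < j →
      (decide (gr (I' s) (I' t) (e' j) (e' i)), decide (gr (I' s) (I' t) (e' i) (e' j))) = b := by
    intro s t hst i j hij
    have h1 := congrFun (congrFun (ha i j hij) (I' s)) (I' t)
    rw [hb s t hst] at h1
    exact h1
  obtain ⟨b1, b2⟩ := b
  cases b1 with
  | true =>
    refine Or.inr ⟨fun s => (I' s : ℕ), e' (Fin.last n), fun j => e' j.castSucc, fun s t h => hI' h,
      fun s => (I' s).2, fun i j h => Fin.castSucc_injective n (he'.injective h), ?_⟩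
    intro s t hst j
    exact of_decide_eq_true (congrArg Prod.fst (key s t hst j.castSucc (Fin.last n)
      (Fin.castSucc_lt_last j)))
  | false =>
    cases b2 with
    | true =>
      refine Or.inr ⟨fun s => (I' s : ℕ), e' 0, fun j => e' j.succ, fun s t h => hI' h,
        fun s => (I' s).2, fun i j h => Fin.succ_injective n (he'.injective h), ?_⟩
      intro s t hst j
      exact of_decide_eq_true (congrArg Prod.snd (key s t hst 0 j.succ (Fin.succ_pos j)))
    | false =>
      refine Or.inl ⟨fun s => (I' s : ℕ), e', fun s t h => hI' h, fun s => (I' s).2,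
        he'.injective, ?_⟩
      intro s t hst i j hij
      rcases lt_or_gt_of_ne hij with h | h
      · exact of_decide_eq_false (congrArg Prod.snd (key s t hst i j h))
      · exact of_decide_eq_false (congrArg Prod.fst (key s t hst j i h))

end Pool.Agent.MP_fd1949_P
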