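import Mathlib
import Pool.Agent.Lib.MP_fd1949_P.Struct
import Pool.Agent.Lib.MP_fd1949_P.Locs
import Pool.Agent.Lib.MP_fd1949_P.CaseA
import Pool.Agent.Lib.MP_fd1949_P.CombE
import Pool.Agent.Lib.MP_fd1949_P.CombM
import Pool.Agent.Lib.MP_fd1949_P.RamC
import Pool.Agent.Lib.MP_fd1949_P.HubL
import Pool.Agent.Lib.MP_fd1949_P.LevG

/-!
# A long chain with a large last set gives a fat grid
-/

namespace Pool.Agent.MP_fd1949_P

open Pool.Agent.MP_fd1949_co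

private theorem ChainM_num {K N c₁ q r S q₁ ω η Δ' h0 Δ : ℕ} (hq : 1 ≤ q) (hS : S = q * c₁)
    (hq₁ : q₁ = q + S) (hω : ω = q₁ + (2 * r + q₁) + 1) (hη : η = 4 * ω + 2 * S + q + r)
    (hΔ' : Δ' = 2 * ω + S + q₁ + 2) (h0e : h0 = r + K * η)
    (hΔ : Δ = Δ' + 2 * h0 + q + 2 * (h0 + r + r) + 1) :
    (N + 2) * Δ ≤ (N + 2) * (17 + 6 * c₁ + 4 * (K * (13 + 10 * c₁))) * (q + r) := by
  have e1 : S ≤ c₁ * (q + r) := by
    rw [hS, mul_comm]
    exact Nat.mul_le_mul_left _ (by omega)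
  have e2 : (13 + 10 * c₁) * (q + r) = 13 * (q + r) + 10 * (c₁ * (q + r)) := by ring
  have e3 : η ≤ (13 + 10 * c₁) * (q + r) := by omega
  have e4 := Nat.mul_le_mul_left K e3
  have e5 : (17 + 6 * c₁ + 4 * (K * (13 + 10 * c₁))) * (q + r) =
      17 * (q + r) + 6 * (c₁ * (q + r)) + 4 * (K * ((13 + 10 * c₁) * (q + r))) := by ring
  have e6 : Δ ≤ (17 + 6 * c₁ + 4 * (K * (13 + 10 * c₁))) * (q + r) := by
    rw [e5]
    omega
  rw [mul_assoc]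
  exact Nat.mul_le_mul_left _ e6

/-- Sections 2 - 4.
PROOF. Let `N₂` be the number of `comb_fat k`, `n = max N₂ (Fintype.card (Sym2 (Fin (k^2))))`,
`l = k ^ 2 + k`, `K, N` from `ramC l n`. Constants for `q, r ≥ 1`:
`S = q * 10 ^ ((2 * n) ^ 2 + 1)`, `q₁ = q + S`, `ω₀ = 2 * r + q₁`, `ω = q₁ + ω₀ + 1`,
`η = 4 * ω + 2 * S + q + r`, `h i = r + (K - i) * η`, `Δ' = 2 * ω + S + q₁ + 2`,
`Δ = Δ' + 2 * h 0 + q + 2 * (h 0 + r + h K) + 1`; `(N + 2) * Δ ≤ C * (q + r)`.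
`locs` with `N + 2` locations, `a_ge` for the first two gives `h i ≤ a i` for all `i < K`,
`exists_roots` for the first `N`, `ramC` for `gr i m d e = ρ.Graze q₁ i m d e`.
First alternative: `caseA` for restricted roots, `grid_of_top`.
Second alternative: `i₀ = I 0`, the levels `I 1, ..., I l`, `exists_comb`, `comb_fat`. -/
theorem chain_fat (k : ℕ) : ∃ K C : ℕ, ∀ q r : ℕ, 1 ≤ q → 1 ≤ r → ∃ h : ℕ → ℕ,
    (∀ i < K, h (i + 1) ≤ h i) ∧ r ≤ h K ∧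
    ∀ (V : Type) (G : SimpleGraph V) (c : Chain G K r h), ∀ x ∈ c.S K, ∀ y ∈ c.S K,
      ¬ NearN G (C * (q + r)) x y → ∃ B P, IsFatMinor G (grid k) q B P := by
  classical
  obtain ⟨N₂, hN₂⟩ := comb_fat k
  obtain ⟨n, hn⟩ : ∃ n, n = max N₂ (Fintype.card (Sym2 (Fin (k ^ 2)))) := ⟨_, rfl⟩
  obtain ⟨K, N, hram⟩ := ramC (k ^ 2 + k) n
  refine ⟨K, (N + 2) * (17 + 6 * 10 ^ ((2 * n) ^ 2 + 1) +
    4 * (K * (13 + 10 * 10 ^ ((2 * n) ^ 2 + 1)))), fun q r hq hr => ?_⟩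
  obtain ⟨S, hS⟩ : ∃ S, S = q * 10 ^ ((2 * n) ^ 2 + 1) := ⟨_, rfl⟩
  obtain ⟨q₁, hq₁⟩ : ∃ q₁, q₁ = q + S := ⟨_, rfl⟩
  obtain ⟨ω, hω⟩ : ∃ ω, ω = q₁ + (2 * r + q₁) + 1 := ⟨_, rfl⟩
  obtain ⟨η, hη⟩ : ∃ η, η = 4 * ω + 2 * S + q + r := ⟨_, rfl⟩
  obtain ⟨Δ', hΔ'⟩ : ∃ Δ', Δ' = 2 * ω + S + q₁ + 2 := ⟨_, rfl⟩
  obtain ⟨h, hh⟩ : ∃ h : ℕ → ℕ, ∀ i, h i = r + (K - i) * η := ⟨_, fun _ => rfl⟩
  obtain ⟨Δ, hΔ⟩ : ∃ Δ, Δ = Δ' + 2 * h 0 + q + 2 * (h 0 + r + r) + 1 := ⟨_, rfl⟩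
  have hK : h K = r := by rw [hh, Nat.sub_self, zero_mul, add_zero]
  have hstep : ∀ i < K, h (i + 1) + η ≤ h i := by
    intro i hi
    rw [hh, hh]
    have e : K - i = (K - (i + 1)) + 1 := by omega
    rw [e, add_mul, one_mul]
    omega
  have hle0 : ∀ i, h i ≤ h 0 := by
    intro i
    rw [hh, hh]
    have := Nat.mul_le_mul_right η (show K - i ≤ K - 0 by omega)
    omega
  have hnum : (N + 2) * Δ ≤ (N + 2) * (17 + 6 * 10 ^ ((2 * n) ^ 2 + 1) +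
      4 * (K * (13 + 10 * 10 ^ ((2 * n) ^ 2 + 1)))) * (q + r) := by
    refine ChainM_num (S := S) (q₁ := q₁) (ω := ω) (η := η) (Δ' := Δ') (h0 := h 0) hq hS hq₁ hω
      hη hΔ' ?_ hΔ
    rw [hh, Nat.sub_zero]
  refine ⟨h, fun i hi => by have := hstep i hi; omega, hK.ge, ?_⟩
  intro V G c x hx y hy hfar
  obtain ⟨z, hz, hzfar⟩ := locs c.conn hx hy (N := N + 2) (Δ := Δ)
    fun hn => hfar (hn.mono hnum)
  have ha : ∀ i < K, h i ≤ c.a i := by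
    intro i hi
    refine c.a_ge hi (hz 0) (hz 1) ?_
    rintro ⟨w, hw⟩
    have h1 := hzfar 0 1 (by
      intro h
      have := congrArg Fin.val h
      simp at this) w
    have h2 := hle0 i
    rw [hK] at hw
    omega
  obtain ⟨ρ, hρ⟩ := exists_roots c (fun e : Fin N => z (Fin.castAdd 2 e)) fun e => hz _
  have hρfar : ∀ i j, i ≠ j → ∀ w : G.Walk (ρ.y i) (ρ.y j), Δ ≤ w.length := by
    intro i j hij
    rw [congrFun hρ i, congrFun hρ j]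
    exact hzfar _ _ fun hc => hij (Fin.castAdd_injective N 2 hc)
  rcases hram (fun i m d e => ρ.Graze q₁ i m d e) with
    ⟨I, e, hI, hIK, he, hng⟩ | ⟨I, d, e, hI, hIK, he, hg⟩
  · have hcard : Fintype.card (Sym2 (Fin (k ^ 2))) ≤ Fintype.card (Fin (n + 1)) := by
      rw [Fintype.card_fin, hn]
      exact (le_max_right _ _).trans (Nat.le_succ _)
    obtain ⟨φ⟩ := Function.Embedding.nonempty_of_card_le hcard
    have hl : k ^ 2 ≤ k ^ 2 + k + 1 := by omega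
    refine grid_of_top (caseA c (η := η) (q₁ := q₁) (Δ := Δ) hstep
      (fun a => I (Fin.castLE hl a)) ?_ (fun a => hIK _)
      { y := fun s => ρ.y (e (φ s))
        g := fun i s => ρ.g i (e (φ s))
        mem := fun s => ρ.mem _
        start := fun i hi s => ρ.start i hi _
        inS := fun i hi s => ρ.inS i hi _
        lev := fun i hi s => ρ.lev i hi _
        adj := fun i hi s => ρ.adj i hi _
        last := fun i hi s => ρ.last i hi _ } ?_ ?_ ?_ ?_ ha ?_)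
    · intro a b hab
      exact hI hab
    · intro s s' hss
      exact hρfar _ _ fun hc => hss (φ.injective (he hc))
    · rw [hK]
      omega
    · omega
    · omega
    · intro a b hab s s' hss
      exact hng _ _ hab _ _ fun hc => hss (φ.injective hc)
  · obtain ⟨Cb⟩ := exists_comb c (η := η) (q₁ := q₁) (Δ := Δ) (Δ' := Δ') (k := k ^ 2 + k)
      (N := n) hstep hK (by omega) (I 0) (hIK 0) (fun a => I a.succ)
      (fun a b hab => hI (Fin.succ_lt_succ_iff.2 hab)) (fun a => hI (Fin.succ_pos a))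
      (fun a => hIK _) ρ d e he hρfar (by omega) ha fun a j => hg 0 a.succ (Fin.succ_pos a) j
    refine hN₂ V G n q S q₁ (2 * r + q₁) ω η Δ' _ Cb ⟨hq, hS.ge, hq₁.ge, hω.ge, by omega,
      hΔ'.ge⟩ ?_
    rw [hn]
    exact le_max_left _ _

end Pool.Agent.MP_fd1949_P
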