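import Mathlib
import Pool.Agent.Lib.MP_fd1949_P.Struct

/-!
# Existence of level functions
-/

namespace Pool.Agent.MP_fd1949_P

open Pool.Agent.MP_fd1949_co

/-- PROOF. `f v` = the smallest length of a walk from `v` to `o` all of whose vertices are in `S` (`sInf` of a set of
natural numbers, nonempty for `v ∈ S` because `S` is connected). `zero`: the walk `nil`. `lip`: put the edge in front of the shortest walk. `down`: the second vertex
of a shortest walk from `v` (length `f v ≠ 0`; the tail is a walk in `S` of length `f v - 1`, and `lip` gives the other inequality).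
`uniq`: a walk of length zero. -/
theorem exists_lev {V : Type} {G : SimpleGraph V} {S : Set V} (hS : Conn G S) {o : V} (ho : o ∈ S) :
    ∃ f : V → ℕ, Lev G S o f := by
  set T : V → Set ℕ := fun v => {n | ∃ w : G.Walk v o, w.length = n ∧ ∀ z ∈ w.support, z ∈ S}
    with hT
  have hne : ∀ v ∈ S, (T v).Nonempty := by
    intro v hv
    obtain ⟨w, hw⟩ := hS v hv o ho
    exact ⟨w.length, w, rfl, hw⟩
  have hlip : ∀ u ∈ S, ∀ v ∈ S, G.Adj u v → sInf (T u) ≤ sInf (T v) + 1 := by
    intro u hu v hv huv
    obtain ⟨w, hw, hws⟩ := Nat.sInf_mem (hne v hv)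
    apply Nat.sInf_le
    refine ⟨SimpleGraph.Walk.cons huv w, by rw [SimpleGraph.Walk.length_cons, hw], ?_⟩
    intro z hz
    rw [SimpleGraph.Walk.support_cons, List.mem_cons] at hz
    rcases hz with rfl | hz
    · exact hu
    · exact hws z hz
  refine ⟨fun v => sInf (T v), ho, ?_, hlip, ?_, ?_⟩
  · refine Nat.le_zero.mp (Nat.sInf_le ⟨SimpleGraph.Walk.nil, rfl, ?_⟩)
    intro z hz
    rw [SimpleGraph.Walk.support_nil, List.mem_singleton] at hz
    rw [hz]
    exact ho
  · intro v hv hv0
    obtain ⟨w, hw, hws⟩ := Nat.sInf_mem (hne v hv)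
    cases w with
    | nil => exact absurd hw.symm hv0
    | @cons _ u _ hadj w' =>
      have hu : u ∈ S := by
        apply hws
        rw [SimpleGraph.Walk.support_cons, List.mem_cons]
        exact Or.inr w'.start_mem_support
      have h1 : sInf (T u) ≤ w'.length := by
        apply Nat.sInf_le
        refine ⟨w', rfl, fun z hz => hws z ?_⟩
        rw [SimpleGraph.Walk.support_cons, List.mem_cons]
        exact Or.inr hz
      have h2 := hlip v hv u hu hadj
      rw [SimpleGraph.Walk.length_cons] at hw
      refine ⟨u, hu, hadj, ?_⟩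
      omega
  · intro v hv hv0
    obtain ⟨w, hw, -⟩ := Nat.sInf_mem (hne v hv)
    exact SimpleGraph.Walk.eq_of_length_eq_zero (hw.trans hv0)

end Pool.Agent.MP_fd1949_P
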