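import Mathlib
import Pool.Agent.Lib.MP_fd1949_P.Struct
import Pool.Agent.Lib.MP_fd1949_P.LevE
import Pool.Agent.Lib.MP_fd1949_P.SepL

/-!
# The cover by pieces of chains (COVER)
-/

namespace Pool.Agent.MP_fd1949_P

open Pool.Agent.MP_fd1949_co

open Classical in
/-- a level function of a set which has one. -/
private noncomputable def Cov_lf {V : Type} (G : SimpleGraph V) (A : Set V) : V → ℕ :=
  if h : ∃ (f : V → ℕ) (o : V), Lev G A o f then h.choose else fun _ => 0

private theorem Cov_lf_spec {V : Type} {G : SimpleGraph V} {A : Set V} (hA : Conn G A) {v : V}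
    (hv : v ∈ A) : ∃ o, Lev G A o (Cov_lf G A) := by
  have h : ∃ (f : V → ℕ) (o : V), Lev G A o f := by
    obtain ⟨f, hf⟩ := exists_lev hA hv
    exact ⟨f, v, hf⟩
  rw [Cov_lf, dif_pos h]
  exact h.choose_spec

/-- the slab conditions of a list. -/
private def Cov_cond {V : Type} (r m : ℕ) (L : List ((V → ℕ) × ℕ)) (x : V) : Prop :=
  ∀ p ∈ L, p.2 ≤ p.1 x + m ∧ p.1 x ≤ p.2 + r + m

/-- the state of a vertex after `i` levels. -/
private noncomputable def Cov_st {V : Type} (G : SimpleGraph V) (r : ℕ) (h : ℕ → ℕ) (v : V) :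
    ℕ → Set V × List ((V → ℕ) × ℕ)
  | 0 => ({z | G.Reachable v z}, [])
  | i + 1 =>
    ({z | ∃ w : G.Walk v z, ∀ x ∈ w.support, x ∈ (Cov_st G r h v i).1 ∧
      Cov_cond r (h (i + 1)) ((Cov_lf G (Cov_st G r h v i).1,
        r * (Cov_lf G (Cov_st G r h v i).1 v / r)) :: (Cov_st G r h v i).2) x},
      (Cov_lf G (Cov_st G r h v i).1, r * (Cov_lf G (Cov_st G r h v i).1 v / r)) ::
        (Cov_st G r h v i).2)

private noncomputable abbrev Cov_f {V : Type} (G : SimpleGraph V) (r : ℕ) (h : ℕ → ℕ) (v : V)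
    (i : ℕ) : V → ℕ := Cov_lf G (Cov_st G r h v i).1

private noncomputable abbrev Cov_a {V : Type} (G : SimpleGraph V) (r : ℕ) (h : ℕ → ℕ) (v : V)
    (i : ℕ) : ℕ := r * (Cov_f G r h v i v / r)

private theorem Cov_snd {V : Type} (G : SimpleGraph V) (r : ℕ) (h : ℕ → ℕ) (v : V) (i : ℕ) :
    (Cov_st G r h v (i + 1)).2 = (Cov_f G r h v i, Cov_a G r h v i) :: (Cov_st G r h v i).2 :=
  rfl

private theorem Cov_fst {V : Type} (G : SimpleGraph V) (r : ℕ) (h : ℕ → ℕ) (v : V) (i : ℕ) :
    (Cov_st G r h v (i + 1)).1 = {z | ∃ w : G.Walk v z, ∀ x ∈ w.support,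
      x ∈ (Cov_st G r h v i).1 ∧ Cov_cond r (h (i + 1)) (Cov_st G r h v (i + 1)).2 x} :=
  rfl

private theorem Cov_mem {V : Type} (G : SimpleGraph V) (r : ℕ) (h : ℕ → ℕ) (v : V) (i : ℕ)
    (p : (V → ℕ) × ℕ) : p ∈ (Cov_st G r h v i).2 ↔
      ∃ j < i, p = (Cov_f G r h v j, Cov_a G r h v j) := by
  induction i with
  | zero =>
    simp only [Nat.not_lt_zero, false_and, exists_false, iff_false]
    exact List.not_mem_nil
  | succ i ih =>
    rw [Cov_snd, List.mem_cons, ih]
    constructor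
    · rintro (h1 | ⟨j, hj, h1⟩)
      · exact ⟨i, Nat.lt_succ_self i, h1⟩
      · exact ⟨j, Nat.lt_succ_of_lt hj, h1⟩
    · rintro ⟨j, hj, h1⟩
      rcases Nat.lt_succ_iff_lt_or_eq.1 hj with h2 | h2
      · exact Or.inr ⟨j, h2, h1⟩
      · subst h2
        exact Or.inl h1

private theorem Cov_cond_iff {V : Type} (G : SimpleGraph V) (r : ℕ) (h : ℕ → ℕ) (v : V) (i m : ℕ)
    (x : V) : Cov_cond r m (Cov_st G r h v i).2 x ↔ ∀ j < i, Cov_a G r h v j ≤
      Cov_f G r h v j x + m ∧ Cov_f G r h v j x ≤ Cov_a G r h v j + r + m := by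
  constructor
  · intro h1 j hj
    exact h1 (Cov_f G r h v j, Cov_a G r h v j) ((Cov_mem G r h v i _).2 ⟨j, hj, rfl⟩)
  · intro h1 p hp
    obtain ⟨j, hj, rfl⟩ := (Cov_mem G r h v i p).1 hp
    exact h1 j hj

private theorem Cov_own {V : Type} (G : SimpleGraph V) {r : ℕ} (hr : 0 < r) (h : ℕ → ℕ) (v : V)
    (j m : ℕ) : Cov_a G r h v j ≤ Cov_f G r h v j v + m ∧
      Cov_f G r h v j v ≤ Cov_a G r h v j + r + m := by
  have h1 := Nat.div_add_mod (Cov_f G r h v j v) r
  have h2 := Nat.mod_lt (Cov_f G r h v j v) hr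
  unfold Cov_a
  omega

private theorem Cov_self {V : Type} (G : SimpleGraph V) {r : ℕ} (hr : 0 < r) (h : ℕ → ℕ) (v : V)
    (i : ℕ) : v ∈ (Cov_st G r h v i).1 := by
  induction i with
  | zero => exact SimpleGraph.Reachable.refl v
  | succ i ih =>
    rw [Cov_fst]
    refine ⟨.nil, fun x hx => ?_⟩
    rw [SimpleGraph.Walk.support_nil, List.mem_singleton] at hx
    subst hx
    exact ⟨ih, (Cov_cond_iff G r h x (i + 1) _ x).2 fun j _ => Cov_own G hr h x j _⟩

private theorem Cov_conn {V : Type} (G : SimpleGraph V) (r : ℕ) (h : ℕ → ℕ) (v : V)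
    (i : ℕ) : Conn G (Cov_st G r h v i).1 := by
  classical
  cases i with
  | zero =>
    refine conn_of_root v fun x hx => ?_
    obtain ⟨w⟩ : G.Reachable v x := hx
    exact ⟨w, fun u hu => ⟨w.takeUntil u hu⟩⟩
  | succ i =>
    refine conn_of_root v fun x hx => ?_
    rw [Cov_fst] at hx
    obtain ⟨w, hw⟩ := hx
    refine ⟨w, fun u hu => ?_⟩
    rw [Cov_fst]
    exact ⟨w.takeUntil u hu, fun y hy => hw y (w.support_takeUntil_subset_support hu hy)⟩

/-- the chain of a vertex. -/
private noncomputable def Cov_chain {V : Type} (G : SimpleGraph V) (K : ℕ) {r : ℕ} (hr : 0 < r)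
    (h : ℕ → ℕ) (v : V) : Chain G K r h where
  S := fun i => (Cov_st G r h v i).1
  o := fun i => (Cov_lf_spec (Cov_conn G r h v i) (Cov_self G hr h v i)).choose
  f := Cov_f G r h v
  a := Cov_a G r h v
  lev := fun i _ => (Cov_lf_spec (Cov_conn G r h v i) (Cov_self G hr h v i)).choose_spec
  top := fun u hu w huw => by
    have h1 : G.Reachable v u := hu
    exact h1.trans huw.reachable
  sub := fun i _ z hz => by
    rw [Cov_fst] at hz
    obtain ⟨w, hw⟩ := hz
    exact (hw z w.end_mem_support).1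
  slab := fun i _ z hz j hj => by
    cases i with
    | zero => exact absurd hj (Nat.not_lt_zero j)
    | succ i =>
      rw [Cov_fst] at hz
      obtain ⟨w, hw⟩ := hz
      exact (Cov_cond_iff G r h v (i + 1) _ z).1 (hw z w.end_mem_support).2 j hj
  closed := fun i _ u hu z hz huz hc => by
    rw [Cov_fst] at hu ⊢
    obtain ⟨w, hw⟩ := hu
    refine ⟨w.concat huz, fun x hx => ?_⟩
    rw [SimpleGraph.Walk.support_concat, List.mem_append, List.mem_singleton] at hx
    rcases hx with hx | hx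
    · exact hw x hx
    · subst hx
      exact ⟨hz, (Cov_cond_iff G r h v (i + 1) _ x).2 hc⟩
  conn := Cov_conn G r h v K

/-- the parities of a vertex. -/
private noncomputable def Cov_par {V : Type} (G : SimpleGraph V) (K r : ℕ) (h : ℕ → ℕ) (v : V) :
    Fin K → Bool :=
  fun i => decide ((Cov_f G r h v i v / r) % 2 = 1)

private theorem Cov_anti {K : ℕ} {h : ℕ → ℕ} (hh : ∀ i < K, h (i + 1) ≤ h i) {i : ℕ}
    (hi : i ≤ K) : h K ≤ h i := by
  induction K, hi using Nat.le_induction with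
  | base => exact le_rfl
  | succ n hn ih =>
    exact (hh n (Nat.lt_succ_self n)).trans (ih fun j hj => hh j (Nat.lt_succ_of_lt hj))

private theorem Cov_div {r x y : ℕ} (hr : 0 < r) (h1 : x ≤ y + r) (h2 : y ≤ x + r)
    (hp : (x / r) % 2 = (y / r) % 2) : x / r = y / r := by
  have h3 : x / r ≤ y / r + 1 := by
    calc x / r ≤ (y + r) / r := Nat.div_le_div_right h1
      _ = y / r + 1 := Nat.add_div_right y hr
  have h4 : y / r ≤ x / r + 1 := by
    calc y / r ≤ (x + r) / r := Nat.div_le_div_right h2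
      _ = x / r + 1 := Nat.add_div_right x hr
  omega

private theorem Cov_near {V : Type} (G : SimpleGraph V) (K : ℕ) {r : ℕ} {h : ℕ → ℕ} (hr : 0 < r)
    (hh : ∀ i < K, h (i + 1) ≤ h i) (hK : r ≤ h K) {u v : V} (w : G.Walk u v)
    (hw : w.length ≤ r) {i : ℕ} (hi : i < K) {z : V} (hz : z ∈ w.support) :
    z ∈ (Cov_st G r h u i).1 ∧ ∀ j ≤ i, Cov_f G r h u j u ≤ Cov_f G r h u j z + r ∧
      Cov_f G r h u j z ≤ Cov_f G r h u j u + r := by
  classical
  have hs : ∀ k, ∀ j < k, (Cov_chain G K hr h u).a j ≤ (Cov_chain G K hr h u).f j u + 0 ∧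
      (Cov_chain G K hr h u).f j u ≤ (Cov_chain G K hr h u).a j + r + 0 :=
    fun k j _ => Cov_own G hr h u j 0
  have hl : (w.takeUntil z hz).length ≤ r := (w.length_takeUntil_le_length hz).trans hw
  refine ⟨?_, fun j hj => ?_⟩
  · refine (Cov_chain G K hr h u).sep hh hi.le (Cov_self G hr h u i) (hs i) w ?_ z hz
    have := Cov_anti hh hi.le
    omega
  · have h1 := (Cov_chain G K hr h u).sep_lip hh (lt_of_le_of_lt hj hi) (Cov_self G hr h u j)
      (hs j) (w.takeUntil z hz) (by
        have := Cov_anti hh (hj.trans hi.le)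
        omega)
    have h2 : Cov_f G r h u j u ≤ Cov_f G r h u j z + (w.takeUntil z hz).length ∧
      Cov_f G r h u j z ≤ Cov_f G r h u j u + (w.takeUntil z hz).length := h1
    omega

private theorem Cov_sub {V : Type} (G : SimpleGraph V) {r : ℕ} {h : ℕ → ℕ} {u v : V} {i : ℕ}
    (h1 : (Cov_st G r h u i).1 = (Cov_st G r h v i).1)
    (h2 : (Cov_st G r h u (i + 1)).2 = (Cov_st G r h v (i + 1)).2) (w : G.Walk v u)
    (hw : ∀ x ∈ w.support, x ∈ (Cov_st G r h v i).1 ∧
      Cov_cond r (h (i + 1)) (Cov_st G r h v (i + 1)).2 x) :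
    (Cov_st G r h u (i + 1)).1 ⊆ (Cov_st G r h v (i + 1)).1 := by
  intro z hz
  rw [Cov_fst] at hz ⊢
  obtain ⟨w', hw'⟩ := hz
  refine ⟨w.append w', fun x hx => ?_⟩
  rcases (SimpleGraph.Walk.mem_support_append_iff _ _).1 hx with hx | hx
  · exact hw x hx
  · rw [← h1, ← h2]
    exact hw' x hx

private theorem Cov_eq {V : Type} (G : SimpleGraph V) (K : ℕ) {r : ℕ} {h : ℕ → ℕ} (hr : 0 < r)
    (hh : ∀ i < K, h (i + 1) ≤ h i) (hK : r ≤ h K) {u v : V} (huv : NearN G r u v)
    (hp : Cov_par G K r h u = Cov_par G K r h v) :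
    ∀ i ≤ K, Cov_st G r h u i = Cov_st G r h v i := by
  obtain ⟨w, hw⟩ := huv
  intro i
  induction i with
  | zero =>
    intro _
    refine Prod.ext ?_ rfl
    ext z
    have h1 : G.Reachable u v := ⟨w⟩
    constructor
    · intro h2
      exact h1.symm.trans h2
    · intro h2
      exact h1.trans h2
  | succ i ih =>
    intro hi
    have hiK : i < K := hi
    have he := ih hiK.le
    have hf : Cov_f G r h u i = Cov_f G r h v i := by
      unfold Cov_f
      rw [he]
    have hpi : (Cov_f G r h u i u / r) % 2 = (Cov_f G r h u i v / r) % 2 := by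
      have h1 := congrFun hp ⟨i, hiK⟩
      have h2 : decide ((Cov_f G r h u i u / r) % 2 = 1) =
        decide ((Cov_f G r h v i v / r) % 2 = 1) := h1
      rw [decide_eq_decide, ← hf] at h2
      omega
    have hn := (Cov_near G K hr hh hK w hw hiK w.end_mem_support).2 i le_rfl
    have hd := Cov_div hr hn.1 hn.2 hpi
    have ha : Cov_a G r h u i = Cov_a G r h v i := by
      unfold Cov_a
      rw [hd, hf]
    have hL : (Cov_st G r h u (i + 1)).2 = (Cov_st G r h v (i + 1)).2 := by
      rw [Cov_snd, Cov_snd, hf, ha, he]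
    have hrK : r ≤ h (i + 1) := hK.trans (Cov_anti hh hi)
    have hwu : ∀ x ∈ w.support, x ∈ (Cov_st G r h u i).1 ∧
        Cov_cond r (h (i + 1)) (Cov_st G r h u (i + 1)).2 x := by
      intro x hx
      obtain ⟨h1, h2⟩ := Cov_near G K hr hh hK w hw hiK hx
      refine ⟨h1, (Cov_cond_iff G r h u (i + 1) _ x).2 fun j hj => ?_⟩
      have h3 := h2 j (Nat.lt_succ_iff.1 hj)
      have h4 := Cov_own G hr h u j 0
      omega
    refine Prod.ext ?_ hL
    refine Set.Subset.antisymm ?_ ?_
    · refine Cov_sub G (congrArg Prod.fst he) hL w.reverse ?_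
      intro x hx
      rw [SimpleGraph.Walk.support_reverse, List.mem_reverse] at hx
      rw [← he, ← hL]
      exact hwu x hx
    · exact Cov_sub G (congrArg Prod.fst he).symm hL.symm w hwu

/-- COVER.
PROOF. If `V` is empty everything is trivial; classical. For a set `A` with `A.Nonempty` and `Conn G A` fix a base point `base A ∈ A` and (by `exists_lev`) a level function `lf A : V → ℕ`, `Lev G A (base A) (lf A)`.
State after `i` levels of a vertex `v`: `st i v : Set V × List ((V → ℕ) × ℕ)` (the current set and the list of the pairs `(f j, a j)`, `j < i`):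
`st 0 v = ({z | G.Reachable v z}, [])`, and from `st i v = (A, L)`: `f = lf A`, `a = r * (f v / r)`, `L' = (f, a) :: L`,
`A' = {z | there is a walk from v to z all of whose points w are in A and satisfy a' ≤ f' w + h (i+1) ∧ f' w ≤ a' + r + h (i+1) for all (f', a') in L'}`, `st (i+1) v = (A', L')`.
(Any other bookkeeping is fine, e.g. functions `ℕ → Set V` defined by strong recursion.)
(1) Chain of `v`: `S i = (st i v).1`, `o i = base (S i)`, `f i = lf (S i)`, `a i = r * (f i v / r)`: a `Chain G K r h`; all `S i` are connected and contain `v`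
(`v` satisfies `a i ≤ f i v ≤ a i + r`). `slab` for `S i` and `j < i`: by definition of `A'` (all `j < i` with `h i`). `closed`: prolong the walk.
(2) `par v : Fin K → Bool` = parity of `f i v / r`. If `NearN G r u v` and `par u = par v` then `st i u = st i v` for all `i ≤ K`: `i = 0` clear. Step: let `(A, L) = st i u = st i v`, `f = lf A`.
By `Chain.sep` / `Chain.sep_lip` for the chain of `u` with `n = 0` and a walk of length `≤ r ≤ h i` (`h` is decreasing, `r ≤ h K`) the walk stays in `A` and all its points `w` have `f' w` within `r` of `f' u`,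
`f' = f` or in `L`; so `f u / r` and `f v / r` differ by at most one and have the same parity: they are equal, `a` is the same, `L'` is the same. The walk from `u` to `v` satisfies the conditions in the definition of `A'`
(`a' ≤ f' u ≤ a' + r`, so the points of the walk satisfy them with `r ≤ h (i+1)`), so the two sets `A'` agree.
(3) `𝒰 p` = all sets `{v | par v = p ∧ st K v = s}`, `s` a state. Bounded: for two points `x`, `y` of such a set both are in `(st K x).1 = S K` of the chain of `x`; use `hD`. -/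
theorem cover {V : Type} (G : SimpleGraph V) (K r D : ℕ) (h : ℕ → ℕ) (hr : 0 < r)
    (hh : ∀ i < K, h (i + 1) ≤ h i) (hK : r ≤ h K)
    (hD : ∀ c : Chain G K r h, ∀ x ∈ c.S K, ∀ y ∈ c.S K, NearN G D x y) :
    ∃ 𝒰 : (Fin K → Bool) → Set (Set V), (∀ x, ∃ p, ∃ A ∈ 𝒰 p, x ∈ A) ∧
      ∀ p, (∀ A ∈ 𝒰 p, ∀ B ∈ 𝒰 p, A ≠ B → ∀ x ∈ A, ∀ y ∈ B, ¬ NearN G r x y) ∧
        ∀ A ∈ 𝒰 p, ∀ x ∈ A, ∀ y ∈ A, NearN G D x y := by
  refine ⟨fun p => {A | ∃ s, A = {x | Cov_par G K r h x = p ∧ Cov_st G r h x K = s}}, ?_, ?_⟩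
  · intro x
    exact ⟨Cov_par G K r h x, _, ⟨Cov_st G r h x K, rfl⟩, rfl, rfl⟩
  · intro p
    constructor
    · rintro A ⟨s, rfl⟩ B ⟨s', rfl⟩ hAB x ⟨hx, hxs⟩ y ⟨hy, hys⟩ hn
      have h1 := Cov_eq G K hr hh hK hn (hx.trans hy.symm) K le_rfl
      exact hAB (by rw [← hxs, ← hys, h1])
    · rintro A ⟨s, rfl⟩ x ⟨hx, hxs⟩ y ⟨hy, hys⟩
      refine hD (Cov_chain G K hr h x) x (Cov_self G hr h x K) y ?_
      have h1 : Cov_st G r h x K = Cov_st G r h y K := hxs.trans hys.symm
      have h2 : y ∈ (Cov_st G r h x K).1 := by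
        rw [h1]
        exact Cov_self G hr h y K
      exact h2

end Pool.Agent.MP_fd1949_P
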