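import Mathlib
import Pool.Agent.Lib.MP_fd1949_P.Struct
import Pool.Agent.Lib.MP_fd1949_P.CovL
import Pool.Agent.Lib.MP_fd1949_P.ChainM
import Pool.Agent.Lib.MP_fd1949_P.Comp

/-!
# The theorem for planar graphs
-/

namespace Pool.Agent.MP_fd1949_P

open Pool.Agent.MP_fd1949_co

/-- PROOF. From `chain_fat k`: `K`, `C`. `d = 2 ^ K - 1`, constant `C' = 2 * C + ...`. For real `r > 0` take the natural number `r' = ⌈r⌉₊ ≥ 1`, `r' ≤ r + 1`; `cover` with `r'`, `D = C * (q + r')`, the hypothesis `hD` by `chain_fat` and `comp` (a fat grid gives a fat `H`). Reindex `Fin K → Bool` by `Fin (2 ^ K - 1 + 1)`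
(`Fintype.card_fun`, `Fintype.equivFinOfCardEq`), `Disj`, `Bdd` by `near_of_nearN`, `nearN_of_near` (`Near G r` with `r ≤ r'` gives `Near G r'`), `C * (q + r') ≤ C * (q + r + 1) ≤ C' * (r + q)` as `1 ≤ q`. -/
theorem planar_asdim {W : Type} (H : SimpleGraph W) (hH : GridMinor H) :
    ∃ (d : ℕ) (C : ℝ), 0 < C ∧ ∀ q : ℕ, 1 ≤ q →
      AsdimWith (fun _ G => FatMinorFree G H q) d (fun r => C * (r + q)) := by
  obtain ⟨k, β, hconn, hdisj, hadj⟩ := hH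
  obtain ⟨K, C, hC⟩ := chain_fat k
  refine ⟨2 ^ K - 1, 2 * (C : ℝ) + 1, by positivity, fun q hq => ?_⟩
  intro V _ G hG r hr
  have hr' : 0 < ⌈r⌉₊ := Nat.ceil_pos.2 hr
  obtain ⟨h, hh, hK, hfat⟩ := hC q ⌈r⌉₊ hq hr'
  obtain ⟨𝒰, hcov, hU⟩ := cover G K ⌈r⌉₊ (C * (q + ⌈r⌉₊)) h hr' hh hK (by
    intro c x hx y hy
    by_contra hn
    exact hG (comp β hconn hdisj hadj (hfat V G c x hx y hy hn)))
  have hcard : Fintype.card (Fin K → Bool) = 2 ^ K - 1 + 1 := by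
    have h1 : 1 ≤ 2 ^ K := Nat.one_le_two_pow
    rw [Fintype.card_fun, Fintype.card_bool, Fintype.card_fin]
    omega
  have e : (Fin K → Bool) ≃ Fin (2 ^ K - 1 + 1) := Fintype.equivFinOfCardEq hcard
  refine ⟨fun i => 𝒰 (e.symm i), ?_, ?_⟩
  · intro x
    obtain ⟨p, A, hA, hx⟩ := hcov x
    refine ⟨e p, A, ?_, hx⟩
    change A ∈ 𝒰 (e.symm (e p))
    rw [Equiv.symm_apply_apply]
    exact hA
  · intro i
    obtain ⟨h1, h2⟩ := hU (e.symm i)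
    constructor
    · rintro A hA B hB hAB x hx y hy ⟨w, hw⟩
      refine h1 A hA B hB hAB x hx y hy ⟨w, ?_⟩
      have h3 : (w.length : ℝ) ≤ (⌈r⌉₊ : ℝ) := hw.trans (Nat.le_ceil r)
      exact_mod_cast h3
    · intro A hA x hx y hy
      obtain ⟨w, hw⟩ := h2 A hA x hx y hy
      refine ⟨w, ?_⟩
      have h3 : (w.length : ℝ) ≤ (C : ℝ) * ((q : ℝ) + (⌈r⌉₊ : ℝ)) := by exact_mod_cast hw
      have h4 : (⌈r⌉₊ : ℝ) < r + 1 := Nat.ceil_lt_add_one hr.le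
      have h5 : (1 : ℝ) ≤ (q : ℝ) := by exact_mod_cast hq
      have h6 : (C : ℝ) * ((q : ℝ) + (⌈r⌉₊ : ℝ)) ≤ (C : ℝ) * (2 * (r + q)) :=
        mul_le_mul_of_nonneg_left (by linarith) (Nat.cast_nonneg C)
      have h7 : (2 * (C : ℝ) + 1) * (r + q) = (C : ℝ) * (2 * (r + q)) + (r + q) := by ring
      change (w.length : ℝ) ≤ (2 * (C : ℝ) + 1) * (r + q)
      rw [h7]
      linarith

end Pool.Agent.MP_fd1949_P
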